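import Pool.Agent.Lib.MP_a325a5_ag.G.Hil
import Pool.Agent.Lib.MP_a325a5_ag.S.LatR

/-! Proposition 4.2, dimension.  lat_reps (S/LatR.lean): representatives u₀ of ℤ^n modulo the b_l, at most |det b| of them.  Replacing u by u + ∑ y_l b_l and m by
m + ∑ y_l a_l changes neither the generator (hrel) nor m + tx θ u (hθ).  For a fixed u choose m₀ with ∑_j |m₀_j + tx θ u j| ≤ 3/2 (rounding): all generators with
this u are in (∏ x^(m₀) ∏ w^u) · Bm (K+2), because nm (m - m₀) ≤ K + 3/2, so ≤ K + 1.  Sum of the dimensions. -/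

open NumberField BMF

namespace BMG

private theorem abdim_sup {L V : Type} [Field L] [AddCommGroup V] [Module L V] {ι : Type}
    (s : ι → Submodule L V) (d : ℕ)
    (hf : ∀ i, FiniteDimensional L (s i)) (hs : ∀ i, Module.finrank L (s i) ≤ d) (R : Finset ι) :
    FiniteDimensional L (R.sup s : Submodule L V) ∧
      Module.finrank L (R.sup s : Submodule L V) ≤ R.card * d := by
  classical
  induction R using Finset.induction_on with
  | empty =>
    rw [Finset.sup_empty]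
    refine ⟨inferInstance, ?_⟩
    simp
  | insert a R ha ih =>
    haveI := ih.1
    haveI := hf a
    rw [Finset.sup_insert]
    refine ⟨inferInstance, ?_⟩
    refine (Submodule.finrank_add_le_finrank_add_finrank _ _).trans ?_
    rw [Finset.card_insert_of_notMem ha]
    have := hs a
    have := ih.2
    linarith

private theorem abdim_add {Ω ι : Type} [Field Ω] [Fintype ι] (y : ι → Ω) (hy : ∀ i, y i ≠ 0)
    (u v : ι → ℤ) : ∏ j, y j ^ (u + v) j = (∏ j, y j ^ u j) * ∏ j, y j ^ v j := by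
  rw [← Finset.prod_mul_distrib]
  exact Finset.prod_congr rfl fun j _ => by rw [Pi.add_apply, zpow_add₀ (hy j)]

private theorem abdim_lin {Ω ι κ : Type} [Field Ω] [Fintype ι] [Fintype κ] (y : ι → Ω)
    (hy : ∀ i, y i ≠ 0) (b : κ → ι → ℤ) (v : κ → ℤ) :
    ∏ j, y j ^ (∑ l, v l • b l) j = ∏ l, (∏ j, y j ^ b l j) ^ v l := by
  classical
  have h : ∀ s : Finset κ, ∏ j, y j ^ (∑ l ∈ s, v l • b l) j =
      ∏ l ∈ s, (∏ j, y j ^ b l j) ^ v l := by
    intro s
    induction s using Finset.induction_on with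
    | empty => simp
    | insert a s ha ih =>
      rw [Finset.sum_insert ha, Finset.prod_insert ha, abdim_add y hy, ih]
      congr 1
      rw [← Finset.prod_zpow]
      refine Finset.prod_congr rfl fun j _ => ?_
      rw [Pi.smul_apply, smul_eq_mul, mul_comm, zpow_mul]
  exact h Finset.univ

theorem BAg_dim {L Ω : Type} [Field L] [CharZero L] [Field Ω] [Algebra L Ω] {x : Fin 3 → Ω}
    (hx : ∀ j, x j ≠ 0) (σ τ : ℕ)
    (hdim : ∀ K : ℕ, FiniteDimensional L (Bm L x K) ∧
      (Module.finrank L (Bm L x K) : ℝ) ≤ σ * K + τ)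
    {n : ℕ} (w : Fin n → Ω) (hw : ∀ i, w i ≠ 0) (a : Fin n → Fin 3 → ℤ)
    (b : Fin n → Fin n → ℤ) (hb : (Matrix.of b).det ≠ 0)
    (hrel : ∀ l, (∏ j, x j ^ a l j) * ∏ i, w i ^ b l i = 1) (θ : Fin n → Fin 3 → ℚ)
    (hθ : ∀ l j, tx θ (b l) j = -(a l j : ℚ)) (K : ℕ) :
    FiniteDimensional L (BAg L x w θ K) ∧
      (Module.finrank L (BAg L x w θ K) : ℝ) ≤
        (Matrix.of b).det.natAbs * (σ * (K + 2) + τ) := by
  classical
  obtain ⟨R, hRc, hR⟩ := lat_reps b hb
  obtain ⟨m₀, hm₀⟩ : ∃ m₀ : (Fin n → ℤ) → Fin 3 → ℤ, ∀ u j, |(m₀ u j : ℚ) + tx θ u j| ≤ 1 / 2 := by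
    refine ⟨fun u j => -round (tx θ u j), fun u j => ?_⟩
    have h := abs_sub_round (tx θ u j)
    have e : ((-round (tx θ u j) : ℤ) : ℚ) + tx θ u j = tx θ u j - round (tx θ u j) := by
      push_cast
      ring
    rw [e]
    exact h
  obtain ⟨hf2, hd2⟩ := hdim (K + 2)
  obtain ⟨d, hd⟩ : ∃ d : ℕ, d = σ * (K + 2) + τ := ⟨_, rfl⟩
  have hd3 : Module.finrank L (Bm L x (K + 2)) ≤ d := by
    rw [hd]
    exact_mod_cast hd2
  obtain ⟨s, hs⟩ : ∃ s : (Fin n → ℤ) → Submodule L Ω, s = fun u =>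
      (Bm L x (K + 2)).map (LinearMap.mulLeft L ((∏ j, x j ^ m₀ u j) * ∏ i, w i ^ u i)) :=
    ⟨_, rfl⟩
  have hs1 : ∀ u, FiniteDimensional L (s u) := by
    intro u
    rw [hs]
    infer_instance
  have hs2 : ∀ u, Module.finrank L (s u) ≤ d := by
    intro u
    rw [hs]
    exact (Submodule.finrank_map_le _ _).trans hd3
  have hsup := abdim_sup s d hs1 hs2 R
  have hle : BAg L x w θ K ≤ R.sup s := by
    unfold BAg
    rw [Submodule.span_le]
    rintro g ⟨m, u, hm, rfl⟩
    obtain ⟨u₀, hu₀, y, rfl⟩ := hR u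
    obtain ⟨m', hm'⟩ : ∃ m' : Fin 3 → ℤ, m' = m - ∑ l, y l • a l := ⟨_, rfl⟩
    have hmm : m = m' + ∑ l, y l • a l := by rw [hm', sub_add_cancel]
    have e1 : (∏ j, x j ^ m j) * ∏ i, w i ^ (u₀ + ∑ l, y l • b l) i =
        (∏ j, x j ^ m' j) * ∏ i, w i ^ u₀ i := by
      have e2 : (∏ j, x j ^ (∑ l, y l • a l) j) * ∏ i, w i ^ (∑ l, y l • b l) i = 1 := by
        rw [abdim_lin x hx, abdim_lin w hw, ← Finset.prod_mul_distrib]
        refine Finset.prod_eq_one fun l _ => ?_
        rw [← mul_zpow, hrel, one_zpow]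
      rw [hmm, abdim_add x hx, abdim_add w hw]
      calc (∏ j, x j ^ m' j) * (∏ j, x j ^ (∑ l, y l • a l) j) *
            ((∏ i, w i ^ u₀ i) * ∏ i, w i ^ (∑ l, y l • b l) i)
          = (∏ j, x j ^ m' j) * (∏ i, w i ^ u₀ i) *
            ((∏ j, x j ^ (∑ l, y l • a l) j) * ∏ i, w i ^ (∑ l, y l • b l) i) := by ring
        _ = _ := by rw [e2, mul_one]
    have e3 : ∀ j, (m j : ℚ) + tx θ (u₀ + ∑ l, y l • b l) j = (m' j : ℚ) + tx θ u₀ j := by
      intro j
      have h1 : tx θ (u₀ + ∑ l, y l • b l) j = tx θ u₀ j + ∑ l, (y l : ℚ) * tx θ (b l) j := by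
        simp only [tx, Pi.add_apply, Finset.sum_apply, Pi.smul_apply, smul_eq_mul]
        push_cast
        simp only [add_mul, Finset.sum_add_distrib, Finset.sum_mul, Finset.mul_sum]
        rw [Finset.sum_comm]
        congr 1
        refine Finset.sum_congr rfl fun l _ => Finset.sum_congr rfl fun i _ => ?_
        ring
      have h2 : (m j : ℚ) = m' j + ∑ l, (y l : ℚ) * a l j := by
        have := congrFun hmm j
        simp only [Pi.add_apply, Finset.sum_apply, Pi.smul_apply, smul_eq_mul] at this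
        rw [this]
        push_cast
        ring
      rw [h1, h2]
      simp only [hθ]
      simp only [mul_neg, Finset.sum_neg_distrib]
      ring
    simp only [e3] at hm
    rw [SetLike.mem_coe, e1]
    have e4 : (∏ j, x j ^ m' j) * ∏ i, w i ^ u₀ i =
        ((∏ j, x j ^ m₀ u₀ j) * ∏ i, w i ^ u₀ i) * ∏ j, x j ^ (m' - m₀ u₀) j := by
      have e5 : m' = m₀ u₀ + (m' - m₀ u₀) := by abel
      conv_lhs => rw [e5, abdim_add x hx]
      ring
    rw [e4]
    refine (Finset.le_sup (f := s) hu₀) ?_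
    rw [hs]
    refine Submodule.mem_map.mpr ⟨∏ j, x j ^ (m' - m₀ u₀) j, Bm_mon _ ?_, rfl⟩
    have h6 : ((nm (m' - m₀ u₀) : ℕ) : ℚ) ≤ K + 3 / 2 := by
      unfold nm
      push_cast
      have h7 : ∀ j, ((((m' - m₀ u₀) j).natAbs : ℕ) : ℚ) ≤
          |(m' j : ℚ) + tx θ u₀ j| + 1 / 2 := by
        intro j
        rw [Nat.cast_natAbs, Int.cast_abs]
        have h8 := hm₀ u₀ j
        have e : (((m' - m₀ u₀) j : ℤ) : ℚ) =
            ((m' j : ℚ) + tx θ u₀ j) - ((m₀ u₀ j : ℚ) + tx θ u₀ j) := by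
          rw [Pi.sub_apply]
          push_cast
          ring
        rw [e]
        exact (abs_sub _ _).trans (by linarith)
      refine (Finset.sum_le_sum fun j _ => h7 j).trans ?_
      rw [Finset.sum_add_distrib]
      simp only [Finset.sum_const, Finset.card_univ, Fintype.card_fin, nsmul_eq_mul]
      push_cast
      linarith
    have h9 : ((nm (m' - m₀ u₀) : ℕ) : ℚ) < ((K + 2 : ℕ) : ℚ) := by
      push_cast
      linarith
    exact (Nat.cast_lt.mp h9).le
  haveI := hsup.1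
  refine ⟨Submodule.finiteDimensional_of_le hle, ?_⟩
  have h1 : Module.finrank L (BAg L x w θ K) ≤ (Matrix.of b).det.natAbs * d :=
    (Submodule.finrank_mono hle).trans (hsup.2.trans (Nat.mul_le_mul_right _ hRc))
  have h2 : ((Module.finrank L (BAg L x w θ K) : ℕ) : ℝ) ≤
      (((Matrix.of b).det.natAbs * d : ℕ) : ℝ) := by exact_mod_cast h1
  refine h2.trans (le_of_eq ?_)
  rw [hd]
  push_cast
  ring

end BMG
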