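import Pool.Agent.Lib.MP_a325a5_ag.G.Lift

/-! Proposition 4.2, evaluation.  π of the generator is ∏ c^m ∏ z^u (plc_mon, plc_unit).  F is finite over L and generated by the c_j and z_i as a field, so
as an algebra, so it is spanned over L by finitely many monomials in them; each is the value of a generator of some size. -/

open NumberField

namespace BMG

private theorem abev_mul {L Ω : Type} [Field L] [Field Ω] [Algebra L Ω] {x : Fin 3 → Ω}
    (hx : ∀ j, x j ≠ 0) {n : ℕ} (w : Fin n → Ω) (hw : ∀ i, w i ≠ 0) (θ : Fin n → Fin 3 → ℚ)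
    {K K' : ℕ} {g g' : Ω} (hg : g ∈ BAg L x w θ K) (hg' : g' ∈ BAg L x w θ K') :
    g * g' ∈ BAg L x w θ (K + K') := by
  have h := Submodule.mul_mem_mul hg hg'
  rw [BAg, BAg, Submodule.span_mul_span] at h
  refine Submodule.span_mono ?_ h
  rintro _ ⟨_, ⟨m, u, hm, rfl⟩, _, ⟨m', u', hm', rfl⟩, rfl⟩
  refine ⟨m + m', u + u', ?_, ?_⟩
  · have h1 : ∀ j, |((m + m') j : ℚ) + BMF.tx θ (u + u') j| ≤
        |(m j : ℚ) + BMF.tx θ u j| + |(m' j : ℚ) + BMF.tx θ u' j| := by
      intro j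
      have e : ((m + m') j : ℚ) + BMF.tx θ (u + u') j =
          ((m j : ℚ) + BMF.tx θ u j) + ((m' j : ℚ) + BMF.tx θ u' j) := by
        simp only [BMF.tx, Pi.add_apply]
        push_cast
        simp only [add_mul, Finset.sum_add_distrib]
        ring
      rw [e]
      exact abs_add_le _ _
    refine (Finset.sum_le_sum fun j _ => h1 j).trans ?_
    rw [Finset.sum_add_distrib]
    push_cast
    exact add_le_add hm hm'
  · show (∏ j, x j ^ m j) * (∏ i, w i ^ u i) * ((∏ j, x j ^ m' j) * ∏ i, w i ^ u' i) = _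
    have e1 : ∏ j, x j ^ (m + m') j = (∏ j, x j ^ m j) * ∏ j, x j ^ m' j := by
      rw [← Finset.prod_mul_distrib]
      exact Finset.prod_congr rfl fun j _ => by rw [Pi.add_apply, zpow_add₀ (hx j)]
    have e2 : ∏ i, w i ^ (u + u') i = (∏ i, w i ^ u i) * ∏ i, w i ^ u' i := by
      rw [← Finset.prod_mul_distrib]
      exact Finset.prod_congr rfl fun j _ => by rw [Pi.add_apply, zpow_add₀ (hw j)]
    rw [e1, e2]
    ring

private theorem abev_mono {L Ω : Type} [Field L] [Field Ω] [Algebra L Ω] {x : Fin 3 → Ω}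
    {n : ℕ} (w : Fin n → Ω) (θ : Fin n → Fin 3 → ℚ) {K K' : ℕ} (h : K ≤ K') :
    BAg L x w θ K ≤ BAg L x w θ K' := by
  refine Submodule.span_mono ?_
  rintro _ ⟨m, u, hm, rfl⟩
  exact ⟨m, u, hm.trans (by exact_mod_cast h), rfl⟩

theorem BAg_ev {L Ω E F : Type} [Field L] [Field Ω] [Field E] [Field F] [Algebra L Ω]
    [Algebra L E] [Algebra L F] [Algebra F E] [IsScalarTower L F E] [FiniteDimensional L F]
    {x : Fin 3 → Ω} {c : Fin 3 → F} {n : ℕ} (z : Fin (n + 1) → F) (hc : ∀ j, c j ≠ 0)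
    (hz0 : z 0 = 1) (hz : ∀ i, z i ≠ 0) (R : Subalgebra L Ω) (π : R →ₐ[L] E)
    (h : IsPlc L x (fun j => algebraMap F E (c j)) R π)
    (w : Fin n → Ω) (hw : ∀ i, ∃ hR : w i ∈ R, π ⟨w i, hR⟩ = algebraMap F E (z i.succ))
    (θ : Fin n → Fin 3 → ℚ)
    (hgen : IntermediateField.adjoin L (Set.range c ∪ Set.range z) = ⊤) :
    (∀ K, ∀ g ∈ BAg L x w θ K, g ∈ R) ∧ ∃ K₀ : ℕ, ∀ K ≥ K₀, ∀ y : F,
      ∃ g, ∃ hR : g ∈ R, g ∈ BAg L x w θ K ∧ π ⟨g, hR⟩ = algebraMap F E y := by
  classical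
  have hx0 : ∀ j, x j ≠ 0 := by
    intro j h0
    obtain ⟨h1, h2⟩ := h.mem j
    have h3 : π ⟨x j, h1⟩ = 0 := by
      have e : (⟨x j, h1⟩ : R) = 0 := Subtype.ext h0
      rw [e, map_zero]
    rw [h3] at h2
    exact hc j ((map_eq_zero (algebraMap F E)).mp h2.symm)
  have hzE : ∀ i : Fin n, algebraMap F E (z i.succ) ≠ 0 := fun i h0 =>
    hz i.succ ((map_eq_zero (algebraMap F E)).mp h0)
  have hw0 : ∀ i, w i ≠ 0 := by
    intro i h0
    obtain ⟨h1, h2⟩ := hw i
    have h3 : π ⟨w i, h1⟩ = 0 := by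
      have e : (⟨w i, h1⟩ : R) = 0 := Subtype.ext h0
      rw [e, map_zero]
    rw [h3] at h2
    exact hzE i h2.symm
  have hcE : ∀ j, (fun j => algebraMap F E (c j)) j ≠ 0 := fun j h0 =>
    hc j ((map_eq_zero (algebraMap F E)).mp h0)
  have hmem : ∀ (m : Fin 3 → ℤ) (u : Fin n → ℤ), (∏ j, x j ^ m j) * ∏ i, w i ^ u i ∈ R := by
    intro m u
    obtain ⟨h1, -⟩ := plc_mon h hcE m
    refine R.mul_mem h1 (prod_mem fun i _ => ?_)
    obtain ⟨h2, h3⟩ := hw i
    obtain ⟨h4, -⟩ := plc_unit h (w i) h2 (by rw [h3]; exact hzE i) (u i)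
    exact h4
  have hle : ∀ K, BAg L x w θ K ≤ Subalgebra.toSubmodule R := by
    intro K
    refine Submodule.span_le.mpr ?_
    rintro _ ⟨m, u, _, rfl⟩
    exact hmem m u
  refine ⟨fun K g hg => hle K hg, ?_⟩
  obtain ⟨S, hS⟩ : ∃ S : ℕ → Submodule L F, ∀ K y, y ∈ S K ↔
      ∃ g, ∃ hR : g ∈ R, g ∈ BAg L x w θ K ∧ π ⟨g, hR⟩ = algebraMap F E y := by
    refine ⟨fun K =>
      { carrier := {y | ∃ g, ∃ hR : g ∈ R, g ∈ BAg L x w θ K ∧
          π ⟨g, hR⟩ = algebraMap F E y}
        add_mem' := ?_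
        zero_mem' := ?_
        smul_mem' := ?_ }, fun K y => Iff.rfl⟩
    · rintro y y' ⟨g, hR, hg, e⟩ ⟨g', hR', hg', e'⟩
      refine ⟨g + g', R.add_mem hR hR', Submodule.add_mem _ hg hg', ?_⟩
      have e2 : (⟨g + g', R.add_mem hR hR'⟩ : R) = ⟨g, hR⟩ + ⟨g', hR'⟩ := rfl
      rw [e2, map_add, e, e', map_add]
    · refine ⟨0, R.zero_mem, Submodule.zero_mem _, ?_⟩
      have e2 : (⟨0, R.zero_mem⟩ : R) = 0 := rfl
      rw [e2, map_zero, map_zero]
    · rintro a y ⟨g, hR, hg, e⟩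
      refine ⟨a • g, R.smul_mem hR a, Submodule.smul_mem _ _ hg, ?_⟩
      have e2 : (⟨a • g, R.smul_mem hR a⟩ : R) = a • ⟨g, hR⟩ := rfl
      rw [e2, map_smul, e, Algebra.smul_def, Algebra.smul_def, map_mul,
        ← IsScalarTower.algebraMap_apply]
  have hSm : ∀ K K', K ≤ K' → S K ≤ S K' := by
    intro K K' hK y hy
    obtain ⟨g, hR, hg, e⟩ := (hS K y).mp hy
    exact (hS K' y).mpr ⟨g, hR, abev_mono w θ hK hg, e⟩
  have hSmul : ∀ K K' y y', y ∈ S K → y' ∈ S K' → y * y' ∈ S (K + K') := by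
    intro K K' y y' hy hy'
    obtain ⟨g, hR, hg, e⟩ := (hS K y).mp hy
    obtain ⟨g', hR', hg', e'⟩ := (hS K' y').mp hy'
    refine (hS _ _).mpr ⟨g * g', R.mul_mem hR hR', abev_mul hx0 w hw0 θ hg hg', ?_⟩
    have e2 : (⟨g * g', R.mul_mem hR hR'⟩ : R) = ⟨g, hR⟩ * ⟨g', hR'⟩ := rfl
    rw [e2, map_mul, e, e', map_mul]
  have hone : (1 : F) ∈ S 0 := by
    refine (hS _ _).mpr ⟨1, R.one_mem, Submodule.subset_span ⟨0, 0, ?_, ?_⟩, ?_⟩
    · simp [BMF.tx]
    · simp
    · have e2 : (⟨1, R.one_mem⟩ : R) = 1 := rfl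
      rw [e2, map_one, map_one]
  have hall : ∀ y : F, ∃ K, y ∈ S K := by
    have hadj : Algebra.adjoin L (Set.range c ∪ Set.range z) = ⊤ := by
      have h1 := IntermediateField.adjoin_toSubalgebra_of_isAlgebraic (F := L) (E := F)
        (S := Set.range c ∪ Set.range z) (fun x _ => Algebra.IsAlgebraic.isAlgebraic x)
      rw [← h1, hgen]
      rfl
    intro y
    have hy : y ∈ Algebra.adjoin L (Set.range c ∪ Set.range z) := by
      rw [hadj]
      exact Algebra.mem_top
    induction hy using Algebra.adjoin_induction with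
    | mem y hy =>
      rcases hy with ⟨j, rfl⟩ | ⟨i, rfl⟩
      · obtain ⟨h1, h2⟩ := h.mem j
        refine ⟨1, (hS _ _).mpr ⟨x j, h1, Submodule.subset_span
          ⟨Pi.single j 1, 0, ?_, ?_⟩, h2⟩⟩
        · have e : ∀ j', |((Pi.single j 1 : Fin 3 → ℤ) j' : ℚ) +
              BMF.tx θ (0 : Fin n → ℤ) j'| = if j' = j then 1 else 0 := by
            intro j'
            by_cases hj : j' = j
            · subst hj
              simp [BMF.tx]
            · rw [Pi.single_eq_of_ne hj, if_neg hj]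
              simp [BMF.tx]
          simp only [e]
          simp
        · rw [Finset.prod_eq_single j]
          · simp
          · intro j' _ hj
            rw [Pi.single_eq_of_ne hj, zpow_zero]
          · intro hj
            exact absurd (Finset.mem_univ _) hj
      · refine Fin.cases ?_ (fun i => ?_) i
        · rw [hz0]
          exact ⟨0, hone⟩
        · obtain ⟨h1, h2⟩ := hw i
          refine ⟨⌈∑ j, |θ i j|⌉₊, (hS _ _).mpr ⟨w i, h1, Submodule.subset_span
            ⟨0, Pi.single i 1, ?_, ?_⟩, h2⟩⟩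
          · have e : ∀ j, |((0 : Fin 3 → ℤ) j : ℚ) +
                BMF.tx θ (Pi.single i 1 : Fin n → ℤ) j| = |θ i j| := by
              intro j
              have e2 : BMF.tx θ (Pi.single i 1 : Fin n → ℤ) j = θ i j := by
                unfold BMF.tx
                rw [Finset.sum_eq_single i]
                · simp
                · intro i' _ hi
                  rw [Pi.single_eq_of_ne hi]
                  simp
                · intro hi
                  exact absurd (Finset.mem_univ _) hi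
              rw [e2]
              simp
            simp only [e]
            exact Nat.le_ceil _
          · rw [Finset.prod_eq_single i (f := fun i' => w i' ^ (Pi.single i 1 : Fin n → ℤ) i')]
            · simp
            · intro i' _ hi
              rw [Pi.single_eq_of_ne hi, zpow_zero]
            · intro hi
              exact absurd (Finset.mem_univ _) hi
    | algebraMap r =>
      refine ⟨0, ?_⟩
      rw [Algebra.algebraMap_eq_smul_one]
      exact Submodule.smul_mem _ _ hone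
    | add y y' _ _ hy hy' =>
      obtain ⟨K, hK⟩ := hy
      obtain ⟨K', hK'⟩ := hy'
      exact ⟨max K K', Submodule.add_mem _ (hSm _ _ (le_max_left _ _) hK)
        (hSm _ _ (le_max_right _ _) hK')⟩
    | mul y y' _ _ hy hy' =>
      obtain ⟨K, hK⟩ := hy
      obtain ⟨K', hK'⟩ := hy'
      exact ⟨K + K', hSmul _ _ _ _ hK hK'⟩
  obtain ⟨K₀, hK₀⟩ := monotone_stabilizes_iff_noetherian.mpr
    (inferInstance : IsNoetherian L F) ⟨S, fun _ _ hK => hSm _ _ hK⟩
  refine ⟨K₀, fun K hK y => ?_⟩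
  obtain ⟨K', hK'⟩ := hall y
  have h1 : y ∈ S (max K' K₀) := hSm _ _ (le_max_left _ _) hK'
  have h4 : S K₀ = S (max K' K₀) := hK₀ (max K' K₀) (le_max_right _ _)
  rw [← h4] at h1
  exact (hS K y).mp (hSm _ _ hK h1)

end BMG
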