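import Pool.Agent.Lib.MP_a325a5_ag.G.BmB

/-! Proposition 4.2, multiplication.  On generators: x_0^l ∏ x^m ∏ w^u has m replaced by m + l e_0: the size grows by at most l; w_i shifts u by the unit
vector e_i and tx θ u by θ_i.  Then linearity. -/

open NumberField BMF

namespace BMG

variable {L Ω : Type} [Field L] [Field Ω] [Algebra L Ω] {x : Fin 3 → Ω}

private theorem abmul_single {ι : Type} [Fintype ι] [DecidableEq ι] (y : ι → Ω) (i : ι) (c : ℤ) :
    ∏ j, y j ^ (Pi.single i c : ι → ℤ) j = y i ^ c := by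
  rw [Finset.prod_eq_single i]
  · rw [Pi.single_eq_same]
  · intro j _ hj
    rw [Pi.single_eq_of_ne hj, zpow_zero]
  · intro h
    exact absurd (Finset.mem_univ i) h

private theorem abmul_add {ι : Type} [Fintype ι] (y : ι → Ω) (hy : ∀ i, y i ≠ 0)
    (u v : ι → ℤ) : ∏ j, y j ^ (u + v) j = (∏ j, y j ^ u j) * ∏ j, y j ^ v j := by
  rw [← Finset.prod_mul_distrib]
  exact Finset.prod_congr rfl fun j _ => by rw [Pi.add_apply, zpow_add₀ (hy j)]

private theorem abmul_sz (v : Fin 3 → ℚ) (m : Fin 3 → ℤ) (l : ℕ) :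
    ∑ j, |((m + Pi.single 0 (l : ℤ) : Fin 3 → ℤ) j : ℚ) + v j| ≤
      ∑ j, |(m j : ℚ) + v j| + l := by
  have h : ∀ j, |((m + Pi.single 0 (l : ℤ) : Fin 3 → ℤ) j : ℚ) + v j| ≤
      |(m j : ℚ) + v j| + |((Pi.single 0 (l : ℤ) : Fin 3 → ℤ) j : ℚ)| := by
    intro j
    have e : ((m + Pi.single 0 (l : ℤ) : Fin 3 → ℤ) j : ℚ) + v j =
        ((m j : ℚ) + v j) + ((Pi.single 0 (l : ℤ) : Fin 3 → ℤ) j : ℚ) := by
      rw [Pi.add_apply]
      push_cast
      ring
    rw [e]
    exact abs_add_le _ _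
  refine (Finset.sum_le_sum fun j _ => h j).trans ?_
  rw [Finset.sum_add_distrib]
  have h2 : ∑ j, |((Pi.single 0 (l : ℤ) : Fin 3 → ℤ) j : ℚ)| = l := by
    simp [Fin.sum_univ_three]
  rw [h2]

private theorem abmul_tx {n : ℕ} (θ : Fin n → Fin 3 → ℚ) (u : Fin n → ℤ) (i : Fin n)
    (k : Fin 3) : tx θ (u + Pi.single i 1) k = tx θ u k + θ i k := by
  simp only [tx]
  have h2 : ∀ i', (((u + Pi.single i 1 : Fin n → ℤ) i' : ℤ) : ℚ) * θ i' k =
      (u i' : ℚ) * θ i' k + (if i' = i then θ i k else 0) := by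
    intro i'
    by_cases hij : i' = i
    · subst hij
      simp only [Pi.add_apply, Pi.single_eq_same, if_true]
      push_cast
      ring
    · simp only [Pi.add_apply, Pi.single_eq_of_ne hij, if_neg hij, add_zero]
  simp only [h2]
  rw [Finset.sum_add_distrib, Finset.sum_ite_eq' Finset.univ i, if_pos (Finset.mem_univ i)]

theorem BAg_mul0 (hx : ∀ j, x j ≠ 0) {n : ℕ} (w : Fin n → Ω) (θ : Fin n → Fin 3 → ℚ)
    (f : Polynomial L) (C : ℕ) (hC : f.natDegree ≤ C) (K : ℕ) (g : Ω)
    (hg : g ∈ BAg L x w θ K) : Polynomial.aeval (x 0) f * g ∈ BAg L x w θ (K + C) := by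
  unfold BAg at hg
  induction hg using Submodule.span_induction with
  | mem g hg =>
    obtain ⟨m, u, hm, rfl⟩ := hg
    rw [Polynomial.aeval_eq_sum_range, Finset.sum_mul]
    refine Submodule.sum_mem _ fun l hl => ?_
    rw [smul_mul_assoc]
    refine Submodule.smul_mem _ _ (Submodule.subset_span ⟨m + Pi.single 0 (l : ℤ), u, ?_, ?_⟩)
    · have hl' : (l : ℚ) ≤ C := by
        have : l ≤ C := by
          rw [Finset.mem_range] at hl
          omega
        exact_mod_cast this
      have := abmul_sz (fun j => tx θ u j) m l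
      push_cast
      push_cast at this
      linarith
    · rw [abmul_add x hx, abmul_single x, zpow_natCast]
      ring
  | zero => rw [mul_zero]; exact Submodule.zero_mem _
  | add a b _ _ ha hb => rw [mul_add]; exact Submodule.add_mem _ ha hb
  | smul c a _ ha => rw [mul_smul_comm]; exact Submodule.smul_mem _ _ ha

theorem BAg_mul1 (hx : ∀ j, x j ≠ 0) {n : ℕ} (w : Fin n → Ω) (hw : ∀ i, w i ≠ 0)
    (θ : Fin n → Fin 3 → ℚ) (i : Fin n) (f : Polynomial L) (C : ℕ)
    (hC : (f.natDegree : ℚ) + ∑ j, |θ i j| ≤ C) (K : ℕ) (g : Ω)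
    (hg : g ∈ BAg L x w θ K) :
    Polynomial.aeval (x 0) f * w i * g ∈ BAg L x w θ (K + C) := by
  unfold BAg at hg
  induction hg using Submodule.span_induction with
  | mem g hg =>
    obtain ⟨m, u, hm, rfl⟩ := hg
    rw [Polynomial.aeval_eq_sum_range, mul_assoc, Finset.sum_mul]
    refine Submodule.sum_mem _ fun l hl => ?_
    rw [smul_mul_assoc]
    refine Submodule.smul_mem _ _ (Submodule.subset_span
      ⟨m + Pi.single 0 (l : ℤ), u + Pi.single i 1, ?_, ?_⟩)
    · have hl' : (l : ℚ) ≤ f.natDegree := by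
        have : l ≤ f.natDegree := by
          rw [Finset.mem_range] at hl
          omega
        exact_mod_cast this
      have h1 := abmul_sz (fun j => tx θ (u + Pi.single i 1) j) m l
      have h2 : ∑ j, |(m j : ℚ) + tx θ (u + Pi.single i 1) j| ≤
          ∑ j, |(m j : ℚ) + tx θ u j| + ∑ j, |θ i j| := by
        rw [← Finset.sum_add_distrib]
        refine Finset.sum_le_sum fun j _ => ?_
        rw [abmul_tx, ← add_assoc]
        exact abs_add_le _ _
      push_cast
      push_cast at h1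
      linarith
    · rw [abmul_add x hx, abmul_single x, zpow_natCast, abmul_add w hw, abmul_single w, zpow_one]
      ring
  | zero => rw [mul_zero]; exact Submodule.zero_mem _
  | add a b _ _ ha hb => rw [mul_add]; exact Submodule.add_mem _ ha hb
  | smul c a _ ha => rw [mul_smul_comm]; exact Submodule.smul_mem _ _ ha

end BMG
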