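import Pool.Agent.Lib.MP_a325a5_ag.G.GDef
import Pool.Agent.Lib.MP_a325a5_ag.S.BbEv

/-! Proposition 4.4, evaluation: as BB_ev in S/BbEv.lean, with the field k = KF L c generated by the c_j instead of L(t). -/

open NumberField BMF Pointwise

namespace BMG

section
variable {k F : Type} [Field k] [Field F] [Algebra k F] {n : ℕ}

/-- the span of the constant terms -/
private noncomputable def bbV (k : Type) [Field k] [Algebra k F] (z : Fin (n + 1) → F) (w : Fin n → ℤ)
    (K : ℕ) : Submodule k F :=
  Submodule.span k {x | ∃ u : Fin n → ℤ, |∑ i, w i * u i| ≤ K ∧ x = ∏ i : Fin n, z i.succ ^ u i}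

private theorem bbV_mono (z : Fin (n + 1) → F) (w : Fin n → ℤ) {K K' : ℕ} (h : K ≤ K') :
    bbV k z w K ≤ bbV k z w K' := by
  apply Submodule.span_mono
  rintro x ⟨u, hu, rfl⟩
  exact ⟨u, hu.trans (by exact_mod_cast h), rfl⟩

private theorem bbV_mul (z : Fin (n + 1) → F) (w : Fin n → ℤ) {K K' : ℕ} {x y : F}
    (hx : x ∈ bbV k z w K) (hy : y ∈ bbV k z w K') : x * y ∈ bbV k z w (K + K') := by
  classical
  have h := Submodule.mul_mem_mul hx hy
  rw [bbV, bbV, Submodule.span_mul_span] at h
  have hle : Submodule.span k ({x | ∃ u : Fin n → ℤ, |∑ i, w i * u i| ≤ K ∧ x = ∏ i : Fin n, z i.succ ^ u i} *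
      {x | ∃ u : Fin n → ℤ, |∑ i, w i * u i| ≤ K' ∧ x = ∏ i : Fin n, z i.succ ^ u i}) ≤
      bbV k z w (K + K') := by
    apply Submodule.span_le.mpr
    rintro _ ⟨_, ⟨u, hu, rfl⟩, _, ⟨v, hv, rfl⟩, rfl⟩
    show (∏ i : Fin n, z i.succ ^ u i) * (∏ i : Fin n, z i.succ ^ v i) ∈ bbV k z w (K + K')
    by_cases hz : ∀ i, z i.succ ^ u i * z i.succ ^ v i = z i.succ ^ (u i + v i)
    · rw [← Finset.prod_mul_distrib]
      apply Submodule.subset_span
      refine ⟨fun i => u i + v i, ?_, Finset.prod_congr rfl fun i _ => hz i⟩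
      have e : ∑ i, w i * (u i + v i) = ∑ i, w i * u i + ∑ i, w i * v i := by
        rw [← Finset.sum_add_distrib]
        exact Finset.sum_congr rfl fun i _ => by ring
      rw [e]
      push_cast
      exact (abs_add_le _ _).trans (add_le_add hu hv)
    · push Not at hz
      obtain ⟨i, hi⟩ := hz
      have hz0 : z i.succ = 0 := by
        by_contra hne
        exact hi (zpow_add₀ hne _ _).symm
      have h0 : z i.succ ^ u i * z i.succ ^ v i = 0 := by
        by_contra hne
        apply hi
        rw [hz0] at hne ⊢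
        have h1 : u i = 0 := by
          by_contra hu0
          rw [zero_zpow _ hu0, zero_mul] at hne
          exact hne rfl
        have h2 : v i = 0 := by
          by_contra hv0
          rw [zero_zpow _ hv0, mul_zero] at hne
          exact hne rfl
        rw [h1, h2]
        simp
      have h3 : (∏ i : Fin n, z i.succ ^ u i) * (∏ i : Fin n, z i.succ ^ v i) = 0 := by
        rw [← Finset.prod_mul_distrib]
        exact Finset.prod_eq_zero (Finset.mem_univ i) h0
      rw [h3]
      exact Submodule.zero_mem _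
  exact hle h

private theorem bbV_one (z : Fin (n + 1) → F) (w : Fin n → ℤ) (K : ℕ) : (1 : F) ∈ bbV k z w K := by
  apply Submodule.subset_span
  exact ⟨0, by simp, by simp⟩

private theorem bbV_BB [CharZero F] (z : Fin (n + 1) → F) (w : Fin n → ℤ) {K : ℕ} {x : F}
    (hx : x ∈ bbV k z w K) : ∃ g ∈ BB k z w K, PowerSeries.constantCoeff g = x := by
  induction hx using Submodule.span_induction with
  | mem x hx =>
    obtain ⟨u, hu, rfl⟩ := hx
    refine ⟨_, Submodule.subset_span ⟨u, hu, rfl⟩, ?_⟩
    rw [map_mul, bs_const, mul_one, PowerSeries.constantCoeff_C]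
  | zero => exact ⟨0, Submodule.zero_mem _, map_zero _⟩
  | add x y _ _ hx hy =>
    obtain ⟨g, hg, rfl⟩ := hx
    obtain ⟨g', hg', rfl⟩ := hy
    exact ⟨g + g', Submodule.add_mem _ hg hg', map_add _ _ _⟩
  | smul c x _ hx =>
    obtain ⟨g, hg, rfl⟩ := hx
    refine ⟨c • g, Submodule.smul_mem _ _ hg, ?_⟩
    rw [← PowerSeries.coeff_zero_eq_constantCoeff_apply, ← PowerSeries.coeff_zero_eq_constantCoeff_apply]
    rfl

end

theorem BB_evG {L F : Type} [Field L] [Field F] [CharZero F] [Algebra L F]
    [FiniteDimensional L F] {n : ℕ} (c : Fin 3 → F) (z : Fin (n + 1) → F) (hz0 : z 0 = 1)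
    (w : Fin n → ℤ) (hgen : IntermediateField.adjoin L (Set.range c ∪ Set.range z) = ⊤) :
    ∃ K₀ : ℕ, ∀ K ≥ K₀, ∀ y : F, ∃ g ∈ BB (KF L c) z w K,
      PowerSeries.constantCoeff g = y := by
  classical
  have hadj : Algebra.adjoin L (Set.range c ∪ Set.range z) = ⊤ := by
    have h1 := IntermediateField.adjoin_toSubalgebra_of_isAlgebraic (F := L) (E := F)
      (S := Set.range c ∪ Set.range z) (fun x _ => Algebra.IsAlgebraic.isAlgebraic x)
    rw [← h1, hgen]
    rfl
  have hall : ∀ x : F, ∃ K, x ∈ bbV (KF L c) z w K := by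
    intro x
    have hx : x ∈ Algebra.adjoin L (Set.range c ∪ Set.range z) := by
      rw [hadj]
      exact Algebra.mem_top
    induction hx using Algebra.adjoin_induction with
    | mem x hx =>
      rcases hx with hx | ⟨i, rfl⟩
      · refine ⟨0, ?_⟩
        have h1 := Submodule.smul_mem (bbV (KF L c) z w 0)
          (⟨x, IntermediateField.subset_adjoin L _ hx⟩ : KF L c)
          (bbV_one z w 0)
        have e : (⟨x, IntermediateField.subset_adjoin L _ hx⟩ : KF L c) • (1 : F) = x := by
          rw [Algebra.smul_def, mul_one]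
          rfl
        rw [e] at h1
        exact h1
      · refine Fin.cases ?_ (fun j => ?_) i
        · rw [hz0]
          exact ⟨0, bbV_one z w 0⟩
        · refine ⟨(w j).natAbs, Submodule.subset_span ⟨Pi.single j 1, ?_, ?_⟩⟩
          · rw [Finset.sum_eq_single j]
            · rw [Pi.single_eq_same, mul_one, Int.abs_eq_natAbs]
            · intro i _ hi
              rw [Pi.single_eq_of_ne hi, mul_zero]
            · intro h
              exact absurd (Finset.mem_univ _) h
          · rw [Finset.prod_eq_single j]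
            · rw [Pi.single_eq_same, zpow_one]
            · intro i _ hi
              rw [Pi.single_eq_of_ne hi, zpow_zero]
            · intro h
              exact absurd (Finset.mem_univ _) h
    | algebraMap r =>
      refine ⟨0, ?_⟩
      have h1 := Submodule.smul_mem (bbV (KF L c) z w 0)
        (algebraMap L (KF L c) r) (bbV_one z w 0)
      rw [Algebra.smul_def, mul_one, ← IsScalarTower.algebraMap_apply] at h1
      exact h1
    | add x y _ _ hx hy =>
      obtain ⟨K, hK⟩ := hx
      obtain ⟨K', hK'⟩ := hy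
      exact ⟨max K K', Submodule.add_mem _ (bbV_mono z w (le_max_left _ _) hK)
        (bbV_mono z w (le_max_right _ _) hK')⟩
    | mul x y _ _ hx hy =>
      obtain ⟨K, hK⟩ := hx
      obtain ⟨K', hK'⟩ := hy
      exact ⟨K + K', bbV_mul z w hK hK'⟩
  obtain ⟨K₀, hK₀⟩ := monotone_stabilizes_iff_noetherian.mpr
    (inferInstance : IsNoetherian (KF L c) F)
    ⟨fun K => bbV (KF L c) z w K, fun _ _ h => bbV_mono z w h⟩
  refine ⟨K₀, fun K hK x => ?_⟩
  obtain ⟨K', hK'⟩ := hall x
  have h1 : x ∈ bbV (KF L c) z w (max K' K₀) :=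
    bbV_mono z w (le_max_left _ _) hK'
  have h2 := hK₀ (max K' K₀) (le_max_right _ _)
  have h3 : x ∈ bbV (KF L c) z w K₀ := by
    have h4 : bbV (KF L c) z w K₀ =
        bbV (KF L c) z w (max K' K₀) := h2
    rw [h4]
    exact h1
  exact bbV_BB z w (bbV_mono z w hK h3)

end BMG
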