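import Pool.Agent.Lib.MP_a325a5_ag.G.GDef
import Pool.Agent.Lib.MP_a325a5_ag.S.BbMul

/-! Proposition 4.4: the function is not 0.  As fbB_ne in S/BbMul.lean (bs_indep: group the indices by the value of w, at least two groups since w ≠ 0 and the
weight of the index 0 is 0, PtG.sub). -/

open NumberField BMF

namespace BMG

theorem fbB_neG {L Ω F : Type} [Field L] [Field Ω] [Field F] [CharZero F] [Algebra L Ω]
    [Algebra L F] {x : Fin 3 → Ω} {n : ℕ} (f : Fin (n + 1) → Polynomial L) (c : Fin 3 → F)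
    (z : Fin (n + 1) → F) (h : PtG L x f c z) (w : Fin n → ℤ) (hw : w ≠ 0) :
    fbB f (c 0) z w ≠ 0 := by
  intro h0
  have h1 := bs_indep (fun i => Polynomial.aeval (c 0) (f i) * z i)
    (Fin.cons 0 w : Fin (n + 1) → ℤ) h0 0
  refine h.sub _ ⟨0, by simp⟩ ?_ h1
  obtain ⟨j, hj⟩ := Function.ne_iff.mp hw
  intro h2
  have h3 : j.succ ∈ Finset.univ.filter (fun i => (Fin.cons 0 w : Fin (n + 1) → ℤ) i =
      (Fin.cons 0 w : Fin (n + 1) → ℤ) 0) := by
    rw [h2]; exact Finset.mem_univ _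
  rw [Finset.mem_filter, Fin.cons_succ, Fin.cons_zero] at h3
  exact hj h3.2

end BMG
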