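import Pool.Agent.Lib.MP_a325a5_ag.G.GDef

/-! Elementary facts on the spaces Bm (span of the Laurent monomials of size at most K) and on monomials. -/

open NumberField

namespace BMG

variable {k Ω : Type} [Field k] [CharZero k] [Field Ω] [Algebra k Ω] {x : Fin 3 → Ω}

omit [CharZero k] [Algebra k Ω] [Field k] in
theorem mon_add (hx : ∀ j, x j ≠ 0) (m m' : Fin 3 → ℤ) :
    ∏ j, x j ^ (m + m') j = (∏ j, x j ^ m j) * ∏ j, x j ^ m' j := by
  rw [← Finset.prod_mul_distrib]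
  exact Finset.prod_congr rfl fun j _ => by rw [Pi.add_apply, zpow_add₀ (hx j)]

omit [CharZero k] [Algebra k Ω] [Field k] in
theorem mon_neg (m : Fin 3 → ℤ) : ∏ j, x j ^ (-m) j = (∏ j, x j ^ m j)⁻¹ := by
  rw [← Finset.prod_inv_distrib]
  exact Finset.prod_congr rfl fun j _ => by rw [Pi.neg_apply, zpow_neg]

omit [CharZero k] [Algebra k Ω] [Field k] in
theorem mon_smul (N : ℕ) (m : Fin 3 → ℤ) :
    ∏ j, x j ^ ((N : ℤ) * m j) = (∏ j, x j ^ m j) ^ N := by
  rw [← Finset.prod_pow]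
  refine Finset.prod_congr rfl fun j _ => ?_
  rw [mul_comm, zpow_mul, zpow_natCast]

theorem nm_add_le (m m' : Fin 3 → ℤ) : nm (m + m') ≤ nm m + nm m' := by
  unfold nm
  rw [← Finset.sum_add_distrib]
  exact Finset.sum_le_sum fun j _ => Int.natAbs_add_le _ _

theorem Bm_mon (m : Fin 3 → ℤ) {K : ℕ} (h : nm m ≤ K) : ∏ j, x j ^ m j ∈ Bm k x K :=
  Submodule.subset_span ⟨m, h, rfl⟩

theorem Bm_alg (c : k) (K : ℕ) : algebraMap k Ω c ∈ Bm k x K := by
  have h : (1 : Ω) ∈ Bm k x K := by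
    have := Bm_mon (k := k) (x := x) (0 : Fin 3 → ℤ) (K := K) (by simp [nm])
    simpa using this
  rw [Algebra.algebraMap_eq_smul_one]
  exact Submodule.smul_mem _ _ h

theorem Bm_mono {K K' : ℕ} (h : K ≤ K') : Bm k x K ≤ Bm k x K' := by
  refine Submodule.span_mono ?_
  rintro g ⟨m, hm, rfl⟩
  exact ⟨m, hm.trans h, rfl⟩

theorem Bm_mul (hx : ∀ j, x j ≠ 0) {K K' : ℕ} {p q : Ω} (hp : p ∈ Bm k x K)
    (hq : q ∈ Bm k x K') : p * q ∈ Bm k x (K + K') := by
  have h := Submodule.mul_mem_mul hp hq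
  rw [Bm, Bm, Submodule.span_mul_span] at h
  refine Submodule.span_mono ?_ h
  rintro g ⟨a, ⟨m, hm, rfl⟩, b, ⟨m', hm', rfl⟩, rfl⟩
  exact ⟨m + m', (nm_add_le m m').trans (add_le_add hm hm'), (mon_add hx m m').symm⟩

theorem Bm_pow (hx : ∀ j, x j ≠ 0) {K : ℕ} {p : Ω} (hp : p ∈ Bm k x K) (n : ℕ) :
    p ^ n ∈ Bm k x (n * K) := by
  induction n with
  | zero =>
    rw [pow_zero, Nat.zero_mul]
    simpa using Bm_alg (k := k) (x := x) 1 0
  | succ n ih =>
    rw [pow_succ, Nat.succ_mul]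
    exact Bm_mul hx ih hp

omit [CharZero k] in
theorem BmB_pow_mem (j : Fin 3) (n : ℕ) : x j ^ n ∈ Bm k x n := by
  have h : x j ^ n = ∏ i, x i ^ (Pi.single j (n : ℤ) : Fin 3 → ℤ) i := by
    rw [Finset.prod_eq_single j]
    · rw [Pi.single_eq_same, zpow_natCast]
    · intro i _ hi
      rw [Pi.single_eq_of_ne hi, zpow_zero]
    · intro h
      exact absurd (Finset.mem_univ j) h
  rw [h]
  refine Submodule.subset_span ⟨_, ?_, rfl⟩
  unfold nm
  rw [Finset.sum_eq_single j]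
  · rw [Pi.single_eq_same, Int.natAbs_natCast]
  · intro i _ hi
    rw [Pi.single_eq_of_ne hi]
    rfl
  · intro h
    exact absurd (Finset.mem_univ j) h

theorem Bm_pol (hx : ∀ j, x j ≠ 0) (f : Polynomial k) (j : Fin 3) :
    Polynomial.aeval (x j) f ∈ Bm k x f.natDegree := by
  rw [Polynomial.aeval_eq_sum_range]
  refine Submodule.sum_mem _ fun i hi => ?_
  refine Submodule.smul_mem _ _ ?_
  exact Bm_mono (Nat.lt_succ_iff.mp (Finset.mem_range.mp hi)) (BmB_pow_mem j i)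

theorem Bm_bip (hx : ∀ j, x j ≠ 0) (P : Polynomial (Polynomial k)) (i j : Fin 3) :
    ∃ D : ℕ, Polynomial.aevalAeval (x i) (x j) P ∈ Bm k x D := by
  induction P using Polynomial.induction_on' with
  | add p q hp hq =>
    obtain ⟨D, hD⟩ := hp
    obtain ⟨D', hD'⟩ := hq
    refine ⟨D + D', ?_⟩
    rw [map_add]
    exact Submodule.add_mem _ (Bm_mono (Nat.le_add_right _ _) hD)
      (Bm_mono (Nat.le_add_left _ _) hD')
  | monomial n a =>
    refine ⟨a.natDegree + n, ?_⟩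
    have h : Polynomial.aevalAeval (x i) (x j) (Polynomial.monomial n a) =
        Polynomial.aeval (x i) a * x j ^ n := by
      rw [← Polynomial.C_mul_X_pow_eq_monomial, map_mul, map_pow]
      simp
    rw [h]
    exact Bm_mul hx (Bm_pol hx a i) (BmB_pow_mem j n)

theorem mon_KF (m : Fin 3 → ℤ) : ∏ j, x j ^ m j ∈ KF k x := by
  refine prod_mem fun j _ => zpow_mem ?_ _
  exact IntermediateField.subset_adjoin k _ ⟨j, rfl⟩

theorem Bm_KF {K : ℕ} {p : Ω} (hp : p ∈ Bm k x K) : p ∈ KF k x := by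
  have h : Bm k x K ≤ (KF k x).toSubalgebra.toSubmodule := by
    refine Submodule.span_le.mpr ?_
    rintro g ⟨m, _, rfl⟩
    exact mon_KF m
  exact h hp

theorem exists_frac (hx : ∀ j, x j ≠ 0) {v : Ω} (hv : v ∈ KF k x) :
    ∃ (K : ℕ) (r s : Ω), r ∈ Bm k x K ∧ s ∈ Bm k x K ∧ s ≠ 0 ∧ v * s = r := by
  induction hv using IntermediateField.adjoin_induction with
  | mem y hy =>
    obtain ⟨j, rfl⟩ := hy
    refine ⟨1, x j, 1, ?_, ?_, one_ne_zero, mul_one _⟩
    · simpa using BmB_pow_mem (k := k) (x := x) j 1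
    · simpa using Bm_alg (k := k) (x := x) 1 1
  | algebraMap c =>
    refine ⟨0, algebraMap k Ω c, 1, Bm_alg c 0, ?_, one_ne_zero, mul_one _⟩
    simpa using Bm_alg (k := k) (x := x) 1 0
  | add y z _ _ hy hz =>
    obtain ⟨K, r, s, hr, hs, hs0, h⟩ := hy
    obtain ⟨K', r', s', hr', hs', hs0', h'⟩ := hz
    refine ⟨K + K', r * s' + s * r', s * s', Submodule.add_mem _ (Bm_mul hx hr hs')
      (Bm_mul hx hs hr'), Bm_mul hx hs hs', mul_ne_zero hs0 hs0', ?_⟩
    rw [← h, ← h']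
    ring
  | inv y _ hy =>
    obtain ⟨K, r, s, hr, hs, hs0, h⟩ := hy
    by_cases hy0 : y = 0
    · refine ⟨0, 0, 1, Submodule.zero_mem _, ?_, one_ne_zero, ?_⟩
      · simpa using Bm_alg (k := k) (x := x) 1 0
      · rw [hy0, inv_zero, zero_mul]
    · refine ⟨K, s, r, hs, hr, ?_, ?_⟩
      · rw [← h]
        exact mul_ne_zero hy0 hs0
      · rw [← h]
        field_simp
  | mul y z _ _ hy hz =>
    obtain ⟨K, r, s, hr, hs, hs0, h⟩ := hy
    obtain ⟨K', r', s', hr', hs', hs0', h'⟩ := hz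
    refine ⟨K + K', r * r', s * s', Bm_mul hx hr hr', Bm_mul hx hs hs',
      mul_ne_zero hs0 hs0', ?_⟩
    rw [← h, ← h']
    ring

end BMG
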