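import Pool.Agent.Lib.MP_a325a5_ag.G.Lat3

/-! Lemma 2.4.  By lat3 the θ with qn θ ≤ C which occur are in a finite set ((1/e₀) ℤ^3, bounded).  For each θ which occurs choose z_θ in KF and
write z_θ s = r (exists_frac).  Another z with the same θ is u z_θ with u^m = 1 (DE_div, DE_zero), u in k (root_k): z s = u r.  D = maximum + 1 (Bm_mono). -/

open NumberField

namespace BMG

variable {k Ω : Type} [Field k] [CharZero k] [IsAlgClosed k] [Field Ω] [Algebra k Ω]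
  {x : Fin 3 → Ω}

theorem rep4 (hx : Crv k x) (C : ℕ) : ∃ D : ℕ, 1 ≤ D ∧ ∀ (θ : Fin 3 → ℚ) (z : Ω), DE x θ z →
    z ∈ KF k x → qn θ ≤ C → ∃ p ∈ Bm k x D, ∃ q ∈ Bm k x D, p ≠ 0 ∧ q ≠ 0 ∧ z * p = q := by
  classical
  obtain ⟨e₀, he₀, hlat⟩ := lat3 hx
  have hone : ∀ θ : Fin 3 → ℚ, ∃ D : ℕ, ∀ z : Ω, DE x θ z → z ∈ KF k x →
      ∃ p ∈ Bm k x D, ∃ q ∈ Bm k x D, p ≠ 0 ∧ q ≠ 0 ∧ z * p = q := by
    intro θ
    by_cases hex : ∃ z₀ : Ω, DE x θ z₀ ∧ z₀ ∈ KF k x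
    · obtain ⟨z₀, hz₀, hz₀K⟩ := hex
      obtain ⟨K, r, s, hr, hs, hs0, hrs⟩ := exists_frac (k := k) hx.ne hz₀K
      refine ⟨K, fun z hz hzK => ?_⟩
      have h1 := DE_div hx.ne hz hz₀
      rw [sub_self] at h1
      obtain ⟨m, hm, hu⟩ := DE_zero h1
      obtain ⟨c, hc, hcu⟩ := root_k (k := k) hm hu
      have h2 : z = algebraMap k Ω c * z₀ := by
        rw [hcu, div_mul_cancel₀ _ hz₀.1]
      refine ⟨s, hs, c • r, Submodule.smul_mem _ _ hr, hs0, ?_, ?_⟩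
      · rw [Algebra.smul_def]
        refine mul_ne_zero ((map_ne_zero _).mpr hc) ?_
        rw [← hrs]
        exact mul_ne_zero hz₀.1 hs0
      · rw [h2, Algebra.smul_def, ← hrs]
        ring
    · exact ⟨0, fun z hz hzK => absurd ⟨z, hz, hzK⟩ hex⟩
  choose Dθ hDθ using hone
  obtain ⟨S, hS⟩ : ∃ S : Finset (Fin 3 → ℚ), S = Fintype.piFinset (fun _ : Fin 3 =>
      (Finset.Icc (-((e₀ * C : ℕ) : ℤ)) ((e₀ * C : ℕ) : ℤ)).image
        (fun m : ℤ => (m : ℚ) / e₀)) := ⟨_, rfl⟩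
  refine ⟨∑ θ ∈ S, Dθ θ + 1, Nat.le_add_left _ _, fun θ z hz hzK hq => ?_⟩
  have hmem : θ ∈ S := by
    rw [hS, Fintype.mem_piFinset]
    intro j
    obtain ⟨m, hm⟩ := hlat θ z hz hzK j
    have he : (0 : ℚ) < e₀ := Nat.cast_pos.mpr he₀
    rw [Finset.mem_image]
    refine ⟨m, ?_, ?_⟩
    · have h1 : |θ j| ≤ C := by
        refine le_trans ?_ hq
        unfold qn
        exact Finset.single_le_sum (f := fun j => |θ j|) (fun _ _ => abs_nonneg _)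
          (Finset.mem_univ j)
      have h2 : |(m : ℚ)| ≤ ((e₀ * C : ℕ) : ℚ) := by
        rw [← hm, abs_mul, abs_of_pos he]
        push_cast
        exact mul_le_mul_of_nonneg_left h1 he.le
      have h3 : |m| ≤ ((e₀ * C : ℕ) : ℤ) := by
        exact_mod_cast h2
      rw [Finset.mem_Icc]
      exact abs_le.mp h3
    · rw [← hm]
      field_simp
  obtain ⟨p, hp, q, hq', hp0, hq0, e⟩ := hDθ θ z hz hzK
  have hD : Dθ θ ≤ ∑ θ ∈ S, Dθ θ + 1 :=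
    (Finset.single_le_sum (f := Dθ) (fun _ _ => Nat.zero_le _) hmem).trans (Nat.le_succ _)
  exact ⟨p, Bm_mono hD hp, q, Bm_mono hD hq', hp0, hq0, e⟩

end BMG
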