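import Pool.Agent.Lib.MP_a325a5_ag.F2.HDisc

/-! Lemma 6.3: disc_half of F2/HDisc.lean with labels f : F → Fin N which may depend on σ.  Same proof. -/

open NumberField BMF

namespace BMG

private lemma DiscG_logmax {a : ℝ} : Real.log (max 1 a) ≤ max (Real.log a) 0 := by
  rcases le_total a 1 with h | h
  · rw [max_eq_left h, Real.log_one]
    exact le_max_right _ _
  · rw [max_eq_right h]
    exact le_max_left _ _

private lemma DiscG_near {F : Type} [Field F] [NumberField F] (σ : F →+* ℂ) {x y : F} (hxy : x ≠ y)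
    {ε : ℝ} (hε : 0 < ε) (h : ‖σ x - σ y‖ ≤ ε * (max 1 ‖σ x‖ * max 1 ‖σ y‖)) :
    lg (.inl σ) (x - y) ≤ max (lg (.inl σ) x) 0 + max (lg (.inl σ) y) 0 + Real.log 2 -
      Real.log (2 / ε) := by
  have h0 : 0 < ‖σ x - σ y‖ := by
    rw [norm_pos_iff, sub_ne_zero]
    exact fun e => hxy (σ.injective e)
  have hm : ∀ a : ℝ, 0 < max 1 a := fun a => lt_of_lt_of_le one_pos (le_max_left _ _)
  have h1 := Real.log_le_log h0 h
  rw [Real.log_mul hε.ne' (mul_pos (hm _) (hm _)).ne', Real.log_mul (hm _).ne' (hm _).ne'] at h1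
  have h2 : lg (.inl σ) (x - y) = Real.log ‖σ x - σ y‖ := by
    unfold lg
    rw [av_inl, map_sub]
  have h3 : lg (.inl σ) x = Real.log ‖σ x‖ := rfl
  have h4 : lg (.inl σ) y = Real.log ‖σ y‖ := rfl
  rw [h2, h3, h4, Real.log_div two_ne_zero hε.ne']
  have h5 := DiscG_logmax (a := ‖σ x‖)
  have h6 := DiscG_logmax (a := ‖σ y‖)
  linarith

private lemma DiscG_num (o q N : ℕ) (h : o ≤ 2 * q) :
    (o : ℝ) ^ 2 / (4 * N) - o / 2 ≤ max ((q : ℝ) ^ 2 / N - q) 0 := by
  have h' : (o : ℝ) ≤ 2 * q := by exact_mod_cast h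
  have ho : (0 : ℝ) ≤ o := Nat.cast_nonneg o
  have hq : (0 : ℝ) ≤ q := Nat.cast_nonneg q
  rcases Nat.eq_zero_or_pos N with rfl | hN
  · simp only [Nat.cast_zero, mul_zero, div_zero, zero_sub]
    refine le_trans ?_ (le_max_right _ _)
    linarith
  have hN' : (0 : ℝ) < N := by exact_mod_cast hN
  by_cases hc : (o : ℝ) ≤ 2 * N
  · refine le_trans ?_ (le_max_right _ _)
    rw [sub_nonpos, div_le_div_iff₀ (by positivity) (by norm_num)]
    nlinarith
  · push Not at hc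
    refine le_trans ?_ (le_max_left _ _)
    have h1 : (o : ℝ) ^ 2 / (4 * N) - o / 2 = ((o : ℝ) / 2) ^ 2 / N - (o : ℝ) / 2 := by
      field_simp
      ring
    rw [h1]
    have h2 : 0 ≤ (q : ℝ) - o / 2 := by linarith
    have h3 : ((q : ℝ) ^ 2 / N - q) - (((o : ℝ) / 2) ^ 2 / N - (o : ℝ) / 2) =
        ((q : ℝ) - o / 2) * (((q : ℝ) + o / 2) / N - 1) := by
      field_simp
      ring
    have h4 : 0 ≤ ((q : ℝ) + o / 2) / N - 1 := by
      rw [sub_nonneg, le_div_iff₀ hN']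
      linarith
    nlinarith [mul_nonneg h2 h4]

open Classical in
theorem discG {L : Type} [Field L] [NumberField L] {F : Type} [Field F] [NumberField F]
    [Algebra L F] (τ : L →+* ℂ) (O : Finset F) (B : ℝ) (hB : ∀ y ∈ O, ht y ≤ B) (N : ℕ)
    (ε : ℝ) (hε : 0 < ε) (hε2 : ε ≤ 2)
    (h : ∀ σ : F →+* ℂ, σ.comp (algebraMap L F) = τ → ∃ P ⊆ O, O.card ≤ 2 * P.card ∧
      ∃ f : F → Fin N, ∀ y ∈ P, ∀ y' ∈ P, f y = f y' →
        ‖σ y - σ y'‖ ≤ ε * (max 1 ‖σ y‖ * max 1 ‖σ y'‖)) :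
    ((O.card : ℝ) ^ 2 / (4 * N) - O.card / 2) * Real.log (2 / ε) ≤
      (Module.finrank ℚ L : ℝ) * ((O.card : ℝ) * (O.card - 1) * (2 * B + Real.log 2)) := by
  have hlog : 0 ≤ Real.log (2 / ε) := Real.log_nonneg (by rw [le_div_iff₀ hε]; linarith)
  obtain ⟨c, hc⟩ : ∃ c, ((O.card : ℝ) ^ 2 / (4 * N) - O.card / 2) * Real.log (2 / ε) = c := ⟨_, rfl⟩
  have hne : ∀ p ∈ O.offDiag, p.1 ≠ p.2 := fun p hp => (Finset.mem_offDiag.1 hp).2.2
  -- the local inequality
  have hloc : ∀ v : Pl F, ∑ p ∈ O.offDiag, lg v (p.1 - p.2) ≤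
      ∑ p ∈ O.offDiag, (max (lg v p.1) 0 + max (lg v p.2) 0 + ar v) -
        Sum.elim (fun σ : F →+* ℂ => if σ.comp (algebraMap L F) = τ then c else 0)
          (fun _ => 0) v := by
    intro v
    have hgen : ∑ p ∈ O.offDiag, lg v (p.1 - p.2) ≤
        ∑ p ∈ O.offDiag, (max (lg v p.1) 0 + max (lg v p.2) 0 + ar v) :=
      Finset.sum_le_sum fun p hp => lg_sub_le v (hne p hp)
    rcases v with σ | w
    · simp only [Sum.elim_inl]
      split_ifs with hσ
      · obtain ⟨P, hPO, hPc, f, hP⟩ := h σ hσ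
        have hpair : ∀ p ∈ O.offDiag, lg (.inl σ) (p.1 - p.2) ≤
            (max (lg (.inl σ) p.1) 0 + max (lg (.inl σ) p.2) 0 + ar (.inl σ)) -
              (if p.1 ∈ P ∧ p.2 ∈ P ∧ f p.1 = f p.2 then Real.log (2 / ε) else 0) := by
          intro p hp
          obtain ⟨hp1, hp2, hp3⟩ := Finset.mem_offDiag.1 hp
          split_ifs with hf
          · exact DiscG_near σ hp3 hε (hP p.1 hf.1 p.2 hf.2.1 hf.2.2)
          · rw [sub_zero]
            exact lg_sub_le _ hp3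
        refine (Finset.sum_le_sum hpair).trans ?_
        rw [Finset.sum_sub_distrib]
        refine sub_le_sub_left ?_ _
        rw [← Finset.sum_filter, Finset.sum_const, nsmul_eq_mul, ← hc]
        refine mul_le_mul_of_nonneg_right ?_ hlog
        refine (DiscG_num O.card P.card N hPc).trans (max_le ?_ (Nat.cast_nonneg _))
        refine (pair_card P N f).trans ?_
        refine Nat.cast_le.2 (Finset.card_le_card fun p hp => ?_)
        obtain ⟨hp1, hp2⟩ := Finset.mem_filter.1 hp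
        obtain ⟨hp3, hp4, hp5⟩ := Finset.mem_offDiag.1 hp1
        exact Finset.mem_filter.2 ⟨Finset.mem_offDiag.2 ⟨hPO hp3, hPO hp4, hp5⟩, hp3, hp4, hp2⟩
      · rw [sub_zero]
        exact hgen
    · simp only [Sum.elim_inr]
      rw [sub_zero]
      exact hgen
  have fs1 : ∀ p ∈ O.offDiag, FS fun v : Pl F => lg v (p.1 - p.2) := fun p hp =>
    fs_lg (sub_ne_zero.2 (hne p hp))
  have fs2 : ∀ p : F × F, FS fun v : Pl F => max (lg v p.1) 0 + max (lg v p.2) 0 + ar v :=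
    fun p => ((fs_ht p.1).add (fs_ht p.2)).add fs_ar
  have fs3 : FS fun v : Pl F => Sum.elim (fun σ : F →+* ℂ =>
      if σ.comp (algebraMap L F) = τ then c else 0) (fun _ => 0) v := FS.inf _ fun w => rfl
  have htot := tot_mono (FS.sum _ fs1) ((FS.sum _ fun p _ => fs2 p).sub fs3) hloc
  rw [tot_sum _ fs1, tot_sub (FS.sum _ fun p _ => fs2 p) fs3, tot_sum _ fun p _ => fs2 p,
    tot_emb τ c, Finset.sum_eq_zero fun p hp => tot_lg (sub_ne_zero.2 (hne p hp))] at htot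
  have hterm : ∑ p ∈ O.offDiag, tot (fun v : Pl F => max (lg v p.1) 0 + max (lg v p.2) 0 + ar v) ≤
      (O.card : ℝ) * (O.card - 1) * (2 * B + Real.log 2) := by
    have h1 : ∀ p ∈ O.offDiag, tot (fun v : Pl F => max (lg v p.1) 0 + max (lg v p.2) 0 + ar v) ≤
        2 * B + Real.log 2 := by
      intro p hp
      obtain ⟨hp1, hp2, -⟩ := Finset.mem_offDiag.1 hp
      rw [tot_add ((fs_ht p.1).add (fs_ht p.2)) fs_ar, tot_add (fs_ht p.1) (fs_ht p.2), tot_ar]
      have h2 := hB p.1 hp1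
      have h3 := hB p.2 hp2
      unfold ht at h2 h3
      linarith
    refine (Finset.sum_le_sum h1).trans (le_of_eq ?_)
    rw [Finset.sum_const, nsmul_eq_mul, Finset.offDiag_card, Nat.cast_sub (Nat.le_mul_self _)]
    push_cast
    ring
  have hL : (0 : ℝ) < (Module.finrank ℚ L : ℝ) := finrank_pos
  have h5 : c / (Module.finrank ℚ L : ℝ) ≤ (O.card : ℝ) * (O.card - 1) * (2 * B + Real.log 2) := by
    linarith
  rw [div_le_iff₀ hL] at h5
  rw [hc]
  linarith

end BMG
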