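import Pool.Agent.Lib.MP_a325a5_ag.G.GDef

/-! Dirichlet: A = max |a j|.  Pigeonhole: among the Q^3 + 1 vectors (q a_j / A mod 1)_j, 0 ≤ q ≤ Q^3, in the unit cube divided into Q^3
boxes of side 1/Q, two are in the same box: their difference gives 1 ≤ q ≤ Q^3 and b integral with |q a_j / A - b_j| ≤ 1/Q (even <).
e_j = A b_j - q a_j.  b ≠ 0: for |a_j| = A: |b_j| ≥ q - 1/Q > 0.  (Integer form: floor of q a_j Q / A modulo Q.) -/

open NumberField

namespace BMG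

private theorem Dir_max (a : Fin 3 → ℤ) : ∃ j0 : Fin 3, ∀ j, |a j| ≤ |a j0| := by
  obtain ⟨j0, -, h⟩ := Finset.exists_max_image (Finset.univ : Finset (Fin 3)) (fun j => |a j|)
    ⟨0, Finset.mem_univ 0⟩
  exact ⟨j0, fun j => h j (Finset.mem_univ j)⟩

theorem dirich (a : Fin 3 → ℤ) (ha : a ≠ 0) (Q : ℕ) (hQ : 2 ≤ Q) :
    ∃ (A q : ℕ) (b e : Fin 3 → ℤ), 1 ≤ A ∧ nm a ≤ 3 * A ∧ 1 ≤ q ∧ q ≤ Q ^ 3 ∧ b ≠ 0 ∧
      (∀ j, |b j| ≤ (Q : ℤ) ^ 3 + 1) ∧ (∀ j, (A : ℤ) * b j = q * a j + e j) ∧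
      ∀ j, (Q : ℤ) * |e j| ≤ A := by
  obtain ⟨j0, hj0⟩ := Dir_max a
  obtain ⟨A, hA⟩ : ∃ A : ℤ, A = |a j0| := ⟨_, rfl⟩
  rw [← hA] at hj0
  have hA1 : 1 ≤ A := by
    by_contra h
    apply ha
    funext j
    have h1 := hj0 j
    have h2 := abs_nonneg (a j)
    have h3 : |a j| = 0 := by omega
    exact abs_eq_zero.1 h3
  have hQ' : (2 : ℤ) ≤ Q := by exact_mod_cast hQ
  have hQ0 : (0 : ℤ) < Q := by omega
  -- the boxes
  have hmod0 : ∀ z : ℤ, 0 ≤ z % A := fun z => Int.emod_nonneg _ (by omega)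
  have hmod1 : ∀ z : ℤ, z % A < A := fun z => Int.emod_lt_of_pos _ (by omega)
  have hf0 : ∀ z : ℤ, 0 ≤ (z % A) * Q / A := fun z =>
    Int.ediv_nonneg (mul_nonneg (hmod0 z) hQ0.le) (by omega)
  have hf1 : ∀ z : ℤ, (z % A) * Q / A < Q := fun z =>
    Int.ediv_lt_of_lt_mul (by omega) (by
      rw [mul_comm]
      exact mul_lt_mul_of_pos_left (hmod1 z) hQ0)
  obtain ⟨f, hf⟩ : ∃ f : ℤ → Fin Q, ∀ z, ((f z : ℕ) : ℤ) = (z % A) * Q / A := by
    refine ⟨fun z => ⟨((z % A) * Q / A).toNat, ?_⟩, fun z => ?_⟩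
    · have h1 := hf0 z
      have h2 := hf1 z
      omega
    · exact Int.toNat_of_nonneg (hf0 z)
  obtain ⟨g, hg⟩ : ∃ g : Fin (Q ^ 3 + 1) → (Fin 3 → Fin Q),
      g = fun (q : Fin (Q ^ 3 + 1)) (j : Fin 3) => f (((q.1 : ℕ) : ℤ) * a j) :=
    ⟨fun (q : Fin (Q ^ 3 + 1)) (j : Fin 3) => f (((q.1 : ℕ) : ℤ) * a j), rfl⟩
  have hcard : Fintype.card (Fin 3 → Fin Q) < Fintype.card (Fin (Q ^ 3 + 1)) := by
    rw [Fintype.card_fun, Fintype.card_fin, Fintype.card_fin, Fintype.card_fin]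
    exact Nat.lt_succ_self _
  obtain ⟨q1, q2, hne, hgq⟩ := Fintype.exists_ne_map_eq_of_card_lt g hcard
  have key : ∀ q1 q2 : Fin (Q ^ 3 + 1), q1 < q2 → g q1 = g q2 →
      ∃ (A q : ℕ) (b e : Fin 3 → ℤ), 1 ≤ A ∧ nm a ≤ 3 * A ∧ 1 ≤ q ∧ q ≤ Q ^ 3 ∧ b ≠ 0 ∧
      (∀ j, |b j| ≤ (Q : ℤ) ^ 3 + 1) ∧ (∀ j, (A : ℤ) * b j = q * a j + e j) ∧
      ∀ j, (Q : ℤ) * |e j| ≤ A := by
    intro q1 q2 hlt hgq
    have hlt' : (q1 : ℕ) < q2 := hlt
    have hq2 : (q2 : ℕ) ≤ Q ^ 3 := Nat.lt_succ_iff.1 q2.2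
    obtain ⟨z1, hz1⟩ : ∃ z1 : Fin 3 → ℤ, z1 = fun j => ((q1 : ℕ) : ℤ) * a j := ⟨_, rfl⟩
    obtain ⟨z2, hz2⟩ : ∃ z2 : Fin 3 → ℤ, z2 = fun j => ((q2 : ℕ) : ℤ) * a j := ⟨_, rfl⟩
    have hbox : ∀ j, (z1 j % A) * Q / A = (z2 j % A) * Q / A := by
      intro j
      have h1 : f (z1 j) = f (z2 j) := by
        have h2 := congrFun hgq j
        rw [hg] at h2
        rw [hz1, hz2]
        exact h2
      rw [← hf, ← hf, h1]
    have hQe : ∀ j, (Q : ℤ) * |z1 j % A - z2 j % A| < A := by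
      intro j
      have h1 := hbox j
      have h2 := Int.emod_add_mul_ediv ((z1 j % A) * Q) A
      have h3 := Int.emod_add_mul_ediv ((z2 j % A) * Q) A
      have h4 := hmod0 ((z1 j % A) * Q)
      have h5 := hmod1 ((z1 j % A) * Q)
      have h6 := hmod0 ((z2 j % A) * Q)
      have h7 := hmod1 ((z2 j % A) * Q)
      rw [h1] at h2
      have h8 : (Q : ℤ) * |z1 j % A - z2 j % A| = |(z1 j % A) * Q - (z2 j % A) * Q| := by
        rw [← sub_mul, abs_mul, abs_of_pos hQ0, mul_comm]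
      rw [h8, abs_lt]
      constructor
      · linarith
      · linarith
    obtain ⟨q, hq⟩ : ∃ q : ℕ, (q : ℤ) = ((q2 : ℕ) : ℤ) - ((q1 : ℕ) : ℤ) :=
      ⟨(q2 : ℕ) - (q1 : ℕ), by omega⟩
    have hq1 : 1 ≤ q := by omega
    have hqQ : q ≤ Q ^ 3 := by omega
    have hqQ' : (q : ℤ) ≤ (Q : ℤ) ^ 3 := by exact_mod_cast hqQ
    have heq : ∀ j, A * (z2 j / A - z1 j / A) = q * a j + (z1 j % A - z2 j % A) := by
      intro j
      have h2 := Int.emod_add_mul_ediv (z1 j) A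
      have h3 := Int.emod_add_mul_ediv (z2 j) A
      have h4 : (q : ℤ) * a j = z2 j - z1 j := by
        rw [hq, hz1, hz2]
        ring
      rw [h4]
      linarith
    have he2 : ∀ j, 2 * |z1 j % A - z2 j % A| < A := by
      intro j
      have h1 := hQe j
      have h2 : 2 * |z1 j % A - z2 j % A| ≤ (Q : ℤ) * |z1 j % A - z2 j % A| :=
        mul_le_mul_of_nonneg_right hQ' (abs_nonneg _)
      linarith
    refine ⟨A.toNat, q, fun j => z2 j / A - z1 j / A, fun j => z1 j % A - z2 j % A, by omega, ?_,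
      hq1, hqQ, ?_, ?_, ?_, ?_⟩
    · unfold nm
      rw [Fin.sum_univ_three]
      have h0 := hj0 0
      have h1 := hj0 1
      have h2 := hj0 2
      rw [Int.abs_eq_natAbs] at h0 h1 h2
      omega
    · intro hb
      have h1 := congrFun hb j0
      change z2 j0 / A - z1 j0 / A = 0 at h1
      have h2 := heq j0
      rw [h1, mul_zero] at h2
      have h3 : (q : ℤ) * a j0 = -(z1 j0 % A - z2 j0 % A) := by linarith
      have h4 : |(q : ℤ) * a j0| = |z1 j0 % A - z2 j0 % A| := by rw [h3, abs_neg]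
      rw [abs_mul, ← hA, Nat.abs_cast] at h4
      have h5 := he2 j0
      rw [← h4] at h5
      have h6 : (1 : ℤ) ≤ q := by exact_mod_cast hq1
      nlinarith
    · intro j
      change |z2 j / A - z1 j / A| ≤ (Q : ℤ) ^ 3 + 1
      have h1 : A * |z2 j / A - z1 j / A| ≤ A * ((Q : ℤ) ^ 3 + 1) := by
        have h2 : A * |z2 j / A - z1 j / A| = |(q : ℤ) * a j + (z1 j % A - z2 j % A)| := by
          rw [← heq, abs_mul, abs_of_pos (show 0 < A by omega)]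
        have h3 := abs_add_le ((q : ℤ) * a j) (z1 j % A - z2 j % A)
        have h4 : |(q : ℤ) * a j| ≤ (Q : ℤ) ^ 3 * A := by
          rw [abs_mul, Nat.abs_cast]
          exact mul_le_mul hqQ' (hj0 j) (abs_nonneg _) (by positivity)
        have h5 := he2 j
        have h6 := abs_nonneg (z1 j % A - z2 j % A)
        rw [h2]
        nlinarith
      exact le_of_mul_le_mul_left h1 (by omega)
    · intro j
      rw [Int.toNat_of_nonneg (by omega)]
      exact heq j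
    · intro j
      rw [Int.toNat_of_nonneg (by omega)]
      exact (hQe j).le
  rcases lt_or_gt_of_ne hne with h | h
  · exact key q1 q2 h hgq
  · exact key q2 q1 h hgq.symm

end BMG
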