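import Pool.Agent.Lib.MP_a325a5_ag.G.GDef
import Pool.Agent.Lib.MP_a325a5_ag.F.HtC

/-! Lemma 5.1, height of a root.  g_i = G.coeff i.  Not all g_i(y) are 0: otherwise the minimal polynomial of y over L divides all g_i, against
IsPrimitive.  m maximal with g_m(y) ≠ 0; m ≥ 1 (otherwise G(y, ξ) = g_0(y) ≠ 0).  ξ^m = - ∑_{i<m} (g_i(y)/g_m(y)) ξ^i: at every place v
max(lg ξ, 0) ≤ max_i lg g_i(y) - lg g_m(y) (over i ≤ m with g_i(y) ≠ 0) + (log (m+1) if v is infinite), and lg g_i(y) ≤ n₀ max(lg y, 0) + (sum of the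
|lg| of the nonzero coefficients of g_i) + (log (n₀+1) if v is infinite).  Sum over the places (tot_lg: product formula for g_m(y)); the total of the
|lg v a| of an element a of L is bounded independently of K (ht_const, F/HtC.lean). -/

open NumberField BMF

namespace BMG

/-- the contribution of a sum of `n` terms -/
private noncomputable def HtRt_c {K : Type} [Field K] [NumberField K] (n : ℕ) (v : Pl K) : ℝ :=
  Sum.elim (fun _ => (n : ℝ)) (fun _ => 1) v

private theorem HtRt_sum {K : Type} [Field K] [NumberField K] {ι : Type} (s : Finset ι)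
    (f : ι → K) (v : Pl K) (B : ℝ) (hB : 0 ≤ B) (h : ∀ i ∈ s, av v (f i) ≤ B) (n : ℕ)
    (hn : s.card ≤ n) (h1 : 1 ≤ n) : av v (∑ i ∈ s, f i) ≤ HtRt_c n v * B := by
  classical
  rcases v with σ | w
  · have h2 : av (.inl σ) (∑ i ∈ s, f i) ≤ ∑ i ∈ s, av (.inl σ) (f i) := by
      simp only [av_inl, map_sum]
      exact norm_sum_le _ _
    refine h2.trans ((Finset.sum_le_card_nsmul s _ B h).trans ?_)
    rw [nsmul_eq_mul]
    have h5 : HtRt_c n (.inl σ : Pl K) = n := rfl
    rw [h5]
    exact mul_le_mul_of_nonneg_right (by exact_mod_cast hn) hB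
  · have h3 : ∀ t : Finset ι, (∀ i ∈ t, av (.inr w) (f i) ≤ B) →
        av (.inr w) (∑ i ∈ t, f i) ≤ B := by
      intro t
      induction t using Finset.induction_on with
      | empty => intro _; simpa using hB
      | insert a t ha ih =>
        intro h4
        rw [Finset.sum_insert ha]
        exact (av_inr_add_le w _ _).trans (max_le (h4 a (Finset.mem_insert_self _ _))
          (ih fun i hi => h4 i (Finset.mem_insert_of_mem hi)))
    have h5 : HtRt_c n (.inr w : Pl K) = 1 := rfl
    rw [h5, one_mul]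
    exact h3 s h

private theorem HtRt_c_pos {K : Type} [Field K] [NumberField K] {n : ℕ} (h1 : 1 ≤ n) (v : Pl K) :
    1 ≤ HtRt_c n v := by
  rcases v with σ | w
  · have h5 : HtRt_c n (.inl σ : Pl K) = n := rfl
    rw [h5]
    exact_mod_cast h1
  · exact le_refl _

private theorem HtRt_log {K : Type} [Field K] [NumberField K] (n : ℕ) :
    (fun v : Pl K => Real.log (HtRt_c n v)) =
      fun v => Sum.elim (fun _ => Real.log n) (fun _ => 0) v := by
  funext v
  rcases v with σ | w
  · rfl
  · exact Real.log_one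

/-- an absolute value is at most the exponential of the positive part of the logarithm -/
private theorem HtRt_exp {K : Type} [Field K] [NumberField K] (v : Pl K) (x : K) :
    av v x ≤ Real.exp (max (lg v x) 0) := by
  rcases eq_or_ne x 0 with rfl | hx
  · rw [map_zero]
    exact (Real.exp_pos _).le
  · calc av v x = Real.exp (lg v x) := (Real.exp_log (av_pos v hx)).symm
      _ ≤ _ := Real.exp_le_exp.2 (le_max_left _ _)

private theorem HtRt_prim {L : Type} [Field L] [NumberField L] (G : Polynomial (Polynomial L))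
    (hG : G.IsPrimitive) (K : Type) [Field K] [NumberField K] [Algebra L K] (y : K) :
    ∃ i, Polynomial.aeval y (G.coeff i) ≠ 0 := by
  by_contra hc
  push Not at hc
  have halg : IsAlgebraic L y := by
    have h1 : IsAlgebraic ℚ y := Algebra.IsAlgebraic.isAlgebraic y
    exact h1.tower_top L
  have hint : IsIntegral L y := halg.isIntegral
  have h2 : Polynomial.C (minpoly L y) ∣ G := by
    rw [Polynomial.C_dvd_iff_dvd_coeff]
    intro i
    exact minpoly.dvd L y (hc i)
  exact (minpoly.irreducible hint).not_isUnit (hG _ h2)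

theorem ht_root {L : Type} [Field L] [NumberField L] (G : Polynomial (Polynomial L))
    (hG : G.IsPrimitive) (n₀ : ℕ) (hd : ∀ i, (G.coeff i).natDegree ≤ n₀) :
    ∃ C : ℝ, 0 ≤ C ∧ ∀ (K : Type) [Field K] [NumberField K] [Algebra L K] (y ξ : K),
      Polynomial.aevalAeval y ξ G = 0 → ht ξ ≤ n₀ * ht y + C := by
  classical
  choose D hD0 hD using fun x : L => ht_bdd x
  set N := G.natDegree with hN
  set S : Finset (ℕ × ℕ) := Finset.range (N + 1) ×ˢ Finset.range (n₀ + 1) with hS
  set a : ℕ × ℕ → L := fun ij => (G.coeff ij.1).coeff ij.2 with ha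
  refine ⟨(∑ ij ∈ S, D (a ij)) + Real.log (n₀ + 1 : ℕ) + Real.log (N + 1 : ℕ), ?_, ?_⟩
  · have h1 : 0 ≤ ∑ ij ∈ S, D (a ij) := Finset.sum_nonneg fun _ _ => hD0 _
    have h2 : 0 ≤ Real.log (n₀ + 1 : ℕ) := Real.log_natCast_nonneg _
    have h3 : 0 ≤ Real.log (N + 1 : ℕ) := Real.log_natCast_nonneg _
    linarith
  intro K _ _ _ y ξ h0
  set b : ℕ → K := fun i => Polynomial.aeval y (G.coeff i) with hb
  have hb0 : ∀ i, N < i → b i = 0 := by
    intro i hi
    rw [hb]
    simp only
    rw [Polynomial.coeff_eq_zero_of_natDegree_lt hi, map_zero]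
  have hev : ∑ i ∈ Finset.range (N + 1), b i * ξ ^ i = 0 := by
    have h1 : Polynomial.aevalAeval y ξ G = ∑ i ∈ Finset.range (N + 1), b i * ξ ^ i := by
      conv_lhs => rw [G.as_sum_range_C_mul_X_pow]
      rw [map_sum]
      refine Finset.sum_congr rfl fun i _ => ?_
      rw [map_mul, map_pow, Polynomial.aevalAeval_C, Polynomial.aevalAeval_Y]
    rw [← h1]
    exact h0
  obtain ⟨i0, hi0⟩ := HtRt_prim G hG K y
  have hi0N : i0 ≤ N := by
    by_contra hc
    exact hi0 (hb0 i0 (not_le.1 hc))
  set m := Nat.findGreatest (fun i => b i ≠ 0) N with hm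
  have hmN : m ≤ N := Nat.findGreatest_le N
  have hbm : b m ≠ 0 := Nat.findGreatest_spec (P := fun i => b i ≠ 0) hi0N hi0
  have hgt : ∀ i, m < i → b i = 0 := by
    intro i hi
    by_cases hiN : i ≤ N
    · by_contra hc
      exact Nat.findGreatest_is_greatest (P := fun i => b i ≠ 0) hi hiN hc
    · exact hb0 i (not_le.1 hiN)
  have hev2 : ∑ i ∈ Finset.range (m + 1), b i * ξ ^ i = 0 := by
    rw [← hev]
    refine Finset.sum_subset (Finset.range_subset_range.2 (by omega)) ?_
    intro i _ hi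
    rw [hgt i (by simpa using hi), zero_mul]
  rw [Finset.sum_range_succ] at hev2
  -- the bound at each place
  set M : Pl K → ℝ := fun v =>
    (∑ ij ∈ S, max (lg v (algebraMap L K (a ij))) 0) + n₀ * max (lg v y) 0 with hM
  have hbv : ∀ (v : Pl K) (i : ℕ), i ≤ N → av v (b i) ≤ HtRt_c (n₀ + 1) v * Real.exp (M v) := by
    intro v i hi
    have h1 : b i = ∑ j ∈ Finset.range (n₀ + 1), algebraMap L K (a (i, j)) * y ^ j := by
      rw [hb]
      simp only
      rw [Polynomial.aeval_eq_sum_range' (Nat.lt_succ_of_le (hd i))]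
      refine Finset.sum_congr rfl fun j _ => ?_
      rw [Algebra.smul_def]
    rw [h1]
    refine HtRt_sum _ _ v _ (Real.exp_pos _).le ?_ _ (by simp) (by omega)
    intro j hj
    rw [map_mul, map_pow, hM]
    simp only
    rw [Real.exp_add]
    refine mul_le_mul ?_ ?_ (pow_nonneg ((av v).nonneg _) _) (Real.exp_pos _).le
    · refine (HtRt_exp v _).trans (Real.exp_le_exp.2 ?_)
      refine Finset.single_le_sum
        (f := fun ij : ℕ × ℕ => max (lg v (algebraMap L K (a ij))) 0)
        (fun _ _ => le_max_right _ _) (a := (i, j)) ?_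
      rw [hS, Finset.mem_product]
      exact ⟨Finset.mem_range.2 (by omega), hj⟩
    · have h2 : av v y ^ j ≤ Real.exp (max (lg v y) 0) ^ j :=
        pow_le_pow_left₀ ((av v).nonneg _) (HtRt_exp v y) j
      refine h2.trans ?_
      rw [← Real.exp_nat_mul]
      refine Real.exp_le_exp.2 ?_
      have h3 : (j : ℝ) ≤ n₀ := by
        have := Finset.mem_range.1 hj
        exact_mod_cast Nat.lt_succ_iff.1 this
      exact mul_le_mul_of_nonneg_right h3 (le_max_right _ _)
  have hpl : ∀ v : Pl K, max (lg v ξ) 0 ≤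
      (Real.log (HtRt_c (N + 1) v) + (Real.log (HtRt_c (n₀ + 1) v) + M v)) - lg v (b m) := by
    intro v
    have hc1 : 1 ≤ HtRt_c (N + 1) v := HtRt_c_pos (by omega) v
    have hc2 : 1 ≤ HtRt_c (n₀ + 1) v := HtRt_c_pos (by omega) v
    have hB : 0 < HtRt_c (n₀ + 1) v * Real.exp (M v) := by positivity
    have hBl : Real.log (HtRt_c (n₀ + 1) v * Real.exp (M v)) =
        Real.log (HtRt_c (n₀ + 1) v) + M v := by
      rw [Real.log_mul (by positivity) (Real.exp_pos _).ne', Real.log_exp]
    have h4 : lg v (b m) ≤ Real.log (HtRt_c (n₀ + 1) v) + M v := by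
      rw [← hBl]
      exact Real.log_le_log (av_pos v hbm) (hbv v m hmN)
    have h5 : 0 ≤ Real.log (HtRt_c (N + 1) v) := Real.log_nonneg hc1
    refine max_le ?_ (by linarith)
    rcases le_or_gt (av v ξ) 1 with h6 | h6
    · have h7 : lg v ξ ≤ 0 := Real.log_nonpos ((av v).nonneg _) h6
      linarith
    have hξ0 : 0 < av v ξ := by linarith
    have hm1 : 1 ≤ m := by
      by_contra hc
      have hm0 : m = 0 := by omega
      rw [hm0] at hev2 hbm
      simp at hev2
      exact hbm hev2
    obtain ⟨k, hk⟩ : ∃ k, m = k + 1 := ⟨m - 1, by omega⟩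
    have h8 : av v (b m) * av v ξ ^ m ≤
        HtRt_c (N + 1) v * ((HtRt_c (n₀ + 1) v * Real.exp (M v)) * av v ξ ^ k) := by
      have h9 : b m * ξ ^ m = - ∑ i ∈ Finset.range m, b i * ξ ^ i := by
        linear_combination hev2
      have h10 : av v (b m) * av v ξ ^ m = av v (∑ i ∈ Finset.range m, b i * ξ ^ i) := by
        rw [← map_pow, ← map_mul, h9, (av v).map_neg]
      rw [h10]
      refine HtRt_sum _ _ v _ (by positivity) ?_ _ (by simp; omega) (by omega)
      intro i hi
      rw [map_mul, map_pow]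
      have hi' := Finset.mem_range.1 hi
      refine mul_le_mul (hbv v i (by omega)) ?_ (pow_nonneg hξ0.le _) hB.le
      exact pow_le_pow_right₀ h6.le (by omega)
    have h11 : av v (b m) * av v ξ ≤ HtRt_c (N + 1) v * (HtRt_c (n₀ + 1) v * Real.exp (M v)) := by
      rw [hk, pow_succ] at h8
      have hp : 0 < av v ξ ^ k := pow_pos hξ0 k
      rw [← hk] at h8
      refine le_of_mul_le_mul_right ?_ hp
      calc av v (b m) * av v ξ * av v ξ ^ k = av v (b m) * (av v ξ ^ k * av v ξ) := by ring
        _ ≤ _ := h8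
        _ = _ := by ring
    have h12 := Real.log_le_log (mul_pos (av_pos v hbm) hξ0) h11
    rw [Real.log_mul (av_pos v hbm).ne' hξ0.ne', Real.log_mul (by positivity) hB.ne', hBl] at h12
    have h13 : lg v ξ = Real.log (av v ξ) := rfl
    have h14 : lg v (b m) = Real.log (av v (b m)) := rfl
    linarith
  -- sum over the places
  have fsM : FS M := by
    rw [hM]
    exact (FS.sum S fun ij _ => fs_ht _).add ((fs_ht y).const_mul _)
  have fs1 : ∀ n : ℕ, FS fun v : Pl K => Real.log (HtRt_c n v) := by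
    intro n
    rw [HtRt_log]
    exact FS.inf _ fun w => rfl
  have t1 : ∀ n : ℕ, tot (fun v : Pl K => Real.log (HtRt_c n v)) = Real.log n := by
    intro n
    rw [HtRt_log, tot_inf_const]
  have htot := tot_mono (fs_ht ξ)
    (((fs1 (N + 1)).add ((fs1 (n₀ + 1)).add fsM)).sub (fs_lg hbm)) hpl
  rw [tot_sub ((fs1 (N + 1)).add ((fs1 (n₀ + 1)).add fsM)) (fs_lg hbm), tot_lg hbm,
    tot_add (fs1 (N + 1)) ((fs1 (n₀ + 1)).add fsM), tot_add (fs1 (n₀ + 1)) fsM, t1, t1] at htot
  have hMt : tot M = (∑ ij ∈ S, ht (algebraMap L K (a ij))) + n₀ * ht y := by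
    rw [hM, tot_add (FS.sum S fun ij _ => fs_ht _) ((fs_ht y).const_mul _),
      tot_sum S (fun ij _ => fs_ht _), tot_const_mul]
    rfl
  have hMs : ∑ ij ∈ S, ht (algebraMap L K (a ij)) ≤ ∑ ij ∈ S, D (a ij) :=
    Finset.sum_le_sum fun ij _ => hD _ K
  have hfin : ht ξ = tot fun v => max (lg v ξ) 0 := rfl
  rw [hMt] at htot
  rw [hfin]
  linarith

end BMG
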