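import Pool.Agent.Lib.MP_a325a5_ag.G.Gpol
import Pool.Agent.Lib.MP_a325a5_ag.G.OnCL
import Pool.Agent.Lib.MP_a325a5_ag.G.HtRt
import Pool.Agent.Lib.MP_a325a5_ag.G.Dir

/-! Proposition 5.2: the height of the points with one multiplicative relation is bounded. -/

open NumberField BMF

namespace BMG

private theorem h52_prod {K : Type} [Field K] [NumberField K] {ι : Type} (s : Finset ι)
    (f : ι → K) : ht (∏ i ∈ s, f i) ≤ ∑ i ∈ s, ht (f i) := by
  classical
  induction s using Finset.induction_on with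
  | empty =>
    rw [Finset.prod_empty, Finset.sum_empty, ht_one]
  | insert a s ha ih =>
    rw [Finset.prod_insert ha, Finset.sum_insert ha]
    exact (ht_mul_le _ _).trans (add_le_add le_rfl ih)

theorem h52 {L Ω : Type} [Field L] [NumberField L] [Field Ω] [Algebra L Ω] {x : Fin 3 → Ω}
    (hx : Crv L x) : ∃ B : ℝ, 0 ≤ B ∧ ∀ (K : Type) [Field K] [NumberField K] [Algebra L K]
      (c : Fin 3 → K), (∀ j, c j ≠ 0) → OnC L x c → ∀ a : Fin 3 → ℤ, a ≠ 0 →
      ∏ j, c j ^ a j = 1 → ∀ j, ht (c j) ≤ B := by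
  classical
  obtain ⟨n₀, hn₀, hG⟩ := gpol hx
  have hC : ∀ (b : Fin 3 → ℤ) (j : Fin 3), ∃ C : ℝ, 0 ≤ C ∧ (b ≠ 0 → ∀ (K : Type) [Field K]
      [NumberField K] [Algebra L K] (c : Fin 3 → K), (∀ j, c j ≠ 0) → OnC L x c →
      ht (c j) ≤ n₀ * ht (∏ l, c l ^ b l) + C) := by
    intro b j
    by_cases hb : b = 0
    · exact ⟨0, le_rfl, fun h => absurd hb h⟩
    · obtain ⟨G, hG1, hG2, hG3⟩ := hG b hb j
      obtain ⟨C, hC0, hC⟩ := ht_root G hG1 n₀ hG2
      exact ⟨C, hC0, fun _ K _ _ _ c hc hon => hC K _ _ (onC_bip hx.ne hc hon b j G hG3)⟩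
  choose Cf hCf0 hCf using hC
  set Q : ℕ := 6 * n₀ with hQ
  let S₀ : Finset (Fin 3 → ℤ) :=
    Fintype.piFinset fun _ => Finset.Icc (-((Q : ℤ) ^ 3 + 1)) ((Q : ℤ) ^ 3 + 1)
  let C : ℝ := ∑ b ∈ S₀, ∑ j, Cf b j
  have hCn : 0 ≤ C := Finset.sum_nonneg fun b _ => Finset.sum_nonneg fun j _ => hCf0 b j
  have hCle : ∀ b ∈ S₀, ∀ j, Cf b j ≤ C := by
    intro b hb j
    refine (Finset.single_le_sum (f := fun j => Cf b j) (fun j _ => hCf0 b j)
      (Finset.mem_univ j)).trans ?_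
    exact Finset.single_le_sum (f := fun b => ∑ j, Cf b j)
      (fun b _ => Finset.sum_nonneg fun j _ => hCf0 b j) hb
  refine ⟨6 * C, by positivity, fun K _ _ _ c hc hon a ha hrel j => ?_⟩
  obtain ⟨A, q, b, e, hA, _, _, _, hb0, hb, hAb, he⟩ := dirich a ha Q (by omega)
  have hbS : b ∈ S₀ := by
    rw [Fintype.mem_piFinset]
    intro i
    rw [Finset.mem_Icc]
    exact abs_le.mp (hb i)
  set S : ℝ := ∑ j, ht (c j) with hS
  have hS0 : 0 ≤ S := Finset.sum_nonneg fun j _ => ht_nonneg _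
  have hpow : (∏ l, c l ^ b l) ^ A = ∏ l, c l ^ e l := by
    rw [← mon_smul]
    have h1 : ∀ l, c l ^ ((A : ℤ) * b l) = c l ^ ((q : ℤ) * a l) * c l ^ e l := by
      intro l
      rw [hAb l, zpow_add₀ (hc l)]
    rw [Finset.prod_congr rfl fun l _ => h1 l, Finset.prod_mul_distrib, mon_smul, hrel,
      one_pow, one_mul]
  have h1 : (A : ℝ) * ht (∏ l, c l ^ b l) ≤ ∑ l, |(e l : ℝ)| * ht (c l) := by
    rw [← ht_pow, hpow]
    refine (h52_prod _ _).trans (le_of_eq ?_)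
    exact Finset.sum_congr rfl fun l _ => ht_zpow _ _
  have hApos : (0 : ℝ) < A := by exact_mod_cast hA
  have hQpos : (0 : ℝ) < Q := by
    have : 0 < Q := by omega
    exact_mod_cast this
  have h2 : ∑ l, |(e l : ℝ)| * ht (c l) ≤ (A / Q) * S := by
    rw [hS, Finset.mul_sum]
    refine Finset.sum_le_sum fun l _ => ?_
    refine mul_le_mul_of_nonneg_right ?_ (ht_nonneg _)
    rw [le_div_iff₀ hQpos]
    have := he l
    have h3 : ((Q : ℤ) : ℝ) * ((|e l| : ℤ) : ℝ) ≤ ((A : ℤ) : ℝ) := by exact_mod_cast this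
    rw [Int.cast_abs] at h3
    push_cast at h3
    linarith
  have h3 : ht (∏ l, c l ^ b l) ≤ S / Q := by
    have h4 := h1.trans h2
    have h5 : (A : ℝ) / Q * S = A * (S / Q) := by ring
    rw [h5] at h4
    exact le_of_mul_le_mul_left h4 hApos
  have h4 : ∀ i, ht (c i) ≤ S / 6 + C := by
    intro i
    refine (hCf b i hb0 K c hc hon).trans ?_
    have h5 : (n₀ : ℝ) * ht (∏ l, c l ^ b l) ≤ n₀ * (S / Q) :=
      mul_le_mul_of_nonneg_left h3 (Nat.cast_nonneg _)
    have h6 : (n₀ : ℝ) * (S / Q) = S / 6 := by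
      rw [hQ]
      push_cast
      have : (n₀ : ℝ) ≠ 0 := by
        have : 0 < n₀ := by omega
        exact_mod_cast this.ne'
      field_simp
    rw [h6] at h5
    exact add_le_add h5 (hCle b hbS i)
  have h5 : S ≤ 3 * (S / 6 + C) := by
    rw [hS]
    refine (Finset.sum_le_sum fun i _ => h4 i).trans (le_of_eq ?_)
    rw [Finset.sum_const, Finset.card_univ, Fintype.card_fin, nsmul_eq_mul]
    push_cast
    rfl
  have h6 : ht (c j) ≤ S := by
    rw [hS]
    exact Finset.single_le_sum (f := fun j => ht (c j)) (fun j _ => ht_nonneg _)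
      (Finset.mem_univ j)
  linarith

end BMG
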