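import Pool.Agent.Lib.MP_a325a5_ag.G.CovF

/-! Lemma 6.2.  NearG for d = 0 is contained in NearG for every d (ρ = 0), NearG depends only on the line ℝ d and increases with δ: so normalise all d k
to sup norm 1 (a zero d k is replaced by any unit vector).  The set of (d k)_k with ‖d k‖ = 1 is compact (as in near_covq, F2/HCov.lean): finite subcover of the
neighbourhoods from covF; δ = minimum, N₀ = maximum. -/

open NumberField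

namespace BMG

private theorem cov_mono {L Ω : Type} [Field L] [Field Ω] [Algebra L Ω] {x : Fin 3 → Ω}
    {τ : L →+* ℂ} {δ δ' : ℝ} (h : δ ≤ δ') {d : Fin 3 → ℝ} {w : Fin 3 → ℂ}
    (hw : NearG L x τ δ d w) : NearG L x τ δ' d w := by
  obtain ⟨h1, ρ, h2⟩ := hw
  exact ⟨h1, ρ, fun j => (h2 j).trans h⟩

private theorem cov_zero {L Ω : Type} [Field L] [Field Ω] [Algebra L Ω] {x : Fin 3 → Ω}
    {τ : L →+* ℂ} {δ : ℝ} (d : Fin 3 → ℝ) {w : Fin 3 → ℂ}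
    (hw : NearG L x τ δ 0 w) : NearG L x τ δ d w := by
  obtain ⟨h1, ρ, h2⟩ := hw
  refine ⟨h1, 0, fun j => ?_⟩
  have h3 := h2 j
  rw [Pi.zero_apply, mul_zero] at h3
  rwa [zero_mul]

private theorem cov_smul {L Ω : Type} [Field L] [Field Ω] [Algebra L Ω] {x : Fin 3 → Ω}
    {τ : L →+* ℂ} {δ : ℝ} {d : Fin 3 → ℝ} {c : ℝ} (hc : 0 < c) {w : Fin 3 → ℂ}
    (hw : NearG L x τ δ d w) : NearG L x τ δ (c⁻¹ • d) w := by
  obtain ⟨h1, ρ, h2⟩ := hw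
  refine ⟨h1, ρ * c, fun j => ?_⟩
  have h3 := h2 j
  rw [Pi.smul_apply, smul_eq_mul]
  have h4 : ρ * c * (c⁻¹ * d j) = ρ * d j := by field_simp
  rwa [h4]

theorem covG {L Ω : Type} [Field L] [CharZero L] [Field Ω] [Algebra L Ω] {x : Fin 3 → Ω}
    (hx : Crv L x) (τ : L →+* ℂ) (hNA : NAc L x τ) (ι : Type) [Fintype ι]
    (ε : ℕ → ℝ) (hε : ∀ n, 0 < ε n) :
    ∃ δ : ℝ, 0 < δ ∧ ∃ N₀ : ℕ, ∀ d : ι → Fin 3 → ℝ, ∃ N : ℕ, N ≤ N₀ ∧
      ∃ f : (Fin 3 → ℂ) → Fin N, ∀ z w : Fin 3 → ℂ, (∃ k, NearG L x τ δ (d k) z) →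
        (∃ k, NearG L x τ δ (d k) w) → f z = f w →
        ‖z 0 - w 0‖ ≤ ε N * (max 1 ‖z 0‖ * max 1 ‖w 0‖) := by
  classical
  obtain ⟨X, hXd⟩ : ∃ X : Set (ι → Fin 3 → ℝ),
      X = Set.pi Set.univ fun _ => Metric.sphere (0 : Fin 3 → ℝ) 1 := ⟨_, rfl⟩
  have hXc : IsCompact X := by
    rw [hXd]
    exact isCompact_univ_pi fun _ => isCompact_sphere _ _
  have hXm : ∀ D, D ∈ X ↔ ∀ k, ‖D k‖ = 1 := by
    intro D
    rw [hXd]
    simp [Set.mem_pi]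
  have key : ∀ D₀ : ι → Fin 3 → ℝ, ∃ N : ℕ, ∃ δ η : ℝ, 0 < δ ∧ 0 < η ∧ (D₀ ∈ X →
      ∀ D : ι → Fin 3 → ℝ, (∀ k, ‖D k‖ = 1) → (∀ k, ‖D k - D₀ k‖ < η) →
      ∃ f : (Fin 3 → ℂ) → Fin N, ∀ z w : Fin 3 → ℂ, (∃ k, NearG L x τ δ (D k) z) →
        (∃ k, NearG L x τ δ (D k) w) → f z = f w →
        ‖z 0 - w 0‖ ≤ ε N * (max 1 ‖z 0‖ * max 1 ‖w 0‖)) := by
    intro D₀
    by_cases hD : D₀ ∈ X
    · obtain ⟨N, δ, η, h1, h2, h3⟩ := covF hx τ hNA ι D₀ ((hXm D₀).1 hD) ε hε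
      exact ⟨N, δ, η, h1, h2, fun _ => h3⟩
    · exact ⟨0, 1, 1, one_pos, one_pos, fun h => absurd h hD⟩
  choose N δ η hδ hη hkey using key
  obtain ⟨t, ht1, ht2⟩ := hXc.elim_nhds_subcover
    (fun D₀ => {D : ι → Fin 3 → ℝ | ∀ k, ‖D k - D₀ k‖ < η D₀}) (fun D₀ _ => by
      have hopen : IsOpen {D : ι → Fin 3 → ℝ | ∀ k, ‖D k - D₀ k‖ < η D₀} := by
        rw [Set.setOf_forall]
        refine isOpen_iInter_of_finite fun k => ?_
        exact isOpen_lt (by fun_prop) continuous_const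
      refine hopen.mem_nhds fun k => ?_
      rw [sub_self, norm_zero]
      exact hη D₀)
  have hmin : ∀ s : Finset (ι → Fin 3 → ℝ), ∃ δ₀ : ℝ, 0 < δ₀ ∧ ∀ D ∈ s, δ₀ ≤ δ D := by
    intro s
    induction s using Finset.induction_on with
    | empty => exact ⟨1, one_pos, fun D hD => absurd hD (Finset.notMem_empty D)⟩
    | insert D s _ ih =>
      obtain ⟨δ₀, h1, h2⟩ := ih
      refine ⟨min δ₀ (δ D), lt_min h1 (hδ D), fun E hE => ?_⟩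
      rcases Finset.mem_insert.1 hE with rfl | hE
      · exact min_le_right _ _
      · exact (min_le_left _ _).trans (h2 E hE)
  obtain ⟨δ₀, h1, h2⟩ := hmin t
  refine ⟨δ₀, h1, t.sup N, fun d => ?_⟩
  obtain ⟨D, hD⟩ : ∃ D : ι → Fin 3 → ℝ, ∀ k, D k = if d k = 0 then 1 else ‖d k‖⁻¹ • d k :=
    ⟨_, fun k => rfl⟩
  have hDX : D ∈ X := by
    rw [hXm]
    intro k
    rw [hD]
    split_ifs with h
    · exact norm_one
    · exact norm_smul_inv_norm h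
  obtain ⟨D₀, hD₀t, hD₀⟩ := Set.mem_iUnion₂.1 (ht2 hDX)
  obtain ⟨f, hf⟩ := hkey D₀ (ht1 D₀ hD₀t) D ((hXm D).1 hDX) hD₀
  have hnear : ∀ z : Fin 3 → ℂ, (∃ k, NearG L x τ δ₀ (d k) z) →
      ∃ k, NearG L x τ (δ D₀) (D k) z := by
    rintro z ⟨k, hk⟩
    refine ⟨k, cov_mono (h2 D₀ hD₀t) ?_⟩
    by_cases h : d k = 0
    · rw [h] at hk
      exact cov_zero (D k) hk
    · have hn : 0 < ‖d k‖ := norm_pos_iff.2 h
      rw [hD, if_neg h]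
      exact cov_smul hn hk
  exact ⟨N D₀, Finset.le_sup hD₀t, f, fun z w hz hw => hf z w (hnear z hz) (hnear w hw)⟩

end BMG
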