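import Pool.Agent.Lib.MP_a325a5_ag.G.Esc

/-! Lemma 6.2 near a fixed D.  E = the finite set of all w in CT with log-vector on one of the lines ℝ D_k (NAc).  N = |E| + |Z| + 1 (Z from escape),
κ in (0, 1/2) with 2 κ ≤ ε N, R from escape.  K' = {w in CT : 1/R ≤ |w_j| ≤ R, ‖w - e‖ ≥ κ for e in E} is compact (closed conditions: zeros of polynomials;
bounded).  For every k the function inf over ρ of max_j |log|w_j| - ρ D_kj| is positive and continuous on K', so ≥ 3δ with 0 < δ < 1; η (log R + 1) ≤ δ.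
(Or by sequences: if no δ works there are w_n in K', ρ_n bounded, a limit w in K' on the line.)  So every w in the union of the Near sets is κ-near some e in E,
or |w_0| ≥ 1/κ, or |w_0 - b| ≤ κ with b in Z; f = this label.  Same label: |z_0 - w_0| ≤ 2κ, or |z_0 - w_0| ≤ |z_0| + |w_0| ≤ 2 κ |z_0| |w_0|. -/

open NumberField

namespace BMG

/-- the compact part -/
private def covFK {L Ω : Type} [Field L] [Field Ω] [Algebra L Ω] (x : Fin 3 → Ω) (τ : L →+* ℂ)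
    (R κ : ℝ) (E : Finset (Fin 3 → ℂ)) : Set (Fin 3 → ℂ) :=
  {w | (∀ j, 1 / R ≤ ‖w j‖) ∧ (∀ j, ‖w j‖ ≤ R) ∧
    (∀ p : MvPolynomial (Fin 3) L, MvPolynomial.aeval x p = 0 → MvPolynomial.eval₂ τ w p = 0) ∧
    ∀ e ∈ E, κ ≤ ‖w - e‖}

private theorem covFK_compact {L Ω : Type} [Field L] [Field Ω] [Algebra L Ω] (x : Fin 3 → Ω)
    (τ : L →+* ℂ) {R : ℝ} (hR : 2 ≤ R) (κ : ℝ) (E : Finset (Fin 3 → ℂ)) :
    IsCompact (covFK x τ R κ E) := by
  refine Metric.isCompact_of_isClosed_isBounded ?_ ?_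
  · have h1 : IsClosed {w : Fin 3 → ℂ | ∀ j, 1 / R ≤ ‖w j‖} := by
      simp only [Set.setOf_forall]
      exact isClosed_iInter fun j => isClosed_le continuous_const (continuous_apply j).norm
    have h2 : IsClosed {w : Fin 3 → ℂ | ∀ j, ‖w j‖ ≤ R} := by
      simp only [Set.setOf_forall]
      exact isClosed_iInter fun j => isClosed_le (continuous_apply j).norm continuous_const
    have h3 : IsClosed {w : Fin 3 → ℂ | ∀ p : MvPolynomial (Fin 3) L,
        MvPolynomial.aeval x p = 0 → MvPolynomial.eval₂ τ w p = 0} := by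
      simp only [Set.setOf_forall]
      refine isClosed_iInter fun p => isClosed_iInter fun _ => ?_
      have h4 : Continuous fun w : Fin 3 → ℂ => MvPolynomial.eval₂ τ w p := by
        simp only [MvPolynomial.eval₂_eq_eval_map]
        exact MvPolynomial.continuous_eval _
      exact isClosed_eq h4 continuous_const
    have h4 : IsClosed {w : Fin 3 → ℂ | ∀ e ∈ E, κ ≤ ‖w - e‖} := by
      simp only [Set.setOf_forall]
      exact isClosed_iInter fun e => isClosed_iInter fun _ =>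
        isClosed_le continuous_const (continuous_id.sub continuous_const).norm
    exact h1.inter (h2.inter (h3.inter h4))
  · refine (Metric.isBounded_closedBall (x := (0 : Fin 3 → ℂ)) (r := R)).subset ?_
    rintro w ⟨-, hw, -⟩
    rw [mem_closedBall_zero_iff, pi_norm_le_iff_of_nonneg (by linarith)]
    exact hw

private theorem covFK_CT {L Ω : Type} [Field L] [Field Ω] [Algebra L Ω] {x : Fin 3 → Ω}
    {τ : L →+* ℂ} {R : ℝ} (hR : 2 ≤ R) {κ : ℝ} {E : Finset (Fin 3 → ℂ)} {w : Fin 3 → ℂ}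
    (h : w ∈ covFK x τ R κ E) : w ∈ CT L x τ := by
  refine ⟨fun j h0 => ?_, h.2.2.1⟩
  have h1 := h.1 j
  rw [h0, norm_zero] at h1
  have : 0 < 1 / R := by positivity
  linarith

/-- points of the box have bounded logarithms -/
private theorem covF_log {R : ℝ} (hR : 2 ≤ R) {w : Fin 3 → ℂ} (h1 : ∀ j, 1 / R ≤ ‖w j‖)
    (h2 : ∀ j, ‖w j‖ ≤ R) (j : Fin 3) : |Real.log ‖w j‖| ≤ Real.log R := by
  have hR0 : 0 < R := by linarith
  have h3 : 0 < 1 / R := by positivity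
  have h4 : 0 < ‖w j‖ := h3.trans_le (h1 j)
  rw [abs_le]
  constructor
  · have h5 := Real.log_le_log h3 (h1 j)
    rwa [one_div, Real.log_inv] at h5
  · exact Real.log_le_log h4 (h2 j)

/-- a coordinate of absolute value one -/
private theorem covF_coord {d : Fin 3 → ℝ} (hd : ‖d‖ = 1) : ∃ j, |d j| = 1 := by
  by_contra h
  push Not at h
  have h1 : ∀ j, ‖d j‖ < 1 := by
    intro j
    have h2 : ‖d j‖ ≤ 1 := hd ▸ norm_le_pi_norm d j
    exact lt_of_le_of_ne h2 (h j)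
  have h3 : ‖d‖ < 1 := (pi_norm_lt_iff one_pos).mpr h1
  linarith

/-- bound of `ρ` -/
private theorem covF_rho {R : ℝ} (hR : 2 ≤ R) {w : Fin 3 → ℂ} (h1 : ∀ j, 1 / R ≤ ‖w j‖)
    (h2 : ∀ j, ‖w j‖ ≤ R) {d : Fin 3 → ℝ} (hd : ‖d‖ = 1) {δ ρ : ℝ}
    (h : ∀ j, |Real.log ‖w j‖ - ρ * d j| ≤ δ) : |ρ| ≤ Real.log R + δ := by
  obtain ⟨j, hj⟩ := covF_coord hd
  have h3 := h j
  have h4 := covF_log hR h1 h2 j
  have h5 : |ρ| = |ρ * d j| := by rw [abs_mul, hj, mul_one]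
  rw [h5]
  have h6 : ρ * d j = Real.log ‖w j‖ - (Real.log ‖w j‖ - ρ * d j) := by ring
  rw [h6]
  exact (abs_sub _ _).trans (add_le_add h4 h3)

/-- no point of the compact part is near the line -/
private theorem covF_one {L Ω : Type} [Field L] [Field Ω] [Algebra L Ω] (x : Fin 3 → Ω)
    (τ : L →+* ℂ) {R : ℝ} (hR : 2 ≤ R) {κ : ℝ} (hκ : 0 < κ) (E : Finset (Fin 3 → ℂ))
    {D : Fin 3 → ℝ} (hD : ‖D‖ = 1)
    (hE : ∀ w ∈ CT L x τ, (∃ ρ : ℝ, ∀ j, Real.log ‖w j‖ = ρ * D j) → w ∈ E) :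
    ∃ δ : ℝ, 0 < δ ∧ δ ≤ 1 ∧ ∀ w ∈ covFK x τ R κ E, ∀ ρ : ℝ,
      ¬ ∀ j, |Real.log ‖w j‖ - ρ * D j| ≤ δ := by
  obtain ⟨M, hM⟩ : ∃ M, M = Real.log R + 1 := ⟨_, rfl⟩
  rcases (covFK x τ R κ E).eq_empty_or_nonempty with h0 | hne
  · exact ⟨1, one_pos, le_rfl, fun w hw => by rw [h0] at hw; exact hw.elim⟩
  have hMpos : 0 ≤ M := by
    rw [hM]
    have := Real.log_nonneg (by linarith : (1 : ℝ) ≤ R)
    linarith
  have hc : IsCompact (covFK x τ R κ E ×ˢ Set.Icc (-M) M) :=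
    (covFK_compact x τ hR κ E).prod isCompact_Icc
  have hne' : (covFK x τ R κ E ×ˢ Set.Icc (-M) M).Nonempty :=
    hne.prod ⟨0, by constructor <;> linarith⟩
  have hcont : ContinuousOn (fun q : (Fin 3 → ℂ) × ℝ =>
      ‖(fun j => Real.log ‖q.1 j‖ - q.2 * D j : Fin 3 → ℝ)‖)
      (covFK x τ R κ E ×ˢ Set.Icc (-M) M) := by
    refine ContinuousOn.norm (continuousOn_pi.mpr fun j => ?_)
    refine ContinuousOn.sub ?_ ?_
    · refine ContinuousOn.log ?_ ?_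
      · exact ((continuous_apply j).comp continuous_fst).norm.continuousOn
      · rintro ⟨w, ρ⟩ ⟨hw, -⟩
        have h1 : 1 / R ≤ ‖w j‖ := hw.1 j
        have h2 : 0 < 1 / R := by positivity
        exact (h2.trans_le h1).ne'
    · exact (continuous_snd.mul continuous_const).continuousOn
  obtain ⟨⟨w0, ρ0⟩, ⟨hw0, hρ0⟩, hmin⟩ := hc.exists_isMinOn hne' hcont
  obtain ⟨μ, hμ⟩ : ∃ μ, μ = ‖(fun j => Real.log ‖w0 j‖ - ρ0 * D j : Fin 3 → ℝ)‖ := ⟨_, rfl⟩
  have hμ0 : 0 < μ := by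
    rcases (norm_nonneg (fun j => Real.log ‖w0 j‖ - ρ0 * D j : Fin 3 → ℝ)).eq_or_lt with h | h
    · exfalso
      have h1 : (fun j => Real.log ‖w0 j‖ - ρ0 * D j : Fin 3 → ℝ) = 0 := norm_eq_zero.mp h.symm
      have h2 : w0 ∈ E := hE w0 (covFK_CT hR hw0) ⟨ρ0, fun j => by
        have := congrFun h1 j
        simp only [Pi.zero_apply] at this
        linarith⟩
      have h3 := hw0.2.2.2 w0 h2
      rw [sub_self, norm_zero] at h3
      linarith
    · rw [hμ]; exact h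
  refine ⟨min μ 1 / 2, by positivity, ?_, ?_⟩
  · have := min_le_right μ 1
    linarith
  · intro w hw ρ hρ
    have hle1 : min μ 1 / 2 ≤ 1 := by
      have := min_le_right μ 1
      linarith
    have h1 := covF_rho hR hw.1 hw.2.1 hD hρ
    have h2 : |ρ| ≤ M := by rw [hM]; linarith
    have h3 : ((w, ρ) : (Fin 3 → ℂ) × ℝ) ∈ covFK x τ R κ E ×ˢ Set.Icc (-M) M :=
      ⟨hw, abs_le.mp h2⟩
    have h4 : μ ≤ ‖(fun j => Real.log ‖w j‖ - ρ * D j : Fin 3 → ℝ)‖ := by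
      rw [hμ]
      exact isMinOn_iff.mp hmin _ h3
    have h5 : ‖(fun j => Real.log ‖w j‖ - ρ * D j : Fin 3 → ℝ)‖ ≤ min μ 1 / 2 := by
      rw [pi_norm_le_iff_of_nonneg (by positivity)]
      exact hρ
    have h6 := min_le_left μ 1
    have h7 : 0 < min μ 1 := lt_min hμ0 one_pos
    linarith

theorem covF {L Ω : Type} [Field L] [CharZero L] [Field Ω] [Algebra L Ω] {x : Fin 3 → Ω}
    (hx : Crv L x) (τ : L →+* ℂ) (hNA : NAc L x τ) (ι : Type) [Fintype ι]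
    (D : ι → Fin 3 → ℝ) (hD : ∀ k, ‖D k‖ = 1) (ε : ℕ → ℝ) (hε : ∀ n, 0 < ε n) :
    ∃ (N : ℕ) (δ η : ℝ), 0 < δ ∧ 0 < η ∧ ∀ d : ι → Fin 3 → ℝ, (∀ k, ‖d k‖ = 1) →
      (∀ k, ‖d k - D k‖ < η) → ∃ f : (Fin 3 → ℂ) → Fin N, ∀ z w : Fin 3 → ℂ,
        (∃ k, NearG L x τ δ (d k) z) → (∃ k, NearG L x τ δ (d k) w) → f z = f w →
        ‖z 0 - w 0‖ ≤ ε N * (max 1 ‖z 0‖ * max 1 ‖w 0‖) := by
  classical
  obtain ⟨Z, hZ⟩ := escape hx τ
  have hDne : ∀ k, D k ≠ 0 := by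
    intro k h
    have := hD k
    rw [h, norm_zero] at this
    exact zero_ne_one this
  have hfin : (⋃ k, {w | w ∈ CT L x τ ∧ ∃ ρ : ℝ, ∀ j, Real.log ‖w j‖ = ρ * D k j}).Finite :=
    Set.finite_iUnion fun k => hNA (D k) (hDne k)
  obtain ⟨E, hE⟩ : ∃ E : Finset (Fin 3 → ℂ), E = hfin.toFinset := ⟨_, rfl⟩
  have hmemE : ∀ k, ∀ w ∈ CT L x τ, (∃ ρ : ℝ, ∀ j, Real.log ‖w j‖ = ρ * D k j) → w ∈ E := by
    intro k w hw hρ
    rw [hE, Set.Finite.mem_toFinset, Set.mem_iUnion]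
    exact ⟨k, hw, hρ⟩
  obtain ⟨N, hN⟩ : ∃ N, N = Fintype.card (Option (E ⊕ Z)) := ⟨_, rfl⟩
  obtain ⟨κ, hκ0, hκ1, hκε⟩ : ∃ κ : ℝ, 0 < κ ∧ κ < 1 ∧ 2 * κ ≤ ε N := by
    refine ⟨min (ε N) 1 / 2, ?_, ?_, ?_⟩
    · have := lt_min (hε N) one_pos
      positivity
    · have := min_le_right (ε N) 1
      linarith
    · have := min_le_left (ε N) 1
      linarith
  obtain ⟨R, hR, hesc⟩ := hZ κ hκ0 hκ1
  have hlogR : 0 ≤ Real.log R := Real.log_nonneg (by linarith)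
  choose δ' hδ0 hδ1 hδ using fun k => covF_one x τ hR hκ0 E (hD k) (hmemE k)
  -- a common `δ`
  obtain ⟨δ, hδpos, hδle⟩ : ∃ δ : ℝ, 0 < δ ∧ ∀ k, 2 * δ ≤ δ' k := by
    rcases isEmpty_or_nonempty ι with hι | hι
    · exact ⟨1, one_pos, fun k => hι.elim k⟩
    · refine ⟨Finset.univ.inf' Finset.univ_nonempty δ' / 2, ?_, fun k => ?_⟩
      · have : 0 < Finset.univ.inf' Finset.univ_nonempty δ' :=
          (Finset.lt_inf'_iff _).mpr fun k _ => hδ0 k
        positivity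
      · have := Finset.inf'_le δ' (Finset.mem_univ k)
        linarith
  refine ⟨N, δ, δ / (Real.log R + δ), hδpos, by positivity, fun d hd hdD => ?_⟩
  -- every near point has one of the properties
  have key : ∀ w : Fin 3 → ℂ, (∃ k, NearG L x τ δ (d k) w) → (∃ e ∈ E, ‖w - e‖ < κ) ∨
      (1 / κ ≤ ‖w 0‖ ∨ ∃ b ∈ Z, ‖w 0 - b‖ ≤ κ) := by
    rintro w ⟨k, hw, ρ, hρ⟩
    by_cases hbox : ∃ j, R < ‖w j‖ ∨ ‖w j‖ < 1 / R
    · exact Or.inr (hesc w hw hbox)
    push Not at hbox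
    by_contra hcon
    push Not at hcon
    have h1 : ∀ j, 1 / R ≤ ‖w j‖ := fun j => (hbox j).2
    have h2 : ∀ j, ‖w j‖ ≤ R := fun j => (hbox j).1
    have hK : w ∈ covFK x τ R κ E := ⟨h1, h2, hw.2, hcon.1⟩
    have hrho := covF_rho hR h1 h2 (hd k) hρ
    refine hδ k w hK ρ fun j => ?_
    have h3 : Real.log ‖w j‖ - ρ * D k j = (Real.log ‖w j‖ - ρ * d k j) +
        ρ * (d k j - D k j) := by ring
    have h4 : |d k j - D k j| ≤ δ / (Real.log R + δ) := by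
      have := norm_le_pi_norm (d k - D k) j
      rw [Pi.sub_apply, Real.norm_eq_abs] at this
      exact this.trans (hdD k).le
    have h5 : |ρ * (d k j - D k j)| ≤ δ := by
      rw [abs_mul]
      calc |ρ| * |d k j - D k j| ≤ (Real.log R + δ) * (δ / (Real.log R + δ)) :=
            mul_le_mul hrho h4 (abs_nonneg _) (by positivity)
        _ = δ := by field_simp
    rw [h3]
    calc |(Real.log ‖w j‖ - ρ * d k j) + ρ * (d k j - D k j)|
        ≤ |Real.log ‖w j‖ - ρ * d k j| + |ρ * (d k j - D k j)| := abs_add_le _ _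
      _ ≤ δ + δ := add_le_add (hρ j) h5
      _ ≤ δ' k := by have := hδle k; linarith
  -- the labels
  let lab : (Fin 3 → ℂ) → Option (E ⊕ Z) := fun w =>
    if h : ∃ e ∈ E, ‖w - e‖ < κ then some (Sum.inl ⟨h.choose, h.choose_spec.1⟩)
    else if h : ∃ b ∈ Z, ‖w 0 - b‖ ≤ κ then some (Sum.inr ⟨h.choose, h.choose_spec.1⟩)
    else none
  have labE : ∀ w e, lab w = some (Sum.inl e) → ‖w - e.1‖ < κ := by
    intro w e h
    simp only [lab] at h
    split_ifs at h with h1 h2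
    · have h3 := h1.choose_spec.2
      rw [Option.some.injEq, Sum.inl.injEq] at h
      rw [← h]
      exact h3
    · exact absurd h (by simp)
  have labZ : ∀ w b, lab w = some (Sum.inr b) → ‖w 0 - b.1‖ ≤ κ := by
    intro w e h
    simp only [lab] at h
    split_ifs at h with h1 h2
    · exact absurd h (by simp)
    · have h3 := h2.choose_spec.2
      rw [Option.some.injEq, Sum.inr.injEq] at h
      rw [← h]
      exact h3
  have labN : ∀ w, lab w = none → ¬ (∃ e ∈ E, ‖w - e‖ < κ) ∧ ¬ ∃ b ∈ Z, ‖w 0 - b‖ ≤ κ := by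
    intro w h
    simp only [lab] at h
    split_ifs at h with h1 h2
    exact ⟨h1, h2⟩
  have eqv : Option (E ⊕ Z) ≃ Fin N := Fintype.equivFinOfCardEq hN.symm
  refine ⟨fun w => eqv (lab w), fun z w hz hw hzw => ?_⟩
  have hzw' : lab z = lab w := eqv.injective hzw
  have hmax : 1 ≤ max 1 ‖z 0‖ * max 1 ‖w 0‖ :=
    one_le_mul_of_one_le_of_one_le (le_max_left _ _) (le_max_left _ _)
  have hsmall : ‖z 0 - w 0‖ ≤ 2 * κ → ‖z 0 - w 0‖ ≤ ε N * (max 1 ‖z 0‖ * max 1 ‖w 0‖) := by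
    intro h
    calc ‖z 0 - w 0‖ ≤ 2 * κ := h
      _ ≤ ε N := hκε
      _ = ε N * 1 := (mul_one _).symm
      _ ≤ _ := mul_le_mul_of_nonneg_left hmax (hε N).le
  rcases hlz : lab z with _ | (e | b)
  · have hlw : lab w = none := by rw [← hzw', hlz]
    obtain ⟨z1, z2⟩ := labN z hlz
    obtain ⟨w1, w2⟩ := labN w hlw
    have z3 : 1 / κ ≤ ‖z 0‖ := by
      rcases key z hz with h | h | h
      · exact absurd h z1
      · exact h
      · exact absurd h z2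
    have w3 : 1 / κ ≤ ‖w 0‖ := by
      rcases key w hw with h | h | h
      · exact absurd h w1
      · exact h
      · exact absurd h w2
    have z4 : 1 ≤ κ * ‖z 0‖ := by
      rw [div_le_iff₀ hκ0] at z3
      linarith
    have w4 : 1 ≤ κ * ‖w 0‖ := by
      rw [div_le_iff₀ hκ0] at w3
      linarith
    have h1 : ‖z 0‖ * ‖w 0‖ ≤ max 1 ‖z 0‖ * max 1 ‖w 0‖ :=
      mul_le_mul (le_max_right _ _) (le_max_right _ _) (norm_nonneg _) (by positivity)
    calc ‖z 0 - w 0‖ ≤ ‖z 0‖ + ‖w 0‖ := norm_sub_le _ _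
      _ ≤ ‖z 0‖ * (κ * ‖w 0‖) + (κ * ‖z 0‖) * ‖w 0‖ := by
          refine add_le_add ?_ ?_
          · exact le_mul_of_one_le_right (norm_nonneg _) w4
          · exact le_mul_of_one_le_left (norm_nonneg _) z4
      _ = 2 * κ * (‖z 0‖ * ‖w 0‖) := by ring
      _ ≤ ε N * (max 1 ‖z 0‖ * max 1 ‖w 0‖) :=
          mul_le_mul hκε h1 (by positivity) (hε N).le
  · have hlw : lab w = some (Sum.inl e) := by rw [← hzw', hlz]
    have z1 := labE z e hlz
    have w1 := labE w e hlw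
    refine hsmall ?_
    have z2 : ‖z 0 - e.1 0‖ ≤ ‖z - e.1‖ := norm_le_pi_norm (z - e.1) 0
    have w2 : ‖w 0 - e.1 0‖ ≤ ‖w - e.1‖ := norm_le_pi_norm (w - e.1) 0
    have h1 : z 0 - w 0 = (z 0 - e.1 0) - (w 0 - e.1 0) := by ring
    rw [h1]
    exact (norm_sub_le _ _).trans (by linarith)
  · have hlw : lab w = some (Sum.inr b) := by rw [← hzw', hlz]
    have z1 := labZ z b hlz
    have w1 := labZ w b hlw
    refine hsmall ?_
    have h1 : z 0 - w 0 = (z 0 - b.1) - (w 0 - b.1) := by ring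
    rw [h1]
    exact (norm_sub_le _ _).trans (by linarith)

end BMG
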