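import Pool.Agent.Lib.MP_a325a5_ag.G.BmB

/-! Elements of the division hull: DE x θ z says z ^ Δ = ∏ x ^ (Δ θ) for some Δ > 0 with Δ θ integral. -/

open NumberField

namespace BMG

variable {k Ω : Type} [Field k] [CharZero k] [Field Ω] [Algebra k Ω] {x : Fin 3 → Ω}

omit [CharZero k] [Algebra k Ω] [Field k] in
theorem DE_one (x : Fin 3 → Ω) : DE x 0 1 :=
  ⟨one_ne_zero, 1, one_pos, 0, fun j => by simp, by simp⟩

omit [CharZero k] [Algebra k Ω] [Field k] in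
theorem DE_mon (hx : ∀ j, x j ≠ 0) (m : Fin 3 → ℤ) :
    DE x (fun j => (m j : ℚ)) (∏ j, x j ^ m j) :=
  ⟨Finset.prod_ne_zero_iff.mpr fun j _ => zpow_ne_zero _ (hx j), 1, one_pos, m,
    fun j => by simp, by simp⟩

omit [CharZero k] [Algebra k Ω] [Field k] in
theorem DEb_mult {θ : Fin 3 → ℚ} {z : Ω} (h : DE x θ z) : ∃ Δ : ℕ, 0 < Δ ∧ ∀ n : ℕ,
    ∃ a : Fin 3 → ℤ, (∀ j, (a j : ℚ) = ((n * Δ : ℕ) : ℚ) * θ j) ∧
      z ^ (n * Δ) = ∏ j, x j ^ a j := by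
  obtain ⟨_, Δ, hΔ, a, ha, he⟩ := h
  refine ⟨Δ, hΔ, fun n => ⟨fun j => (n : ℤ) * a j, fun j => ?_, ?_⟩⟩
  · push_cast
    rw [ha j]
    ring
  · rw [mon_smul, ← he, ← pow_mul, mul_comm]

omit [CharZero k] [Algebra k Ω] [Field k] in
theorem DE_mul (hx : ∀ j, x j ≠ 0) {θ θ' : Fin 3 → ℚ} {z z' : Ω} (h : DE x θ z)
    (h' : DE x θ' z') : DE x (θ + θ') (z * z') := by
  obtain ⟨Δ, hΔ, hm⟩ := DEb_mult h
  obtain ⟨Δ', hΔ', hm'⟩ := DEb_mult h'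
  obtain ⟨a, ha, he⟩ := hm Δ'
  obtain ⟨a', ha', he'⟩ := hm' Δ
  rw [mul_comm Δ Δ'] at ha' he'
  refine ⟨mul_ne_zero h.1 h'.1, Δ' * Δ, Nat.mul_pos hΔ' hΔ, a + a', fun j => ?_, ?_⟩
  · rw [Pi.add_apply, Pi.add_apply, Int.cast_add, ha j, ha' j]
    ring
  · rw [mul_pow, he, he', ← mon_add hx]

omit [CharZero k] [Algebra k Ω] [Field k] in
theorem DE_inv {θ : Fin 3 → ℚ} {z : Ω} (h : DE x θ z) : DE x (-θ) z⁻¹ := by
  obtain ⟨hz, Δ, hΔ, a, ha, he⟩ := h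
  refine ⟨inv_ne_zero hz, Δ, hΔ, -a, fun j => ?_, ?_⟩
  · rw [Pi.neg_apply, Pi.neg_apply, Int.cast_neg, ha j]
    ring
  · rw [inv_pow, he, ← mon_neg]

omit [CharZero k] [Algebra k Ω] [Field k] in
theorem DE_div (hx : ∀ j, x j ≠ 0) {θ θ' : Fin 3 → ℚ} {z z' : Ω} (h : DE x θ z)
    (h' : DE x θ' z') : DE x (θ - θ') (z / z') := by
  rw [sub_eq_add_neg, div_eq_mul_inv]
  exact DE_mul hx h (DE_inv h')

omit [CharZero k] [Algebra k Ω] [Field k] in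
theorem DE_pow {θ : Fin 3 → ℚ} {z : Ω} (h : DE x θ z) (n : ℕ) :
    DE x (fun j => n * θ j) (z ^ n) := by
  obtain ⟨hz, Δ, hΔ, a, ha, he⟩ := h
  refine ⟨pow_ne_zero _ hz, Δ, hΔ, fun j => (n : ℤ) * a j, fun j => ?_, ?_⟩
  · push_cast
    rw [ha j]
    ring
  · rw [mon_smul, ← he, ← pow_mul, ← pow_mul, mul_comm]

omit [CharZero k] [Algebra k Ω] [Field k] in
theorem DE_root (x : Fin 3 → Ω) {u : Ω} {m : ℕ} (hm : 0 < m) (hu : u ^ m = 1) : DE x 0 u := by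
  refine ⟨?_, m, hm, 0, fun j => by simp, by simpa using hu⟩
  rintro rfl
  rw [zero_pow hm.ne'] at hu
  exact zero_ne_one hu

omit [CharZero k] [Algebra k Ω] [Field k] in
theorem DE_zero {z : Ω} (h : DE x 0 z) : ∃ m : ℕ, 0 < m ∧ z ^ m = 1 := by
  obtain ⟨_, Δ, hΔ, a, ha, he⟩ := h
  refine ⟨Δ, hΔ, ?_⟩
  rw [he]
  refine Finset.prod_eq_one fun j _ => ?_
  have h := ha j
  rw [Pi.zero_apply, mul_zero] at h
  have h0 : a j = 0 := by exact_mod_cast h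
  rw [h0, zpow_zero]

omit [CharZero k] in
theorem DEb_mon_one (hx : Crv k x) (a : Fin 3 → ℤ) (h : IsAlgebraic k (∏ j, x j ^ a j)) :
    a = 0 := by
  by_contra h0
  exact hx.tr a h0 h

omit [CharZero k] in
theorem DE_uniq (hx : Crv k x) {θ θ' : Fin 3 → ℚ} {z : Ω} (h : DE x θ z) (h' : DE x θ' z) :
    θ = θ' := by
  obtain ⟨_, Δ, hΔ, a, ha, he⟩ := DE_div hx.ne h h'
  rw [div_self h.1, one_pow] at he
  have h0 : a = 0 := by
    refine DEb_mon_one hx a ?_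
    rw [← he]
    exact isAlgebraic_one
  funext j
  have h1 := ha j
  rw [h0, Pi.zero_apply, Int.cast_zero, Pi.sub_apply] at h1
  have h2 : (Δ : ℚ) ≠ 0 := Nat.cast_ne_zero.mpr hΔ.ne'
  have h3 := (mul_eq_zero.mp h1.symm).resolve_left h2
  linarith

omit [CharZero k] in
theorem DE_tr (hx : Crv k x) {θ : Fin 3 → ℚ} {z : Ω} (h : DE x θ z) (hθ : θ ≠ 0) :
    Transcendental k z := by
  intro hz
  obtain ⟨_, Δ, hΔ, a, ha, he⟩ := h
  have h0 : a = 0 := by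
    refine DEb_mon_one hx a ?_
    rw [← he]
    exact hz.pow Δ
  apply hθ
  funext j
  have h1 := ha j
  rw [h0, Pi.zero_apply, Int.cast_zero] at h1
  have h2 : (Δ : ℚ) ≠ 0 := Nat.cast_ne_zero.mpr hΔ.ne'
  exact (mul_eq_zero.mp h1.symm).resolve_left h2

omit [CharZero k] [Algebra k Ω] [Field k] in
theorem DE_of_pow {z : Ω} (hz : z ≠ 0) {N : ℕ} (hN : 0 < N) (a : Fin 3 → ℤ)
    (h : z ^ N = ∏ j, x j ^ a j) : DE x (fun j => (a j : ℚ) / N) z := by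
  refine ⟨hz, N, hN, a, fun j => ?_, h⟩
  have h2 : (N : ℚ) ≠ 0 := Nat.cast_ne_zero.mpr hN.ne'
  field_simp

theorem qn_add_le (θ θ' : Fin 3 → ℚ) : qn (θ + θ') ≤ qn θ + qn θ' := by
  unfold qn
  rw [← Finset.sum_add_distrib]
  exact Finset.sum_le_sum fun j _ => abs_add_le _ _

theorem qn_neg (θ : Fin 3 → ℚ) : qn (-θ) = qn θ := by
  unfold qn
  exact Finset.sum_congr rfl fun j _ => abs_neg _

theorem qn_eq_zero {θ : Fin 3 → ℚ} : qn θ = 0 ↔ θ = 0 := by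
  unfold qn
  rw [Finset.sum_eq_zero_iff_of_nonneg fun j _ => abs_nonneg _]
  constructor
  · intro h
    funext j
    exact abs_eq_zero.mp (h j (Finset.mem_univ j))
  · rintro rfl j _
    simp

omit [CharZero k] in
theorem root_k [IsAlgClosed k] {u : Ω} {m : ℕ} (hm : 0 < m) (hu : u ^ m = 1) :
    ∃ c : k, c ≠ 0 ∧ algebraMap k Ω c = u := by
  have h1 : IsIntegral k u := by
    refine IsIntegral.of_pow hm ?_
    rw [hu]
    exact isIntegral_one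
  have h2 : (minpoly k u).degree = 1 :=
    IsAlgClosed.degree_eq_one_of_irreducible k (minpoly.irreducible h1)
  obtain ⟨c, hc⟩ := minpoly.mem_range_of_degree_eq_one k u h2
  refine ⟨c, ?_, hc⟩
  rintro rfl
  rw [map_zero] at hc
  rw [← hc, zero_pow hm.ne'] at hu
  exact zero_ne_one hu

end BMG
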