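import Pool.Agent.Lib.MP_a325a5_ag.G.BmB
import Pool.Agent.Lib.MP_a325a5_ag.G.ExPol

/-! Lemma 1.1 of GZ_PROOF.md: the dimension of the spaces Bm grows at most linearly. -/

open NumberField

namespace BMG

open Polynomial in
/-- span of the `u ^ i * y ^ a * w`, `i ≤ N`, `a < n` -/
private def SS (k : Type) {Ω : Type} [Field k] [Field Ω] [Algebra k Ω] (u y w : Ω) (n N : ℕ) :
    Submodule k Ω :=
  Submodule.span k {g | ∃ i a : ℕ, i ≤ N ∧ a < n ∧ g = u ^ i * y ^ a * w}

private def VV (k : Type) {Ω : Type} [Field k] [Field Ω] [Algebra k Ω] (u y z : Ω) (n m N : ℕ) :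
    Submodule k Ω :=
  Submodule.span k {g | ∃ i a b : ℕ, i ≤ N ∧ a < n ∧ b < m ∧ g = u ^ i * y ^ a * z ^ b}

section
variable {k Ω : Type} [Field k] [Field Ω] [Algebra k Ω]

open Polynomial

private theorem hil_pol (u y w : Ω) (n N D : ℕ) (p : k[X]) (hp : p.natDegree ≤ D) (i a : ℕ)
    (hi : i ≤ N) (ha : a < n) : aeval u p * (u ^ i * y ^ a * w) ∈ SS k u y w n (N + D) := by
  rw [aeval_eq_sum_range, Finset.sum_mul]
  refine Submodule.sum_mem _ fun s hs => ?_
  have h : (p.coeff s • u ^ s) * (u ^ i * y ^ a * w) =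
      p.coeff s • (u ^ (s + i) * y ^ a * w) := by
    rw [smul_mul_assoc, pow_add]
    congr 1
    ring
  rw [h]
  refine Submodule.smul_mem _ _ (Submodule.subset_span ⟨s + i, a, ?_, ha, rfl⟩)
  have := Finset.mem_range.mp hs
  omega

private theorem hil_root (u y : Ω) (P : k[X][X]) (hP : aevalAeval u y P = 0) :
    ∑ i ∈ Finset.range (P.natDegree + 1), aeval u (P.coeff i) * y ^ i = 0 := by
  have h : aevalAeval u y P = ∑ i ∈ Finset.range (P.natDegree + 1),
      aeval u (P.coeff i) * y ^ i := by
    conv_lhs => rw [P.as_sum_range_C_mul_X_pow]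
    rw [map_sum]
    refine Finset.sum_congr rfl fun i _ => ?_
    rw [map_mul, map_pow, aevalAeval_C, aevalAeval_Y]
  rw [← h, hP]

private theorem hil_up (u y w : Ω) (P : k[X][X]) (hP : aevalAeval u y P = 0) (D N : ℕ)
    (hD : ∀ i, (P.coeff i).natDegree ≤ D) (i a : ℕ) (hi : i ≤ N) (ha : a < P.natDegree) :
    aeval u (P.coeff P.natDegree) * y * (u ^ i * y ^ a * w) ∈
      SS k u y w P.natDegree (N + D) := by
  by_cases h : a + 1 < P.natDegree
  · have h1 : aeval u (P.coeff P.natDegree) * y * (u ^ i * y ^ a * w) =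
        aeval u (P.coeff P.natDegree) * (u ^ i * y ^ (a + 1) * w) := by ring
    rw [h1]
    exact hil_pol u y w _ N D _ (hD _) i (a + 1) hi h
  · have h2 : a + 1 = P.natDegree := by omega
    have h3 := hil_root u y P hP
    rw [Finset.sum_range_succ] at h3
    have h4 : aeval u (P.coeff P.natDegree) * y * (u ^ i * y ^ a * w) =
        -∑ s ∈ Finset.range P.natDegree, aeval u (P.coeff s) * (u ^ i * y ^ s * w) := by
      have h5 : aeval u (P.coeff P.natDegree) * y ^ P.natDegree =
          -∑ s ∈ Finset.range P.natDegree, aeval u (P.coeff s) * y ^ s := by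
        linear_combination h3
      have h6 : aeval u (P.coeff P.natDegree) * y * (u ^ i * y ^ a * w) =
          (aeval u (P.coeff P.natDegree) * y ^ P.natDegree) * (u ^ i * w) := by
        rw [← h2]
        ring
      rw [h6, h5, neg_mul, Finset.sum_mul]
      congr 1
      refine Finset.sum_congr rfl fun s _ => ?_
      ring
    rw [h4]
    refine Submodule.neg_mem _ (Submodule.sum_mem _ fun s hs => ?_)
    exact hil_pol u y w _ N D _ (hD _) i s hi (Finset.mem_range.mp hs)

private theorem hil_down (u y w : Ω) (hy : y ≠ 0) (P : k[X][X]) (hP : aevalAeval u y P = 0)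
    (D N : ℕ) (hD : ∀ i, (P.coeff i).natDegree ≤ D) (i a : ℕ) (hi : i ≤ N)
    (ha : a < P.natDegree) :
    aeval u (P.coeff 0) * y⁻¹ * (u ^ i * y ^ a * w) ∈ SS k u y w P.natDegree (N + D) := by
  rcases Nat.eq_zero_or_pos a with h | h
  · subst h
    have h3 := hil_root u y P hP
    rw [Finset.sum_range_succ'] at h3
    have h5 : aeval u (P.coeff 0) * y⁻¹ =
        -∑ s ∈ Finset.range P.natDegree, aeval u (P.coeff (s + 1)) * y ^ s := by
      have h6 : aeval u (P.coeff 0) =
          -∑ s ∈ Finset.range P.natDegree, aeval u (P.coeff (s + 1)) * y ^ (s + 1) := by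
        rw [pow_zero, mul_one] at h3
        linear_combination h3
      rw [h6, neg_mul, Finset.sum_mul]
      congr 1
      refine Finset.sum_congr rfl fun s _ => ?_
      rw [pow_succ]
      field_simp
    rw [h5, neg_mul, Finset.sum_mul]
    refine Submodule.neg_mem _ (Submodule.sum_mem _ fun s hs => ?_)
    have h7 : aeval u (P.coeff (s + 1)) * y ^ s * (u ^ i * y ^ 0 * w) =
        aeval u (P.coeff (s + 1)) * (u ^ i * y ^ s * w) := by ring
    rw [h7]
    exact hil_pol u y w _ N D _ (hD _) i s hi (Finset.mem_range.mp hs)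
  · obtain ⟨b, rfl⟩ : ∃ b, a = b + 1 := ⟨a - 1, by omega⟩
    have h1 : aeval u (P.coeff 0) * y⁻¹ * (u ^ i * y ^ (b + 1) * w) =
        aeval u (P.coeff 0) * (u ^ i * y ^ b * w) := by
      rw [pow_succ]
      field_simp
    rw [h1]
    exact hil_pol u y w _ N D _ (hD _) i b hi (by omega)

private theorem hil_mono (u y z : Ω) (n m : ℕ) {N N' : ℕ} (h : N ≤ N') :
    VV k u y z n m N ≤ VV k u y z n m N' := by
  refine Submodule.span_mono ?_
  rintro g ⟨i, a, b, hi, ha, hb, rfl⟩
  exact ⟨i, a, b, hi.trans h, ha, hb, rfl⟩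

private theorem hil_ss1 (u y z : Ω) (n m N b : ℕ) (hb : b < m) :
    SS k u y (z ^ b) n N ≤ VV k u y z n m N := by
  refine Submodule.span_mono ?_
  rintro g ⟨i, a, hi, ha, rfl⟩
  exact ⟨i, a, b, hi, ha, hb, rfl⟩

private theorem hil_ss2 (u y z : Ω) (n m N a : ℕ) (ha : a < n) :
    SS k u z (y ^ a) m N ≤ VV k u y z n m N := by
  refine Submodule.span_mono ?_
  rintro g ⟨i, b, hi, hb, rfl⟩
  exact ⟨i, a, b, hi, ha, hb, by ring⟩

/-- to check that multiplication by `g` maps `V N` to `V N'` it is enough to look at generators -/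
private theorem hil_gen (u y z g : Ω) (n m N N' : ℕ)
    (h : ∀ i a b : ℕ, i ≤ N → a < n → b < m → g * (u ^ i * y ^ a * z ^ b) ∈
      VV k u y z n m N') (v : Ω) (hv : v ∈ VV k u y z n m N) : g * v ∈ VV k u y z n m N' := by
  induction hv using Submodule.span_induction with
  | mem v hv =>
    obtain ⟨i, a, b, hi, ha, hb, rfl⟩ := hv
    exact h i a b hi ha hb
  | zero =>
    rw [mul_zero]
    exact Submodule.zero_mem _
  | add v w _ _ hv hw =>
    rw [mul_add]
    exact Submodule.add_mem _ hv hw
  | smul c v _ hv =>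
    rw [mul_smul_comm]
    exact Submodule.smul_mem _ _ hv

private theorem hil_vpol (u y z : Ω) (n m N D : ℕ) (p : k[X]) (hp : p.natDegree ≤ D) (v : Ω)
    (hv : v ∈ VV k u y z n m N) : aeval u p * v ∈ VV k u y z n m (N + D) := by
  refine hil_gen u y z _ n m N (N + D) (fun i a b hi ha hb => ?_) v hv
  exact hil_ss1 u y z n m _ b hb (hil_pol u y (z ^ b) n N D p hp i a hi ha)

private theorem hil_fin (u y z : Ω) (n m N : ℕ) : FiniteDimensional k (VV k u y z n m N) ∧
    Module.finrank k (VV k u y z n m N) ≤ n * m * (N + 1) := by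
  classical
  let s : Finset Ω := (Finset.univ : Finset (Fin (N + 1) × Fin n × Fin m)).image
    fun t => u ^ (t.1 : ℕ) * y ^ (t.2.1 : ℕ) * z ^ (t.2.2 : ℕ)
  have hs : VV k u y z n m N = Submodule.span k (s : Set Ω) := by
    unfold VV
    congr 1
    ext g
    constructor
    · rintro ⟨i, a, b, hi, ha, hb, rfl⟩
      exact Finset.mem_coe.mpr (Finset.mem_image.mpr
        ⟨(⟨i, Nat.lt_succ_of_le hi⟩, ⟨a, ha⟩, ⟨b, hb⟩), Finset.mem_univ _, rfl⟩)
    · intro hg
      obtain ⟨t, _, rfl⟩ := Finset.mem_image.mp (Finset.mem_coe.mp hg)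
      exact ⟨t.1, t.2.1, t.2.2, Nat.lt_succ_iff.mp t.1.2, t.2.1.2, t.2.2.2, rfl⟩
  rw [hs]
  refine ⟨FiniteDimensional.span_finset k s, (finrank_span_finset_le_card s).trans ?_⟩
  refine Finset.card_image_le.trans ?_
  rw [Finset.card_univ, Fintype.card_prod, Fintype.card_prod, Fintype.card_fin,
    Fintype.card_fin, Fintype.card_fin]
  exact le_of_eq (by ring)

end

variable {k Ω : Type} [Field k] [CharZero k] [Field Ω] [Algebra k Ω] {x : Fin 3 → Ω}

open Polynomial in
omit [CharZero k] in
private theorem hil_step (hx : ∀ j, x j ≠ 0) (P Q : k[X][X])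
    (hP : aevalAeval (x 0) (x 1) P = 0) (hQ : aevalAeval (x 0) (x 2) Q = 0) :
    ∃ D : ℕ, ∀ (N : ℕ) (v : Ω), v ∈ VV k (x 0) (x 1) (x 2) P.natDegree Q.natDegree N →
      (aeval (x 0) (X * P.coeff P.natDegree * P.coeff 0 * Q.coeff Q.natDegree * Q.coeff 0) * v ∈
        VV k (x 0) (x 1) (x 2) P.natDegree Q.natDegree (N + D)) ∧
      ∀ j, (aeval (x 0) (X * P.coeff P.natDegree * P.coeff 0 * Q.coeff Q.natDegree * Q.coeff 0) *
          (x j * v) ∈ VV k (x 0) (x 1) (x 2) P.natDegree Q.natDegree (N + D)) ∧
        (aeval (x 0) (X * P.coeff P.natDegree * P.coeff 0 * Q.coeff Q.natDegree * Q.coeff 0) *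
          ((x j)⁻¹ * v) ∈ VV k (x 0) (x 1) (x 2) P.natDegree Q.natDegree (N + D)) := by
  classical
  set u := x 0 with hu
  set y := x 1 with hy
  set z := x 2 with hz
  set lP := P.coeff P.natDegree with hlP
  set cP := P.coeff 0 with hcP
  set lQ := Q.coeff Q.natDegree with hlQ
  set cQ := Q.coeff 0 with hcQ
  set q := X * lP * cP * lQ * cQ with hq
  let D₁ : ℕ := ∑ i ∈ Finset.range (P.natDegree + 1), (P.coeff i).natDegree
  let D₂ : ℕ := ∑ i ∈ Finset.range (Q.natDegree + 1), (Q.coeff i).natDegree
  have hD₁ : ∀ i, (P.coeff i).natDegree ≤ D₁ := by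
    intro i
    by_cases h : i ≤ P.natDegree
    · exact Finset.single_le_sum (f := fun i => (P.coeff i).natDegree)
        (fun _ _ => Nat.zero_le _) (Finset.mem_range.mpr (Nat.lt_succ_of_le h))
    · rw [coeff_eq_zero_of_natDegree_lt (by omega), natDegree_zero]
      exact Nat.zero_le _
  have hD₂ : ∀ i, (Q.coeff i).natDegree ≤ D₂ := by
    intro i
    by_cases h : i ≤ Q.natDegree
    · exact Finset.single_le_sum (f := fun i => (Q.coeff i).natDegree)
        (fun _ _ => Nat.zero_le _) (Finset.mem_range.mpr (Nat.lt_succ_of_le h))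
    · rw [coeff_eq_zero_of_natDegree_lt (by omega), natDegree_zero]
      exact Nat.zero_le _
  let E : ℕ := 1 + lP.natDegree + cP.natDegree + lQ.natDegree + cQ.natDegree
  have hE : ∀ r : k[X], r.natDegree ≤ E → ∀ (N : ℕ) (v : Ω),
      v ∈ VV k u y z P.natDegree Q.natDegree (N + (D₁ + D₂)) →
      aeval u r * v ∈ VV k u y z P.natDegree Q.natDegree (N + (D₁ + D₂ + E)) := by
    intro r hr N v hv
    have := hil_vpol u y z P.natDegree Q.natDegree (N + (D₁ + D₂)) E r hr v hv
    rwa [add_assoc] at this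
  have hm : ∀ a b : k[X], (a * b).natDegree ≤ a.natDegree + b.natDegree := fun a b =>
    natDegree_mul_le
  have hX : (X : k[X]).natDegree ≤ 1 := natDegree_X_le
  have hyP : ∀ (N : ℕ) (v : Ω), v ∈ VV k u y z P.natDegree Q.natDegree N →
      aeval u lP * y * v ∈ VV k u y z P.natDegree Q.natDegree (N + (D₁ + D₂)) := by
    intro N v hv
    refine hil_gen u y z _ _ _ N _ (fun i a b hi ha hb => ?_) v hv
    have h1 := hil_up u y (z ^ b) P hP D₁ N hD₁ i a hi ha
    exact hil_mono u y z _ _ (by omega) (hil_ss1 u y z _ _ _ b hb h1)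
  have hyI : ∀ (N : ℕ) (v : Ω), v ∈ VV k u y z P.natDegree Q.natDegree N →
      aeval u cP * y⁻¹ * v ∈ VV k u y z P.natDegree Q.natDegree (N + (D₁ + D₂)) := by
    intro N v hv
    refine hil_gen u y z _ _ _ N _ (fun i a b hi ha hb => ?_) v hv
    have h1 := hil_down u y (z ^ b) (hx 1) P hP D₁ N hD₁ i a hi ha
    exact hil_mono u y z _ _ (by omega) (hil_ss1 u y z _ _ _ b hb h1)
  have hzP : ∀ (N : ℕ) (v : Ω), v ∈ VV k u y z P.natDegree Q.natDegree N →
      aeval u lQ * z * v ∈ VV k u y z P.natDegree Q.natDegree (N + (D₁ + D₂)) := by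
    intro N v hv
    refine hil_gen u y z _ _ _ N _ (fun i a b hi ha hb => ?_) v hv
    have h1 := hil_up u z (y ^ a) Q hQ D₂ N hD₂ i b hi hb
    have h2 : aeval u lQ * z * (u ^ i * y ^ a * z ^ b) =
      aeval u lQ * z * (u ^ i * z ^ b * y ^ a) := by ring
    rw [h2]
    exact hil_mono u y z _ _ (by omega) (hil_ss2 u y z _ _ _ a ha h1)
  have hzI : ∀ (N : ℕ) (v : Ω), v ∈ VV k u y z P.natDegree Q.natDegree N →
      aeval u cQ * z⁻¹ * v ∈ VV k u y z P.natDegree Q.natDegree (N + (D₁ + D₂)) := by
    intro N v hv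
    refine hil_gen u y z _ _ _ N _ (fun i a b hi ha hb => ?_) v hv
    have h1 := hil_down u z (y ^ a) (hx 2) Q hQ D₂ N hD₂ i b hi hb
    have h2 : aeval u cQ * z⁻¹ * (u ^ i * y ^ a * z ^ b) =
      aeval u cQ * z⁻¹ * (u ^ i * z ^ b * y ^ a) := by ring
    rw [h2]
    exact hil_mono u y z _ _ (by omega) (hil_ss2 u y z _ _ _ a ha h1)
  have hv0 : ∀ (N : ℕ) (v : Ω), v ∈ VV k u y z P.natDegree Q.natDegree N →
      v ∈ VV k u y z P.natDegree Q.natDegree (N + (D₁ + D₂)) := fun N v hv =>
    hil_mono u y z _ _ (by omega) hv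
  refine ⟨D₁ + D₂ + E + 1, fun N v hv => ⟨?_, ?_⟩⟩
  · refine hil_mono u y z _ _ ?_ (hE q ?_ N v (hv0 N v hv))
    · omega
    · rw [hq]
      have h1 := hm (X * lP * cP * lQ) cQ
      have h2 := hm (X * lP * cP) lQ
      have h3 := hm (X * lP) cP
      have h4 := hm X lP
      omega
  · have hq0 : q = (lP * cP * lQ * cQ) * X := by rw [hq]; ring
    have hq1 : q = (X * cP * lQ * cQ) * lP := by rw [hq]; ring
    have hq2 : q = (X * lP * lQ * cQ) * cP := by rw [hq]; ring
    have hq3 : q = (X * lP * cP * cQ) * lQ := by rw [hq]; ring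
    have hq4 : q = (X * lP * cP * lQ) * cQ := by rw [hq]
    intro j
    have hj : j = 0 ∨ j = 1 ∨ j = 2 := by fin_cases j <;> simp
    rcases hj with rfl | rfl | rfl
    · constructor
      · have h1 : aeval u q * (x 0 * v) = aeval u (q * X) * v := by
          rw [map_mul (aeval u) q X, aeval_X]
          ring
        rw [h1]
        have h2 := hil_vpol u y z P.natDegree Q.natDegree (N + (D₁ + D₂)) (E + 1) (q * X) (by
          have h0 := hm q X
          have h1 := hm (X * lP * cP * lQ) cQ
          have h2 := hm (X * lP * cP) lQ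
          have h3 := hm (X * lP) cP
          have h4 := hm X lP
          rw [← hq] at h1
          omega) v (hv0 N v hv)
        exact hil_mono u y z _ _ (by omega) h2
      · have h1 : aeval u q * ((x 0)⁻¹ * v) = aeval u (lP * cP * lQ * cQ) * v := by
          rw [hq0, map_mul, aeval_X]
          have : u ≠ 0 := hx 0
          rw [← hu]
          field_simp
        rw [h1]
        refine hil_mono u y z _ _ ?_ (hE _ ?_ N v (hv0 N v hv))
        · omega
        · have h1 := hm (lP * cP * lQ) cQ
          have h2 := hm (lP * cP) lQ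
          have h3 := hm lP cP
          omega
    · constructor
      · have h1 : aeval u q * (x 1 * v) = aeval u (X * cP * lQ * cQ) * (aeval u lP * y * v) := by
          rw [hq1, map_mul]
          ring
        rw [h1]
        refine hil_mono u y z _ _ ?_ (hE _ ?_ N _ (hyP N v hv))
        · omega
        · have h1 := hm (X * cP * lQ) cQ
          have h2 := hm (X * cP) lQ
          have h3 := hm X cP
          omega
      · have h1 : aeval u q * ((x 1)⁻¹ * v) =
            aeval u (X * lP * lQ * cQ) * (aeval u cP * y⁻¹ * v) := by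
          rw [hq2, map_mul]
          ring
        rw [h1]
        refine hil_mono u y z _ _ ?_ (hE _ ?_ N _ (hyI N v hv))
        · omega
        · have h1 := hm (X * lP * lQ) cQ
          have h2 := hm (X * lP) lQ
          have h3 := hm X lP
          omega
    · constructor
      · have h1 : aeval u q * (x 2 * v) = aeval u (X * lP * cP * cQ) * (aeval u lQ * z * v) := by
          rw [hq3, map_mul]
          ring
        rw [h1]
        refine hil_mono u y z _ _ ?_ (hE _ ?_ N _ (hzP N v hv))
        · omega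
        · have h1 := hm (X * lP * cP) cQ
          have h2 := hm (X * lP) cP
          have h3 := hm X lP
          omega
      · have h1 : aeval u q * ((x 2)⁻¹ * v) =
            aeval u (X * lP * cP * lQ) * (aeval u cQ * z⁻¹ * v) := by
          rw [hq4, map_mul]
          ring
        rw [h1]
        refine hil_mono u y z _ _ ?_ (hE _ ?_ N _ (hzI N v hv))
        · omega
        · have h1 := hm (X * lP * cP) lQ
          have h2 := hm (X * lP) cP
          have h3 := hm X lP
          omega

open Polynomial in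
theorem hil (hx : Crv k x) : ∃ σ : ℕ, 1 ≤ σ ∧ ∃ τ : ℕ, ∀ K : ℕ,
    FiniteDimensional k (Bm k x K) ∧ (Module.finrank k (Bm k x K) : ℝ) ≤ σ * K + τ := by
  classical
  obtain ⟨P, _, hP1, hPc, hP, _⟩ := expol hx 1
  obtain ⟨Q, _, hQ1, hQc, hQ, _⟩ := expol hx 2
  obtain ⟨D, hD⟩ := hil_step hx.ne P Q hP hQ
  set q : k[X] := X * P.coeff P.natDegree * P.coeff 0 * Q.coeff Q.natDegree * Q.coeff 0 with hq
  have hu : Transcendental k (x 0) := by
    have h := hx.tr (Pi.single 0 1) (by simp)
    have h1 : ∏ i, x i ^ (Pi.single 0 1 : Fin 3 → ℤ) i = x 0 := by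
      rw [Finset.prod_eq_single 0]
      · simp
      · intro i _ hi
        rw [Pi.single_eq_of_ne hi, zpow_zero]
      · intro h
        exact absurd (Finset.mem_univ _) h
    rwa [h1] at h
  have hq0 : q ≠ 0 := by
    have h1 : P.coeff P.natDegree ≠ 0 := by
      rw [coeff_natDegree, Ne, leadingCoeff_eq_zero]
      rintro rfl
      simp at hP1
    have h2 : Q.coeff Q.natDegree ≠ 0 := by
      rw [coeff_natDegree, Ne, leadingCoeff_eq_zero]
      rintro rfl
      simp at hQ1
    exact mul_ne_zero (mul_ne_zero (mul_ne_zero (mul_ne_zero X_ne_zero h1) hPc) h2) hQc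
  have hqe : aeval (x 0) q ≠ 0 := fun h => hu ⟨q, hq0, h⟩
  let V : ℕ → Submodule k Ω := VV k (x 0) (x 1) (x 2) P.natDegree Q.natDegree
  have key : ∀ (K : ℕ) (m : Fin 3 → ℤ), nm m ≤ K →
      aeval (x 0) q ^ K * ∏ j, x j ^ m j ∈ V (D * K) := by
    intro K
    induction K with
    | zero =>
      intro m hm
      have hm0 : m = 0 := by
        have h0 : nm m = 0 := Nat.le_zero.mp hm
        unfold nm at h0
        rw [Finset.sum_eq_zero_iff] at h0
        funext j
        exact Int.natAbs_eq_zero.mp (h0 j (Finset.mem_univ j))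
      rw [hm0]
      refine Submodule.subset_span ⟨0, 0, 0, Nat.zero_le _, hP1, hQ1, ?_⟩
      simp
    | succ K ih =>
      intro m hm
      by_cases h : nm m ≤ K
      · have h1 := (hD (D * K) _ (ih m h)).1
        have h2 : aeval (x 0) q ^ (K + 1) * ∏ j, x j ^ m j =
            aeval (x 0) q * (aeval (x 0) q ^ K * ∏ j, x j ^ m j) := by ring
        rw [h2]
        exact h1
      · have h3 : ∃ j, m j ≠ 0 := by
          by_contra h3
          push Not at h3
          apply h
          have : nm m = 0 := by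
            unfold nm
            exact Finset.sum_eq_zero fun j _ => by rw [h3 j]; rfl
          omega
        obtain ⟨j, hj⟩ := h3
        obtain ⟨e, he, hab⟩ : ∃ e : ℤ, (e = 1 ∨ e = -1) ∧
            (m j - e).natAbs + 1 = (m j).natAbs := by
          rcases lt_or_gt_of_ne hj with h4 | h4
          · exact ⟨-1, Or.inr rfl, by omega⟩
          · exact ⟨1, Or.inl rfl, by omega⟩
        let m' : Fin 3 → ℤ := m - Pi.single j e
        have hm' : nm m' + 1 = nm m := by
          unfold nm
          rw [← Finset.add_sum_erase _ _ (Finset.mem_univ j),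
            ← Finset.add_sum_erase Finset.univ (fun i => (m i).natAbs) (Finset.mem_univ j)]
          have h5 : ∑ i ∈ Finset.univ.erase j, (m' i).natAbs =
              ∑ i ∈ Finset.univ.erase j, (m i).natAbs := by
            refine Finset.sum_congr rfl fun i hi => ?_
            simp only [m', Pi.sub_apply, Pi.single_eq_of_ne (Finset.ne_of_mem_erase hi), sub_zero]
          have h6 : m' j = m j - e := by
            simp only [m', Pi.sub_apply, Pi.single_eq_same]
          rw [h5, h6]
          omega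
        have hmm : m = m' + Pi.single j e := by
          simp only [m', sub_add_cancel]
        have h7 : ∏ i, x i ^ m i = (∏ i, x i ^ m' i) * x j ^ e := by
          have h71 := mon_add hx.ne m' (Pi.single j e)
          rw [← hmm] at h71
          rw [h71]
          congr 1
          rw [Finset.prod_eq_single j]
          · rw [Pi.single_eq_same]
          · intro i _ hi
            rw [Pi.single_eq_of_ne hi, zpow_zero]
          · intro h
            exact absurd (Finset.mem_univ _) h
        have h8 := ih m' (by omega)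
        have h9 := (hD (D * K) _ h8).2 j
        rcases he with rfl | rfl
        · have h2 : aeval (x 0) q ^ (K + 1) * ∏ i, x i ^ m i =
              aeval (x 0) q * (x j * (aeval (x 0) q ^ K * ∏ i, x i ^ m' i)) := by
            rw [h7, zpow_one]
            ring
          rw [h2]
          exact h9.1
        · have h2 : aeval (x 0) q ^ (K + 1) * ∏ i, x i ^ m i =
              aeval (x 0) q * ((x j)⁻¹ * (aeval (x 0) q ^ K * ∏ i, x i ^ m' i)) := by
            rw [h7, zpow_neg_one]
            ring
          rw [h2]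
          exact h9.2
  have hmul : ∀ (K : ℕ) (g : Ω), g ∈ Bm k x K → aeval (x 0) q ^ K * g ∈ V (D * K) := by
    intro K g hg
    induction hg using Submodule.span_induction with
    | mem g hg =>
      obtain ⟨m, hm, rfl⟩ := hg
      exact key K m hm
    | zero =>
      rw [mul_zero]
      exact Submodule.zero_mem _
    | add v w _ _ hv hw =>
      rw [mul_add]
      exact Submodule.add_mem _ hv hw
    | smul c v _ hv =>
      rw [mul_smul_comm]
      exact Submodule.smul_mem _ _ hv
  refine ⟨P.natDegree * Q.natDegree * D + 1, by omega, P.natDegree * Q.natDegree, fun K => ?_⟩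
  obtain ⟨hfin, hdim⟩ := hil_fin (k := k) (x 0) (x 1) (x 2) P.natDegree Q.natDegree (D * K)
  let φ : Bm k x K →ₗ[k] V (D * K) :=
    { toFun := fun g => ⟨aeval (x 0) q ^ K * (g : Ω), hmul K g g.2⟩
      map_add' := fun a b => by
        apply Subtype.ext
        simp [mul_add]
      map_smul' := fun c a => by
        apply Subtype.ext
        simp }
  have hφ : Function.Injective φ := by
    intro a b hab
    have h := congrArg (fun z : V (D * K) => (z : Ω)) hab
    have h' : aeval (x 0) q ^ K * (a : Ω) = aeval (x 0) q ^ K * (b : Ω) := h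
    exact Subtype.ext (mul_left_cancel₀ (pow_ne_zero _ hqe) h')
  haveI : FiniteDimensional k (V (D * K)) := hfin
  refine ⟨FiniteDimensional.of_injective φ hφ, ?_⟩
  have h1 : Module.finrank k (Bm k x K) ≤ P.natDegree * Q.natDegree * (D * K + 1) :=
    (LinearMap.finrank_le_finrank_of_injective hφ).trans hdim
  have h2 : (Module.finrank k (Bm k x K) : ℝ) ≤
      ((P.natDegree * Q.natDegree * (D * K + 1) : ℕ) : ℝ) := Nat.cast_le.mpr h1
  refine h2.trans ?_
  push_cast
  have h3 : (0 : ℝ) ≤ K := Nat.cast_nonneg K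
  nlinarith

end BMG
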