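import Pool.Agent.Lib.MP_a325a5_ag.G.PropAG
import Pool.Agent.Lib.MP_a325a5_ag.G.PropBG

/-! Propositions 4.2 and 4.4 together. -/

open NumberField BMF

namespace BMG

theorem degG {L Ω : Type} [Field L] [NumberField L] [Field Ω] [IsAlgClosed Ω] [Algebra L Ω]
    {x : Fin 3 → Ω} (hx : Crv L x) {n : ℕ} (f : Fin (n + 1) → Polynomial L)
    (hf : ∀ i, f i ≠ 0) : ∃ C N₀ : ℕ, 0 < N₀ ∧ ∀ (F : Type) [Field F] [NumberField F]
      [Algebra L F] (c : Fin 3 → F) (z : Fin (n + 1) → F), PtG L x f c z →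
      IntermediateField.adjoin L (Set.range c ∪ Set.range z) = ⊤ →
      ∀ (a : Fin n → Fin 3 → ℤ) (b : Fin n → Fin n → ℤ), (∀ l, RlG c z (a l) (b l)) →
      LinearIndependent ℤ (fun l => (Sum.elim (a l) (b l) : Fin 3 ⊕ Fin n → ℤ)) →
      (Module.finrank L F : ℝ) ≤ C * ∏ l, (sz (a l) (b l) : ℝ) ∨
      ∀ i, ∃ κ : Fin 3 → ℤ, (∀ j, |κ j| ≤ C) ∧ z i ^ N₀ = ∏ j, c j ^ κ j := by
  obtain ⟨C, N₀, hN, h⟩ := propAG hx f hf
  obtain ⟨C', h'⟩ := propBG hx f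
  refine ⟨C + C', N₀, hN, fun F _ _ _ c z hp hg a b hr hl => ?_⟩
  have hP : (0 : ℝ) ≤ ∏ l, (sz (a l) (b l) : ℝ) :=
    Finset.prod_nonneg fun l _ => Nat.cast_nonneg _
  by_cases hb : (Matrix.of b).det = 0
  · left
    refine (h' F c z hp hg a b hr hl hb).trans ?_
    push_cast
    nlinarith [hP, (Nat.cast_nonneg C : (0 : ℝ) ≤ C)]
  · rcases h F c z hp hg a b hr hb with h1 | h1
    · left
      refine h1.trans ?_
      push_cast
      nlinarith [hP, (Nat.cast_nonneg C' : (0 : ℝ) ≤ C')]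
    · right
      intro i
      obtain ⟨κ, hκ, he⟩ := h1 i
      exact ⟨κ, fun j => (hκ j).trans (by push_cast; omega), he⟩

end BMG
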