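import Pool.Agent.Lib.MP_a325a5_ag.G.BmB
import Pool.Agent.Lib.MP_a325a5_ag.G.ExPol
import Pool.Agent.Lib.MP_a325a5_ag.G.DEb

/-! Lemma 2.5, second part: the derivation with respect to x 0 changes the filtration Bm by a bounded amount, up to a fixed
denominator, and acts on the division hull by logarithmic derivatives. -/

open NumberField

namespace BMG

variable {k Ω : Type} [Field k] [CharZero k] [Field Ω] [Algebra k Ω] {x : Fin 3 → Ω}

open Polynomial in
omit [CharZero k] in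
private theorem derB_biv (δ : Derivation k Ω Ω) (u y : Ω) (P : k[X][X]) :
    ∃ PX : k[X][X], δ (aevalAeval u y P) =
      aevalAeval u y PX * δ u + aevalAeval u y (derivative P) * δ y := by
  induction P using Polynomial.induction_on' with
  | add p q hp hq =>
    obtain ⟨A, hA⟩ := hp
    obtain ⟨B, hB⟩ := hq
    refine ⟨A + B, ?_⟩
    rw [map_add, map_add, hA, hB, derivative_add, map_add, map_add]
    ring
  | monomial n a =>
    refine ⟨monomial n (derivative a), ?_⟩
    have h : ∀ (m : ℕ) (b : k[X]), aevalAeval u y (monomial m b) = aeval u b * y ^ m := by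
      intro m b
      rw [← C_mul_X_pow_eq_monomial, map_mul, map_pow]
      simp
    rw [h, h, derivative_monomial, h, Derivation.leibniz, Derivation.leibniz_pow,
      Derivation.map_aeval]
    simp only [smul_eq_mul, nsmul_eq_mul, map_mul, map_natCast]
    ring

omit [CharZero k] in
private theorem derB_zpow (δ : Derivation k Ω Ω) (w : Ω) (hw : w ≠ 0) (n : ℤ) :
    δ (w ^ n) = w ^ n * ((n : Ω) * (δ w / w)) := by
  have hnat : ∀ m : ℕ, δ (w ^ m) = w ^ m * ((m : Ω) * (δ w / w)) := by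
    intro m
    rw [Derivation.leibniz_pow]
    rcases Nat.eq_zero_or_pos m with h | h
    · subst h
      simp
    · obtain ⟨l, rfl⟩ : ∃ l, m = l + 1 := ⟨m - 1, by omega⟩
      rw [Nat.add_sub_cancel, smul_eq_mul, nsmul_eq_mul, pow_succ]
      field_simp
  rcases Int.eq_nat_or_neg n with ⟨m, rfl | rfl⟩
  · rw [zpow_natCast, Int.cast_natCast]
    exact hnat m
  · have h1 : w ^ (-(m : ℤ)) * w ^ m = 1 := by
      rw [← zpow_natCast, ← zpow_add₀ hw, neg_add_cancel, zpow_zero]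
    have h2 := congrArg δ h1
    rw [Derivation.leibniz, hnat m, Derivation.map_one_eq_zero, smul_eq_mul, smul_eq_mul] at h2
    have h3 : w ^ m ≠ 0 := pow_ne_zero _ hw
    apply mul_left_cancel₀ h3
    have h4 : w ^ m * δ (w ^ (-(m : ℤ))) =
        -(w ^ (-(m : ℤ)) * w ^ m * ((m : Ω) * (δ w / w))) := by
      linear_combination h2
    rw [h4]
    push_cast
    ring

omit [CharZero k] in
private theorem derB_mon (hx : ∀ j, x j ≠ 0) (δ : Derivation k Ω Ω) (m : Fin 3 → ℤ) :
    δ (∏ j, x j ^ m j) = (∏ j, x j ^ m j) * ∑ j, (m j : Ω) * (δ (x j) / x j) := by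
  rw [Fin.prod_univ_three, Fin.sum_univ_three, Derivation.leibniz, Derivation.leibniz,
    derB_zpow δ _ (hx 0), derB_zpow δ _ (hx 1), derB_zpow δ _ (hx 2)]
  simp only [smul_eq_mul]
  ring

open Polynomial in
theorem derB (hx : Crv k x) (δ : Derivation k Ω Ω) (hδ : δ (x 0) = 1) :
    ∃ (c : ℕ) (E₀ : Ω), 1 ≤ c ∧ E₀ ≠ 0 ∧ E₀ ∈ Bm k x c ∧
      (∀ K, ∀ g ∈ Bm k x K, E₀ * δ g ∈ Bm k x (K + c)) ∧
      ∀ j, E₀ * (δ (x j) / x j) ∈ Bm k x c := by
  choose P _ _ _ hP0 hPd using fun j => expol hx j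
  choose PX hPX using fun j => derB_biv δ (x 0) (x j) (P j)
  choose Da hDa using fun j => Bm_bip (k := k) hx.ne (PX j) 0 j
  choose Db hDb using fun j => Bm_bip (k := k) hx.ne (derivative (P j)) 0 j
  set D : ℕ := ∑ j, (Da j + Db j) with hD
  have hDj : ∀ j, Da j + Db j ≤ D := fun j =>
    Finset.single_le_sum (f := fun j => Da j + Db j) (fun _ _ => Nat.zero_le _)
      (Finset.mem_univ j)
  set a : Fin 3 → Ω := fun j => aevalAeval (x 0) (x j) (PX j) with ha
  set b : Fin 3 → Ω := fun j => aevalAeval (x 0) (x j) (derivative (P j)) with hb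
  have haD : ∀ j, a j ∈ Bm k x D := fun j => Bm_mono (by have := hDj j; omega) (hDa j)
  have hbD : ∀ j, b j ∈ Bm k x D := fun j => Bm_mono (by have := hDj j; omega) (hDb j)
  have hb0 : ∀ j, b j ≠ 0 := hPd
  have hrel : ∀ j, b j * δ (x j) = -a j := by
    intro j
    have h := hPX j
    rw [hP0 j, map_zero, hδ, mul_one] at h
    linear_combination -h
  have h3 : ∀ {p q r : Ω}, p ∈ Bm k x D → q ∈ Bm k x D → r ∈ Bm k x D →
      p * q * r ∈ Bm k x (3 * D) := by
    intro p q r hp hq hr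
    have := Bm_mul hx.ne (Bm_mul hx.ne hp hq) hr
    have e : D + D + D = 3 * D := by ring
    rwa [e] at this
  have hEδ : ∀ j, b 0 * b 1 * b 2 * δ (x j) ∈ Bm k x (3 * D) := by
    intro j
    have hn : -a j ∈ Bm k x D := Submodule.neg_mem _ (haD j)
    have hj : j = 0 ∨ j = 1 ∨ j = 2 := by fin_cases j <;> simp
    rcases hj with rfl | rfl | rfl
    · have e : b 0 * b 1 * b 2 * δ (x 0) = -a 0 * b 1 * b 2 := by
        rw [← hrel 0]
        ring
      rw [e]
      exact h3 hn (hbD 1) (hbD 2)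
    · have e : b 0 * b 1 * b 2 * δ (x 1) = -a 1 * b 0 * b 2 := by
        rw [← hrel 1]
        ring
      rw [e]
      exact h3 hn (hbD 0) (hbD 2)
    · have e : b 0 * b 1 * b 2 * δ (x 2) = -a 2 * b 0 * b 1 := by
        rw [← hrel 2]
        ring
      rw [e]
      exact h3 hn (hbD 0) (hbD 1)
  have hinv : ∀ j, (x j)⁻¹ ∈ Bm k x 1 := by
    intro j
    have h : (x j)⁻¹ = ∏ i, x i ^ (Pi.single j (-1) : Fin 3 → ℤ) i := by
      rw [Finset.prod_eq_single j]
      · rw [Pi.single_eq_same, zpow_neg_one]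
      · intro i _ hi
        rw [Pi.single_eq_of_ne hi, zpow_zero]
      · intro h
        exact absurd (Finset.mem_univ j) h
    rw [h]
    refine Bm_mon _ ?_
    unfold nm
    rw [Finset.sum_eq_single j]
    · rw [Pi.single_eq_same]
      decide
    · intro i _ hi
      rw [Pi.single_eq_of_ne hi]
      rfl
    · intro h
      exact absurd (Finset.mem_univ j) h
  have hω : ∀ j, b 0 * b 1 * b 2 * (δ (x j) / x j) ∈ Bm k x (3 * D + 1) := by
    intro j
    have := Bm_mul hx.ne (hEδ j) (hinv j)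
    have e : b 0 * b 1 * b 2 * (δ (x j) / x j) = b 0 * b 1 * b 2 * δ (x j) * (x j)⁻¹ := by
      rw [div_eq_mul_inv]
      ring
    rw [e]
    exact this
  refine ⟨3 * D + 1, b 0 * b 1 * b 2, by omega,
    mul_ne_zero (mul_ne_zero (hb0 0) (hb0 1)) (hb0 2),
    Bm_mono (by omega) (h3 (hbD 0) (hbD 1) (hbD 2)), ?_, hω⟩
  intro K g hg
  induction hg using Submodule.span_induction with
  | mem g hg =>
    obtain ⟨m, hm, rfl⟩ := hg
    rw [derB_mon hx.ne]
    have e : b 0 * b 1 * b 2 * ((∏ j, x j ^ m j) * ∑ j, (m j : Ω) * (δ (x j) / x j)) =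
        (∏ j, x j ^ m j) * ∑ j, (m j : Ω) * (b 0 * b 1 * b 2 * (δ (x j) / x j)) := by
      rw [Finset.mul_sum, Finset.mul_sum, Finset.mul_sum]
      exact Finset.sum_congr rfl fun j _ => by ring
    rw [e]
    refine Bm_mul hx.ne (Bm_mon m hm) (Submodule.sum_mem _ fun j _ => ?_)
    have e2 : (m j : Ω) * (b 0 * b 1 * b 2 * (δ (x j) / x j)) =
        (m j : ℤ) • (b 0 * b 1 * b 2 * (δ (x j) / x j)) := by
      rw [zsmul_eq_mul]
    rw [e2]
    exact Submodule.smul_of_tower_mem _ _ (hω j)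
  | zero =>
    rw [map_zero, mul_zero]
    exact Submodule.zero_mem _
  | add v w _ _ hv hw =>
    rw [map_add, mul_add]
    exact Submodule.add_mem _ hv hw
  | smul c v _ hv =>
    rw [Derivation.map_smul, mul_smul_comm]
    exact Submodule.smul_mem _ _ hv

theorem DE_der (hx : ∀ j, x j ≠ 0) (δ : Derivation k Ω Ω) {θ : Fin 3 → ℚ} {z : Ω}
    (h : DE x θ z) : δ z = z * ∑ j, ((θ j : ℚ) : Ω) * (δ (x j) / x j) := by
  haveI : CharZero Ω := charZero_of_injective_algebraMap (algebraMap k Ω).injective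
  obtain ⟨hz, Δ, hΔ, a, ha, he⟩ := h
  have h1 := congrArg δ he
  rw [← zpow_natCast, derB_zpow δ z hz, derB_mon hx, ← he, ← zpow_natCast] at h1
  have h2 : z ^ (Δ : ℤ) ≠ 0 := zpow_ne_zero _ hz
  have h3 := mul_left_cancel₀ h2 h1
  have hΔ0 : (Δ : Ω) ≠ 0 := Nat.cast_ne_zero.mpr hΔ.ne'
  have h4 : δ z / z = ∑ j, ((θ j : ℚ) : Ω) * (δ (x j) / x j) := by
    have h5 : ∀ j, ((a j : ℤ) : Ω) = (Δ : Ω) * ((θ j : ℚ) : Ω) := by
      intro j
      have h6 : (((a j : ℤ) : ℚ) : Ω) = (((Δ : ℚ) * θ j : ℚ) : Ω) := by rw [ha j]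
      push_cast at h6
      exact h6
    have h7 : ∑ j, ((a j : ℤ) : Ω) * (δ (x j) / x j) =
        (Δ : Ω) * ∑ j, ((θ j : ℚ) : Ω) * (δ (x j) / x j) := by
      rw [Finset.mul_sum]
      exact Finset.sum_congr rfl fun j _ => by rw [h5 j, mul_assoc]
    rw [h7, Int.cast_natCast] at h3
    exact mul_left_cancel₀ hΔ0 h3
  rw [← h4]
  field_simp

end BMG
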