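import Pool.Agent.Lib.MP_a325a5_ag.G.GDef

/-! Lemma 1.2.  The same proof as dim_lemma in S/DimL.lean. -/

open NumberField

namespace BMG

private theorem dimG_step {k Ω E : Type} [Field k] [Field Ω] [Algebra k Ω] [Field E]
    [Algebra k E] (R : Subalgebra k Ω) (π : R →ₐ[k] E)
    (U V : Submodule k Ω) [FiniteDimensional k U] [FiniteDimensional k V]
    (hVR : ∀ g ∈ V, g ∈ R) (hUR : ∀ g ∈ U, g ∈ R)
    (f : Ω) (hfR : f ∈ R) (hf : f ≠ 0) (hf0 : π ⟨f, hfR⟩ = 0)
    (hmul : ∀ g ∈ U, f * g ∈ V) (W : Submodule k E)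
    (hW : ∀ y ∈ W, ∃ g, ∃ h : g ∈ R, g ∈ V ∧ π ⟨g, h⟩ = y) :
    FiniteDimensional k W ∧ Module.finrank k W + Module.finrank k U ≤ Module.finrank k V := by
  let ψ : V →ₗ[k] E := π.toLinearMap.comp
    (Submodule.inclusion (show V ≤ Subalgebra.toSubmodule R from fun g hg => hVR g hg))
  have hψ : ∀ g : V, ψ g = π ⟨g.1, hVR g.1 g.2⟩ := fun g => rfl
  have h1 : W ≤ LinearMap.range ψ := by
    intro y hy
    obtain ⟨g, hg, hgV, hgx⟩ := hW y hy
    exact ⟨⟨g, hgV⟩, by rw [hψ]; exact hgx⟩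
  haveI : FiniteDimensional k (LinearMap.range ψ) := inferInstance
  haveI hfd : FiniteDimensional k W := Submodule.finiteDimensional_of_le h1
  have h2 : Module.finrank k W ≤ Module.finrank k (LinearMap.range ψ) := Submodule.finrank_mono h1
  let μ : U →ₗ[k] LinearMap.ker ψ :=
    { toFun := fun g => ⟨⟨f * (g : Ω), hmul g g.2⟩, by
        rw [LinearMap.mem_ker, hψ]
        have h : (⟨f * (g : Ω), hVR _ (hmul g g.2)⟩ : R) = ⟨f, hfR⟩ * ⟨g, hUR g.1 g.2⟩ := rfl
        rw [h, map_mul, hf0, zero_mul]⟩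
      map_add' := fun a b => by
        apply Subtype.ext
        apply Subtype.ext
        simp [mul_add]
      map_smul' := fun c a => by
        apply Subtype.ext
        apply Subtype.ext
        simp }
  have hμ : Function.Injective μ := by
    intro a b hab
    have h := congrArg (fun z : LinearMap.ker ψ => ((z : V) : Ω)) hab
    have h' : f * (a : Ω) = f * (b : Ω) := h
    exact Subtype.ext (mul_left_cancel₀ hf h')
  have h3 : Module.finrank k U ≤ Module.finrank k (LinearMap.ker ψ) :=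
    LinearMap.finrank_le_finrank_of_injective hμ
  have h4 := LinearMap.finrank_range_add_finrank_ker ψ
  exact ⟨hfd, by omega⟩

theorem dimG {k Ω E : Type} [Field k] [Field Ω] [Algebra k Ω] [Field E] [Algebra k E]
    (R : Subalgebra k Ω) (π : R →ₐ[k] E) (B : ℕ → Submodule k Ω) (σ τ : ℝ)
    (hBR : ∀ K, ∀ g ∈ B K, g ∈ R) (hfin : ∀ K, FiniteDimensional k (B K))
    (hdim : ∀ K : ℕ, (Module.finrank k (B K) : ℝ) ≤ σ * K + τ)
    (f : Ω) (hfR : f ∈ R) (hf : f ≠ 0) (hf0 : π ⟨f, hfR⟩ = 0) (C : ℕ) (hC : 1 ≤ C)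
    (hmul : ∀ K, ∀ g ∈ B K, f * g ∈ B (K + C)) (W : Submodule k E) (K₀ : ℕ)
    (hW : ∀ K ≥ K₀, ∀ y ∈ W, ∃ g, ∃ h : g ∈ R, g ∈ B K ∧ π ⟨g, h⟩ = y) :
    FiniteDimensional k W ∧ (Module.finrank k W : ℝ) ≤ σ * C := by
  have step : ∀ K ≥ K₀, FiniteDimensional k W ∧
      Module.finrank k W + Module.finrank k (B K) ≤ Module.finrank k (B (K + C)) := by
    intro K hK
    haveI := hfin K
    haveI := hfin (K + C)
    exact dimG_step R π (B K) (B (K + C)) (hBR (K + C)) (hBR K) f hfR hf hf0 (hmul K) W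
      (hW (K + C) (by omega))
  refine ⟨(step K₀ le_rfl).1, ?_⟩
  have hM : ∀ M : ℕ, M * Module.finrank k W ≤ Module.finrank k (B (K₀ + M * C)) := by
    intro M
    induction M with
    | zero => simp
    | succ M ih =>
      have := (step (K₀ + M * C) (by omega)).2
      have e : K₀ + (M + 1) * C = K₀ + M * C + C := by ring
      rw [e]
      calc (M + 1) * Module.finrank k W = Module.finrank k W + M * Module.finrank k W := by ring
        _ ≤ Module.finrank k W + Module.finrank k (B (K₀ + M * C)) := by omega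
        _ ≤ _ := this
  by_contra hcon
  push Not at hcon
  obtain ⟨M, hM'⟩ := exists_nat_gt ((σ * K₀ + τ) / ((Module.finrank k W : ℝ) - σ * C))
  have hpos : 0 < (Module.finrank k W : ℝ) - σ * C := by linarith
  rw [div_lt_iff₀ hpos] at hM'
  have h1 : ((M * Module.finrank k W : ℕ) : ℝ) ≤ σ * ((K₀ + M * C : ℕ) : ℝ) + τ :=
    (Nat.cast_le.mpr (hM M)).trans (hdim _)
  push_cast at h1
  nlinarith

end BMG
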