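import Pool.Agent.Lib.MP_a325a5_ag.G.GDef
import Pool.Agent.Lib.MP_a325a5_ag.S.PtMrk
import Pool.Agent.Lib.MP_a325a5_ag.S.PtOf
import Pool.Agent.Lib.MP_a325a5_ag.F.Q3
import Pool.Agent.Lib.MP_a325a5_ag.UL.Pts

/-! As pt_mrk (S/PtMrk.lean) and pt_of (S/PtOf.lean), with c instead of the three linear functions at t. -/

open NumberField BMF Pool.Agent.Lib.MP_a325a5_ag.UL

namespace BMG

private theorem ptmrk_torsion {A : Type} [AddCommGroup A] (H Λ : Submodule ℤ A)
    [Module.Finite ℤ Λ] (hle : H ≤ Λ) (h : ∀ x ∈ Λ, ∃ N : ℤ, N ≠ 0 ∧ N • x ∈ H) :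
    Module.finrank ℤ Λ = Module.finrank ℤ H := by
  have h1 := Submodule.finrank_quotient_add_finrank (Submodule.comap Λ.subtype H)
  have h2 : Module.finrank ℤ (Λ ⧸ Submodule.comap Λ.subtype H) = 0 := by
    apply Module.IsTorsion.finrank_eq_zero
    intro x
    obtain ⟨y, rfl⟩ := Submodule.mkQ_surjective _ x
    obtain ⟨N, hN, hy⟩ := h y.1 y.2
    refine ⟨⟨N, mem_nonZeroDivisors_of_ne_zero hN⟩, ?_⟩
    show N • (Submodule.comap Λ.subtype H).mkQ y = 0
    rw [← map_smul, Submodule.mkQ_apply, Submodule.Quotient.mk_eq_zero]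
    exact hy
  have h3 : Module.finrank ℤ (Submodule.comap Λ.subtype H) = Module.finrank ℤ H :=
    (Submodule.comapSubtypeEquivOfLe hle).finrank_eq
  omega

private theorem ptmrk_gen {A : Type} [AddCommGroup A] (H : Submodule ℤ A) (S : Set A)
    (h : ∀ x ∈ S, ∃ N : ℤ, N ≠ 0 ∧ N • x ∈ H) :
    ∀ x ∈ Submodule.span ℤ S, ∃ N : ℤ, N ≠ 0 ∧ N • x ∈ H := by
  intro x hx
  induction hx using Submodule.span_induction with
  | mem x hx => exact h x hx
  | zero =>
    refine ⟨1, one_ne_zero, ?_⟩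
    rw [smul_zero]
    exact Submodule.zero_mem _
  | add x y _ _ hx hy =>
    obtain ⟨N, hN, hx⟩ := hx
    obtain ⟨M, hM, hy⟩ := hy
    refine ⟨N * M, mul_ne_zero hN hM, ?_⟩
    have e1 : (N * M) • (x + y) = M • (N • x) + N • (M • y) := by
      rw [smul_add, ← mul_smul, ← mul_smul, mul_comm M N]
    rw [e1]
    exact Submodule.add_mem _ (Submodule.smul_mem _ _ hx) (Submodule.smul_mem _ _ hy)
  | smul c x _ hx =>
    obtain ⟨N, hN, hx⟩ := hx
    refine ⟨N, hN, ?_⟩
    have e1 : N • (c • x) = c • (N • x) := by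
      rw [← mul_smul, ← mul_smul, mul_comm]
    rw [e1]
    exact Submodule.smul_mem _ _ hx

private theorem ptmrk_lc {F : Type} [Field F] {m : ℕ} (P : Fin m → Fˣ) (a : Fin m → ℤ) :
    ∑ j, a j • Additive.ofMul (P j) = Additive.ofMul (∏ j, P j ^ a j) := by
  rw [ofMul_prod]
  exact Finset.sum_congr rfl fun j _ => (ofMul_zpow _ _).symm

private noncomputable def ptT {F ι : Type} [Field F] [Fintype ι] (p : ι → Fˣ) :
    (ι → ℤ) →ₗ[ℤ] Additive Fˣ :=
  Fintype.linearCombination ℤ (fun i => Additive.ofMul (p i))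

private theorem ptT_apply {F ι : Type} [Field F] [Fintype ι] (p : ι → Fˣ) (a : ι → ℤ) :
    ptT p a = Additive.ofMul (∏ i, p i ^ a i) := by
  rw [ptT, Fintype.linearCombination_apply, ofMul_prod]
  refine Finset.sum_congr rfl fun i _ => ?_
  rw [ofMul_zpow]

private theorem pt_rank {F : Type} [Field F] (c : Fin 3 → Fˣ)
    (h2 : ∀ a b : Fin 3 → ℤ, ∏ j, c j ^ a j = 1 → ∏ j, c j ^ b j = 1 →
      ¬ LinearIndependent ℤ ![a, b]) :
    2 ≤ Module.finrank ℤ (Submodule.span ℤ (Set.range fun i => Additive.ofMul (c i))) := by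
  have h1 := (LinearMap.ker (ptT c)).finrank_quotient_add_finrank
  rw [Module.finrank_fintype_fun_eq_card] at h1
  have h3 := (ptT c).quotKerEquivRange.finrank_eq
  have h4 : LinearMap.range (ptT c) =
      Submodule.span ℤ (Set.range fun i => Additive.ofMul (c i)) := by
    rw [ptT, Fintype.range_linearCombination]
  rw [h4] at h3
  have h5 : Module.finrank ℤ (LinearMap.ker (ptT c)) ≤ 1 := by
    by_contra hcon
    push Not at hcon
    obtain ⟨f, hf⟩ := exists_linearIndependent_of_le_finrank (R := ℤ)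
      (M := LinearMap.ker (ptT c)) (n := 2) hcon
    have hk : ∀ x : LinearMap.ker (ptT c), ∏ j, c j ^ (x : Fin 3 → ℤ) j = 1 := by
      intro x
      have := x.2
      rw [LinearMap.mem_ker, ptT_apply, ofMul_eq_zero] at this
      exact this
    apply h2 (f 0 : Fin 3 → ℤ) (f 1 : Fin 3 → ℤ) (hk _) (hk _)
    have h6 := hf.map' (LinearMap.ker (ptT c)).subtype (Submodule.ker_subtype _)
    have e : (⇑(LinearMap.ker (ptT c)).subtype ∘ f) = ![(f 0 : Fin 3 → ℤ), (f 1 : Fin 3 → ℤ)] := by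
      funext i
      fin_cases i <;> rfl
    rw [e] at h6
    exact h6
  simp only [Fintype.card_fin] at h1
  omega

private theorem pt_div {F : Type} [Field F] {ι : Type} [Finite ι] (c : Fin 3 → Fˣ) (z : ι → Fˣ)
    (hm : mr (Sum.elim c z) ≤ 2)
    (h2 : ∀ a b : Fin 3 → ℤ, ∏ j, c j ^ a j = 1 → ∏ j, c j ^ b j = 1 →
      ¬ LinearIndependent ℤ ![a, b]) (i : ι) :
    ∃ N : ℕ, 0 < N ∧ ∃ a : Fin 3 → ℤ, z i ^ N = ∏ j, c j ^ a j := by
  set C : Submodule ℤ (Additive Fˣ) := Submodule.span ℤ (Set.range fun i => Additive.ofMul (c i)) with hC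
  set S : Submodule ℤ (Additive Fˣ) :=
    Submodule.span ℤ (Set.range fun i => Additive.ofMul (Sum.elim c z i)) with hS
  have hCS : C ≤ S := by
    apply Submodule.span_mono
    rintro _ ⟨j, rfl⟩
    exact ⟨Sum.inl j, rfl⟩
  haveI : Module.Finite ℤ S := Module.Finite.span_of_finite ℤ (Set.finite_range _)
  haveI : Module.Finite ℤ C := Module.Finite.span_of_finite ℤ (Set.finite_range _)
  have hr : 2 ≤ Module.finrank ℤ C := pt_rank c h2
  have hs : Module.finrank ℤ S ≤ 2 := hm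
  have h1 : Module.finrank ℤ (C.submoduleOf S) = Module.finrank ℤ C :=
    (Submodule.submoduleOfEquivOfLe hCS).finrank_eq
  have h3 := (C.submoduleOf S).finrank_quotient_add_finrank
  have h0 : Module.finrank ℤ (S ⧸ C.submoduleOf S) = 0 := by omega
  have htor : Module.IsTorsion ℤ (S ⧸ C.submoduleOf S) := Module.finrank_eq_zero_iff_isTorsion.mp h0
  have hz : Additive.ofMul (z i) ∈ S := Submodule.subset_span ⟨Sum.inr i, rfl⟩
  obtain ⟨⟨N, hN⟩, hN2⟩ := @htor (Submodule.Quotient.mk ⟨Additive.ofMul (z i), hz⟩)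
  have hN0 : N ≠ 0 := nonZeroDivisors.ne_zero hN
  have hN3 : N • Additive.ofMul (z i) ∈ C := by
    have h5 : (Submodule.Quotient.mk (N • (⟨Additive.ofMul (z i), hz⟩ : S)) :
        S ⧸ C.submoduleOf S) = 0 := by
      rw [Submodule.Quotient.mk_smul]
      exact hN2
    rw [Submodule.Quotient.mk_eq_zero] at h5
    exact h5
  have hN4 : (N.natAbs : ℤ) • Additive.ofMul (z i) ∈ C := by
    rcases Int.natAbs_eq N with h | h
    · rw [h] at hN3
      exact hN3
    · have : -(N • Additive.ofMul (z i)) ∈ C := C.neg_mem hN3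
      rw [h, neg_smul, neg_neg] at this
      exact this
  have h4 : C = LinearMap.range (ptT c) := by
    rw [ptT, Fintype.range_linearCombination]
  rw [h4] at hN4
  obtain ⟨a, ha⟩ := hN4
  refine ⟨N.natAbs, Int.natAbs_pos.mpr hN0, a, ?_⟩
  rw [ptT_apply] at ha
  have ha2 : ((N.natAbs : ℤ) • Additive.ofMul (z i)) = Additive.ofMul (z i ^ N.natAbs) := by
    rw [natCast_zsmul, ← ofMul_pow]
  rw [ha2] at ha
  exact (Additive.ofMul.injective ha).symm

theorem mrkG {L Ω F : Type} [Field L] [Field Ω] [Field F] [NumberField F] [Algebra L Ω]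
    [Algebra L F] {x : Fin 3 → Ω} {n : ℕ} (f : Fin (n + 1) → Polynomial L) (c : Fin 3 → F)
    (z : Fin (n + 1) → F) (h : PtG L x f c z) (P : Fin 3 ⊕ Fin n → Fˣ)
    (hP : ∀ j, (P (Sum.inl j) : F) = c j) (hP' : ∀ i : Fin n, (P (Sum.inr i) : F) = z i.succ) :
    mrk (fun i : Fin (3 + n) => P (finSumFinEquiv.symm i)) = 2 := by
  classical
  obtain ⟨Q, hQ⟩ : ∃ Q : Fin 3 → Fˣ, Q = fun j => P (Sum.inl j) := ⟨_, rfl⟩
  have hQc : ∀ j, (Q j : F) = c j := fun j => by rw [hQ]; exact hP j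
  have hval : ∀ a : Fin 3 → ℤ, ((∏ j, Q j ^ a j : Fˣ) : F) = ∏ j, c j ^ a j := by
    intro a
    rw [Units.coe_prod]
    refine Finset.prod_congr rfl fun j _ => ?_
    rw [Units.val_zpow_eq_zpow_val, hQc]
  have hone : ∀ a : Fin 3 → ℤ, ∏ j, Q j ^ a j = 1 ↔ ∏ j, c j ^ a j = 1 := by
    intro a
    rw [← hval a, Units.val_eq_one]
  let φ : (Fin 3 → ℤ) →ₗ[ℤ] Additive Fˣ :=
    Fintype.linearCombination ℤ (fun j => Additive.ofMul (Q j))
  have hφ : ∀ a, φ a = Additive.ofMul (∏ j, Q j ^ a j) := fun a => by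
    rw [← ptmrk_lc]
    exact Fintype.linearCombination_apply ℤ _ a
  have hφ0 : ∀ a, a ∈ LinearMap.ker φ ↔ ∏ j, c j ^ a j = 1 := by
    intro a
    rw [LinearMap.mem_ker, hφ, ← hone]
    exact Iff.rfl
  have hrange : LinearMap.range φ = Submodule.span ℤ (Set.range fun j => Additive.ofMul (Q j)) :=
    Fintype.range_linearCombination ℤ _
  -- the kernel has rank one
  have hker : Module.finrank ℤ (LinearMap.ker φ) = 1 := by
    apply le_antisymm
    · by_contra hcon
      have h2 : 2 ≤ Module.finrank ℤ (LinearMap.ker φ) := by omega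
      obtain ⟨g, hg⟩ := exists_linearIndependent_of_le_finrank h2
      have h3 : LinearIndependent ℤ (fun i => (g i : Fin 3 → ℤ)) :=
        hg.map' (LinearMap.ker φ).subtype (Submodule.ker_subtype _)
      refine h.two (g 0) (g 1) ((hφ0 _).mp (g 0).2) ((hφ0 _).mp (g 1).2) ?_
      have h4 : (![((g 0 : LinearMap.ker φ) : Fin 3 → ℤ), (g 1 : Fin 3 → ℤ)])
          = (fun i => (g i : Fin 3 → ℤ)) := by
        funext i
        fin_cases i <;> rfl
      rw [h4]
      exact h3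
    · obtain ⟨a, ha0, ha⟩ := h.rel
      have : Nontrivial (LinearMap.ker φ) :=
        ⟨⟨⟨a, (hφ0 a).mpr ha⟩, 0, fun h0 => ha0 (congrArg Subtype.val h0)⟩⟩
      exact Module.finrank_pos
  have hH : Module.finrank ℤ
      (Submodule.span ℤ (Set.range fun j => Additive.ofMul (Q j))) = 2 := by
    have h1 := Submodule.finrank_quotient_add_finrank (LinearMap.ker φ)
    have h2 := φ.quotKerEquivRange.finrank_eq
    rw [h2, hker, hrange, Module.finrank_fin_fun] at h1
    omega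
  -- the whole lattice
  have hΛ : (Set.range fun i : Fin (3 + n) => Additive.ofMul (P (finSumFinEquiv.symm i)))
      = Set.range fun s : Fin 3 ⊕ Fin n => Additive.ofMul (P s) :=
    finSumFinEquiv.symm.surjective.range_comp (fun s => Additive.ofMul (P s))
  unfold mrk
  rw [hΛ, ← hH]
  have : Module.Finite ℤ (Submodule.span ℤ
      (Set.range fun s : Fin 3 ⊕ Fin n => Additive.ofMul (P s))) :=
    Module.Finite.span_of_finite ℤ (Set.finite_range _)
  apply ptmrk_torsion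
  · apply Submodule.span_mono
    rintro x ⟨j, rfl⟩
    exact ⟨Sum.inl j, by rw [hQ]⟩
  · apply ptmrk_gen
    · intro x hx
      obtain ⟨s, rfl⟩ := hx
      rcases s with j | i
      · refine ⟨1, one_ne_zero, ?_⟩
        rw [one_smul]
        exact Submodule.subset_span ⟨j, by rw [hQ]⟩
      · obtain ⟨N, hN, a, ha⟩ := h.div i.succ
        refine ⟨N, by exact_mod_cast hN.ne', ?_⟩
        have h1 : P (Sum.inr i) ^ N = ∏ j, Q j ^ a j := by
          apply Units.ext
          rw [hval, Units.val_pow_eq_pow_val, hP', ha]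
        have h2 : ((N : ℕ) : ℤ) • Additive.ofMul (P (Sum.inr i))
            = ∑ j, a j • Additive.ofMul (Q j) := by
          rw [ptmrk_lc, ← h1, ofMul_pow, natCast_zsmul]
        show ((N : ℕ) : ℤ) • Additive.ofMul (P (Sum.inr i)) ∈ _
        rw [h2]
        exact Submodule.sum_mem _ fun j _ => Submodule.smul_mem _ _ (Submodule.subset_span ⟨j, rfl⟩)

theorem ptG_of {L Ω F : Type} [Field L] [Field Ω] [Field F] [Algebra L Ω] [Algebra L F]
    {x : Fin 3 → Ω} {n : ℕ} (f : Fin (n + 1) → Polynomial L) (c : Fin 3 → Fˣ)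
    (z : Fin (n + 1) → Fˣ) (hc : OnC L x (fun j => (c j : F))) (h0 : z 0 = 1)
    (hs : NVS fun i => Polynomial.aeval (c 0 : F) (f i) * (z i : F))
    (hm : mr (Sum.elim c z) ≤ 2)
    (h1 : ∃ a : Fin 3 → ℤ, a ≠ 0 ∧ ∏ j, c j ^ a j = 1)
    (h2 : ∀ a b : Fin 3 → ℤ, ∏ j, c j ^ a j = 1 → ∏ j, c j ^ b j = 1 →
      ¬ LinearIndependent ℤ ![a, b]) :
    PtG L x f (fun j => (c j : F)) fun i => (z i : F) := by
  have hcoe : ∀ a : Fin 3 → ℤ, ((∏ j, c j ^ a j : Fˣ) : F) = ∏ j, (c j : F) ^ a j := by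
    intro a
    rw [Units.coe_prod]
    refine Finset.prod_congr rfl fun j _ => ?_
    rw [Units.val_zpow_eq_zpow_val]
  have hone : ∀ a : Fin 3 → ℤ, ∏ j, (c j : F) ^ a j = 1 → ∏ j, c j ^ a j = 1 := by
    intro a ha
    apply Units.ext
    rw [hcoe, ha, Units.val_one]
  refine ⟨fun j => (c j).ne_zero, hc, ?_, fun i => (z i).ne_zero, hs.1, hs.2, ?_, ?_, ?_⟩
  · show ((z 0 : Fˣ) : F) = 1
    rw [h0, Units.val_one]
  · obtain ⟨a, ha, ha2⟩ := h1
    exact ⟨a, ha, by rw [← hcoe, ha2, Units.val_one]⟩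
  · intro a b ha hb
    exact h2 a b (hone a ha) (hone b hb)
  · intro i
    obtain ⟨N, hN, a, ha⟩ := pt_div c z hm h2 i
    refine ⟨N, hN, a, ?_⟩
    rw [← hcoe, ← ha, Units.val_pow_eq_pow_val]

end BMG
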