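import Pool.Agent.Lib.MP_a325a5_ag.G.DegG
import Pool.Agent.Lib.MP_a325a5_ag.G.MrkG
import Pool.Agent.Lib.MP_a325a5_ag.S.PgS
import Pool.Agent.Lib.MP_a325a5_ag.S.EndS
import Pool.Agent.Lib.MP_a325a5_ag.F.G2
import Pool.Agent.Lib.MP_a325a5_ag.F.N2
import Pool.Agent.Lib.MP_a325a5_ag.F.P1

/-! Section 7: as endS in S/EndS.lean (read it first): pigeonS, degG, D2main, totient_lower, exists_cyc.  D ≤ C ∏ sz ≤ C (MV)^(n/(n+1)) and
MV ≤ C D^(1+2η), η = 1/(4n). -/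

open NumberField BMF

namespace BMG

private theorem EndG_MV {η c Cε W D M V φ h dg : ℝ} (hη : 0 < η) (hc : 0 < c) (hCε : 0 < Cε)
    (hD : 1 ≤ D) (hV : 0 ≤ V) (hφ : 1 ≤ φ) (hdg : 1 ≤ dg)
    (h1 : c * D ^ (-η) ≤ h * dg) (h2 : h * V ≤ W) (h3 : φ * dg ≤ D)
    (h4 : M ≤ Cε * φ ^ (1 + η)) : M * V ≤ Cε * (W / c) * D ^ (1 + 2 * η) := by
  have hD0 : 0 < D := by linarith
  have hφ0 : 0 < φ := by linarith
  have hφD : φ ≤ D := by nlinarith
  set E := D ^ η with hE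
  have hE0 : 0 < E := Real.rpow_pos_of_pos hD0 _
  have hinv : D ^ (-η) * E = 1 := by
    rw [hE, ← Real.rpow_add hD0, neg_add_cancel, Real.rpow_zero]
  have hφE : φ ^ η ≤ E := Real.rpow_le_rpow hφ0.le hφD hη.le
  have h5 : M ≤ Cε * (φ * E) := by
    refine h4.trans ?_
    rw [Real.rpow_add hφ0, Real.rpow_one]
    exact mul_le_mul_of_nonneg_left (mul_le_mul_of_nonneg_left hφE hφ0.le) hCε.le
  have h6 : c ≤ h * dg * E := by
    have := mul_le_mul_of_nonneg_right h1 hE0.le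
    rwa [mul_assoc, hinv, mul_one] at this
  have hh0 : 0 < h := by
    by_contra hneg
    push Not at hneg
    have : h * dg * E ≤ 0 :=
      mul_nonpos_of_nonpos_of_nonneg (mul_nonpos_of_nonpos_of_nonneg hneg (by linarith)) hE0.le
    linarith
  have hW : 0 ≤ W := le_trans (by positivity) h2
  have h7 : c * (V * φ) ≤ W * D * E := by
    calc c * (V * φ) ≤ (h * dg * E) * (V * φ) :=
          mul_le_mul_of_nonneg_right h6 (by positivity)
      _ = (h * V) * (φ * dg) * E := by ring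
      _ ≤ W * D * E := by
          apply mul_le_mul_of_nonneg_right _ hE0.le
          exact mul_le_mul h2 h3 (by positivity) hW
  have h8 : V * φ ≤ W / c * (D * E) := by
    rw [div_mul_eq_mul_div, le_div_iff₀ hc]
    linarith
  have hDE : D ^ (1 + 2 * η) = D * E * E := by
    rw [hE, mul_assoc, ← Real.rpow_add hD0]
    nth_rewrite 2 [← Real.rpow_one D]
    rw [← Real.rpow_add hD0]
    congr 1
    ring
  calc M * V ≤ Cε * (φ * E) * V := mul_le_mul_of_nonneg_right h5 hV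
    _ = Cε * E * (V * φ) := by ring
    _ ≤ Cε * E * (W / c * (D * E)) := mul_le_mul_of_nonneg_left h8 (by positivity)
    _ = Cε * (W / c) * D ^ (1 + 2 * η) := by rw [hDE]; ring

private theorem EndG_fin {A E MV D : ℝ} (n : ℕ) (hn : 1 ≤ n) (hA : 0 ≤ A) (hE : 0 ≤ E)
    (hD : 1 ≤ D) (hMV : 0 ≤ MV) (h1 : D ≤ A * MV ^ ((n : ℝ) / (n + 1)))
    (h2 : MV ≤ E * D ^ (1 + 2 * (1 / (4 * (n : ℝ))))) :
    D ≤ (A * E ^ ((n : ℝ) / (n + 1))) ^ (2 * n + 2) := by
  have hn0 : (0 : ℝ) < n := by exact_mod_cast hn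
  set s : ℝ := (n : ℝ) / (n + 1) with hs
  have hs0 : 0 ≤ s := by positivity
  have hD0 : 0 < D := by linarith
  set q : ℝ := 1 / (2 * n + 2) with hq
  have hq0 : 0 < q := by positivity
  have hsq : (1 + 2 * (1 / (4 * (n : ℝ)))) * s = 1 - q := by
    rw [hs, hq]
    field_simp
    ring
  have h3 : MV ^ s ≤ E ^ s * D ^ (1 - q) := by
    calc MV ^ s ≤ (E * D ^ (1 + 2 * (1 / (4 * (n : ℝ))))) ^ s := Real.rpow_le_rpow hMV h2 hs0
      _ = E ^ s * D ^ (1 - q) := by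
          rw [Real.mul_rpow hE (by positivity), ← Real.rpow_mul hD0.le, hsq]
  have h4 : D ≤ A * E ^ s * D ^ (1 - q) := by
    calc D ≤ A * MV ^ s := h1
      _ ≤ A * (E ^ s * D ^ (1 - q)) := mul_le_mul_of_nonneg_left h3 hA
      _ = _ := by ring
  have h5 : D ^ q ≤ A * E ^ s := by
    have hp : 0 < D ^ (1 - q) := Real.rpow_pos_of_pos hD0 _
    have e : D = D ^ q * D ^ (1 - q) := by
      rw [← Real.rpow_add hD0]
      simp
    have : D ^ q * D ^ (1 - q) ≤ A * E ^ s * D ^ (1 - q) := by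
      rw [← e]; exact h4
    exact le_of_mul_le_mul_right this hp
  calc D = (D ^ q) ^ (2 * n + 2) := by
        rw [← Real.rpow_natCast, ← Real.rpow_mul hD0.le, hq]
        push_cast
        rw [one_div, inv_mul_cancel₀ (by positivity), Real.rpow_one]
    _ ≤ (A * E ^ s) ^ (2 * n + 2) := pow_le_pow_left₀ (by positivity) h5 _

theorem endG {L Ω : Type} [Field L] [NumberField L] [Field Ω] [IsAlgClosed Ω] [Algebra L Ω]
    {x : Fin 3 → Ω} (hx : Crv L x) {n : ℕ} (hn : 1 ≤ n) (f : Fin (n + 1) → Polynomial L)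
    (hf : ∀ i, f i ≠ 0) (B : ℝ) : ∃ C N₀ : ℕ, 0 < N₀ ∧ ∀ (F : Type) [Field F] [NumberField F]
      [Algebra L F] (c : Fin 3 → F) (z : Fin (n + 1) → F), PtG L x f c z →
      IntermediateField.adjoin L (Set.range c ∪ Set.range z) = ⊤ → (∀ j, ht (c j) ≤ B) →
      (∀ i, ht (z i) ≤ B) → Module.finrank L F ≤ C ∨
      ∀ i, ∃ κ : Fin 3 → ℤ, (∀ j, |κ j| ≤ C) ∧ z i ^ N₀ = ∏ j, c j ^ κ j := by
  have hn0 : (0 : ℝ) < n := by exact_mod_cast hn
  obtain ⟨C1, N₀, hN₀, hC1⟩ := degG hx f hf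
  obtain ⟨c, hc, hD2⟩ := D2main (1 / (4 * (n : ℝ))) (by positivity)
  obtain ⟨Cε, hCε, hN2⟩ := totient_lower (1 / (4 * (n : ℝ))) (by positivity)
  obtain ⟨C, hC, hQ⟩ := pigeonS n hn
  obtain ⟨B', hB'⟩ : ∃ B' : ℝ, B' = B := ⟨_, rfl⟩
  set D₃ : ℝ := (((Module.finrank ℚ L : ℝ) * C1 * C) *
    (Cε * (C * B' ^ 2 / c)) ^ ((n : ℝ) / (n + 1))) ^ (2 * n + 2) with hD₃
  refine ⟨max C1 ⌈D₃⌉₊, N₀, hN₀, ?_⟩
  intro F _ _ _ cp z hpt htop hcz hz
  have hcc : ∀ j, cp j ≠ 0 := hpt.ne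
  let P : Fin 3 ⊕ Fin n → Fˣ := Sum.elim (fun j => Units.mk0 _ (hcc j))
    (fun i => Units.mk0 _ (hpt.hz i.succ))
  have hPB : ∀ i, ht (P i : F) ≤ B' := by
    rintro (j | i)
    · rw [hB']
      exact hcz j
    · rw [hB']
      exact hz i.succ
  have hmrk := mrkG f cp z hpt P (fun j => rfl) (fun i => rfl)
  obtain ⟨V, M, ζ, g, a, b, hV, hM, hζ, hg, hind, hV2, hab, hrel, hsz⟩ := hQ F B' P hPB hmrk
  have hRl : ∀ l, RlG cp z (a l) (b l) := by
    intro l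
    have h := congrArg (fun u : Fˣ => (u : F)) (hrel l)
    simp only [Units.val_mul, Units.coe_prod, Units.val_zpow_eq_zpow_val, Units.val_one] at h
    exact h
  rcases hC1 F cp z hpt htop a b hRl hab with hdeg | hκ
  · left
    obtain ⟨k, _, _, _, ⟨Z⟩⟩ := exists_cyc hM hζ
    have hmain := hD2 M k F Z g hg hind
    have hN4 := totient_mul_dg_le Z g
    have hdg : 0 < dg k g 1 := dg_pos g 1
    have hφ : 0 < M.totient := Nat.totient_pos.2 hM
    have hDpos : (1 : ℝ) ≤ Module.finrank ℚ F := by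
      exact_mod_cast (Module.finrank_pos : 0 < Module.finrank ℚ F)
    have hMV := EndG_MV (η := 1 / (4 * (n : ℝ))) (D := (Module.finrank ℚ F : ℝ)) (M := (M : ℝ))
      (V := (V : ℝ)) (φ := (M.totient : ℝ)) (h := ht (g 0) * ht (g 1)) (dg := (dg k g 1 : ℝ))
      (W := C * B' ^ 2) (by positivity)
      hc hCε hDpos (Nat.cast_nonneg V) (by exact_mod_cast hφ) (by exact_mod_cast hdg) hmain hV2
      (by exact_mod_cast hN4) (hN2 M hM)
    have htow : (Module.finrank ℚ F : ℝ) = (Module.finrank ℚ L : ℝ) * Module.finrank L F := by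
      exact_mod_cast (Module.finrank_mul_finrank ℚ L F).symm
    have hL0 : (0 : ℝ) ≤ Module.finrank ℚ L := Nat.cast_nonneg _
    have hDle : (Module.finrank ℚ F : ℝ) ≤ ((Module.finrank ℚ L : ℝ) * C1 * C) *
        ((M : ℝ) * V) ^ ((n : ℝ) / (n + 1)) := by
      rw [htow]
      calc (Module.finrank ℚ L : ℝ) * Module.finrank L F
          ≤ (Module.finrank ℚ L : ℝ) * (C1 * (C * ((M : ℝ) * V) ^ ((n : ℝ) / (n + 1)))) := by
            apply mul_le_mul_of_nonneg_left _ hL0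
            exact hdeg.trans (mul_le_mul_of_nonneg_left hsz (Nat.cast_nonneg _))
        _ = _ := by ring
    have hE0 : 0 ≤ Cε * (C * B' ^ 2 / c) := by positivity
    have hfin := EndG_fin n hn (A := (Module.finrank ℚ L : ℝ) * C1 * C)
      (E := Cε * (C * B' ^ 2 / c)) (MV := (M : ℝ) * V) (D := (Module.finrank ℚ F : ℝ))
      (by positivity) hE0 hDpos (by positivity) hDle hMV
    have h6 : 0 < Module.finrank ℚ L := Module.finrank_pos
    calc Module.finrank L F ≤ Module.finrank ℚ L * Module.finrank L F :=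
          Nat.le_mul_of_pos_left _ h6
      _ = Module.finrank ℚ F := Module.finrank_mul_finrank ℚ L F
      _ ≤ ⌈D₃⌉₊ := by
          have h7 : (Module.finrank ℚ F : ℝ) ≤ (⌈D₃⌉₊ : ℝ) := hfin.trans (Nat.le_ceil _)
          exact Nat.cast_le.mp h7
      _ ≤ max C1 ⌈D₃⌉₊ := le_max_right _ _
  · right
    intro i
    obtain ⟨κ, h1, h2⟩ := hκ i
    refine ⟨κ, fun j => (h1 j).trans ?_, h2⟩
    exact_mod_cast le_max_left _ _

end BMG
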