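import Pool.Agent.Lib.MP_a325a5_ag.S.SDef
import Mathlib.RingTheory.Polynomial.GaussLemma
import Mathlib.RingTheory.Derivation.Basic

/-! Definitions for Theorem G (arbitrary curves in the three dimensional torus). -/

open NumberField

namespace BMG

/-- the 1-norm of an exponent vector -/
def nm (a : Fin 3 → ℤ) : ℕ := ∑ j, (a j).natAbs

/-- the 1-norm of a rational vector -/
def qn (θ : Fin 3 → ℚ) : ℚ := ∑ j, |θ j|

section curve
variable (L : Type) {Ω E : Type} [Field L] [Field Ω] [Field E] [Algebra L Ω] [Algebra L E]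

/-- `x` is a generic point over `L` of a curve in the torus which does not lie in a proper coset;
`Ω` is algebraic over the field generated by `x 0` -/
structure Crv (x : Fin 3 → Ω) : Prop where
  ne : ∀ j, x j ≠ 0
  alg : ∀ y : Ω, IsAlgebraic (IntermediateField.adjoin L {x 0}) y
  tr : ∀ a : Fin 3 → ℤ, a ≠ 0 → Transcendental L (∏ j, x j ^ a j)

/-- `c` is a point of the curve with generic point `x` -/
def OnC (x : Fin 3 → Ω) (c : Fin 3 → E) : Prop :=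
  ∀ p : MvPolynomial (Fin 3) L, MvPolynomial.aeval x p = 0 → MvPolynomial.aeval c p = 0

/-- the functions with bounded degree: the span of the Laurent monomials of size at most `K` -/
def Bm (x : Fin 3 → Ω) (K : ℕ) : Submodule L Ω :=
  Submodule.span L {g | ∃ m : Fin 3 → ℤ, nm m ≤ K ∧ g = ∏ j, x j ^ m j}

/-- the function field of the curve with generic point `x` -/
abbrev KF (x : Fin 3 → Ω) : IntermediateField L Ω := IntermediateField.adjoin L (Set.range x)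

/-- the complex points of the curve, for an embedding of the ground field -/
def CT (x : Fin 3 → Ω) (τ : L →+* ℂ) : Set (Fin 3 → ℂ) :=
  {w | (∀ j, w j ≠ 0) ∧
    ∀ p : MvPolynomial (Fin 3) L, MvPolynomial.aeval x p = 0 → MvPolynomial.eval₂ τ w p = 0}

/-- the complex points whose logarithmic vector is near a line -/
def NearG (x : Fin 3 → Ω) (τ : L →+* ℂ) (δ : ℝ) (d : Fin 3 → ℝ) (w : Fin 3 → ℂ) : Prop :=
  w ∈ CT L x τ ∧ ∃ ρ : ℝ, ∀ j, |Real.log ‖w j‖ - ρ * d j| ≤ δ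

/-- the archimedean hypothesis (NA) -/
def NAc (x : Fin 3 → Ω) (τ : L →+* ℂ) : Prop :=
  ∀ d : Fin 3 → ℝ, d ≠ 0 →
    {w | w ∈ CT L x τ ∧ ∃ ρ : ℝ, ∀ j, Real.log ‖w j‖ = ρ * d j}.Finite

/-- a place of `Ω` over `L` with values in `E` at the point `c` -/
structure IsPlc (x : Fin 3 → Ω) (c : Fin 3 → E) (R : Subalgebra L Ω) (π : R →ₐ[L] E) : Prop where
  mem : ∀ j, ∃ h : x j ∈ R, π ⟨x j, h⟩ = c j
  val : ∀ y : Ω, y ∈ R ∨ y⁻¹ ∈ R
  loc : ∀ (y : Ω) (h : y ∈ R), π ⟨y, h⟩ ≠ 0 → y⁻¹ ∈ R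

end curve

/-- elements of the division hull of the group generated by `x`, with their exponent -/
def DE {Ω : Type} [Field Ω] (x : Fin 3 → Ω) (θ : Fin 3 → ℚ) (z : Ω) : Prop :=
  z ≠ 0 ∧ ∃ Δ : ℕ, 0 < Δ ∧ ∃ a : Fin 3 → ℤ, (∀ j, (a j : ℚ) = Δ * θ j) ∧ z ^ Δ = ∏ j, x j ^ a j

/-- the points considered in Theorem S_C -/
structure PtG (L : Type) {Ω F : Type} [Field L] [Field Ω] [Field F] [Algebra L Ω] [Algebra L F]
    (x : Fin 3 → Ω) {n : ℕ} (f : Fin (n + 1) → Polynomial L) (c : Fin 3 → F)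
    (z : Fin (n + 1) → F) : Prop where
  ne : ∀ j, c j ≠ 0
  on : OnC L x c
  z0 : z 0 = 1
  hz : ∀ i, z i ≠ 0
  eq : ∑ i, Polynomial.aeval (c 0) (f i) * z i = 0
  sub : ∀ I : Finset (Fin (n + 1)), I.Nonempty → I ≠ Finset.univ →
    ∑ i ∈ I, Polynomial.aeval (c 0) (f i) * z i ≠ 0
  rel : ∃ a : Fin 3 → ℤ, a ≠ 0 ∧ ∏ j, c j ^ a j = 1
  two : ∀ a b : Fin 3 → ℤ, ∏ j, c j ^ a j = 1 → ∏ j, c j ^ b j = 1 →
    ¬ LinearIndependent ℤ ![a, b]
  div : ∀ i, ∃ N : ℕ, 0 < N ∧ ∃ a : Fin 3 → ℤ, z i ^ N = ∏ j, c j ^ a j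

/-- an exact relation -/
def RlG {F : Type} [Field F] {n : ℕ} (c : Fin 3 → F) (z : Fin (n + 1) → F) (a : Fin 3 → ℤ)
    (b : Fin n → ℤ) : Prop :=
  (∏ j, c j ^ a j) * ∏ i : Fin n, z i.succ ^ b i = 1

/-- the functions with bounded degree on the cover given by the `w i` -/
def BAg (L : Type) {Ω : Type} [Field L] [Field Ω] [Algebra L Ω] {n : ℕ} (x : Fin 3 → Ω)
    (w : Fin n → Ω) (θ : Fin n → Fin 3 → ℚ) (K : ℕ) : Submodule L Ω :=
  Submodule.span L {g | ∃ (m : Fin 3 → ℤ) (u : Fin n → ℤ),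
    ∑ j, |(m j : ℚ) + BMF.tx θ u j| ≤ K ∧ g = (∏ j, x j ^ m j) * ∏ i, w i ^ u i}

end BMG
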