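import Pool.Agent.Lib.MP_a325a5_ag.G.Deg1
import Pool.Agent.Lib.MP_a325a5_ag.G.Hil
import Pool.Agent.Lib.MP_a325a5_ag.G.DEb

/-! Lemma 2.3.  (1) If θ ≠ 0 then 1 ≤ σ qn θ: z is transcendental (DE_tr), z^Δ = ∏ x^a, deg1 with v = z, K = Δ, p = 1, N = nm a: Δ ≤ σ nm a = σ Δ qn θ.
(2) r > 3σ an integer.  Pigeonhole for the multiples i θ modulo 1, 0 ≤ i ≤ r^3, in boxes of side 1/r: some 1 ≤ i ≤ r^3 and integral m with
|i θ_j - m_j| < 1/r for all j.  z^i ∏ x^(-m) in KF has the exponent i θ - m with qn < 3/r < 1/σ, so it is 0.  e₀ = (r^3)!. -/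

open NumberField

namespace BMG

variable {k Ω : Type} [Field k] [CharZero k] [Field Ω] [Algebra k Ω] {x : Fin 3 → Ω}


private theorem lat3_one (hx : Crv k x) (σ τ : ℕ)
    (hdim : ∀ K : ℕ, FiniteDimensional k (Bm k x K) ∧
      (Module.finrank k (Bm k x K) : ℝ) ≤ σ * K + τ) (θ : Fin 3 → ℚ) (z : Ω) (h : DE x θ z)
    (hz : z ∈ KF k x) (hθ : θ ≠ 0) : (1 : ℚ) ≤ σ * qn θ := by
  obtain ⟨Δ, hΔ, a, ha, he⟩ := h.2
  have h1 := deg1 hx σ τ hdim z hz (DE_tr hx h hθ) Δ (nm a) hΔ 1 (∏ j, x j ^ a j)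
    (by simpa using Bm_alg (k := k) (x := x) 1 (nm a)) (Bm_mon a le_rfl) one_ne_zero
    (by rw [mul_one]; exact he)
  have h2 : (Δ : ℚ) ≤ σ * nm a := by exact_mod_cast h1
  have h3 : ((nm a : ℕ) : ℚ) = Δ * qn θ := by
    unfold nm qn
    push_cast
    rw [Finset.mul_sum]
    refine Finset.sum_congr rfl fun j _ => ?_
    rw [Nat.cast_natAbs, Int.cast_abs, ha j, abs_mul,
      abs_of_nonneg (Nat.cast_nonneg Δ : (0 : ℚ) ≤ Δ)]
  have hΔ' : (0 : ℚ) < Δ := Nat.cast_pos.mpr hΔ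
  rw [h3] at h2
  by_contra hcon
  push Not at hcon
  have h4 : (σ : ℚ) * (Δ * qn θ) = Δ * (σ * qn θ) := by ring
  rw [h4] at h2
  nlinarith

private theorem lat3_pig (r : ℕ) (hr : 0 < r) (θ : Fin 3 → ℚ) : ∃ d : ℕ, 0 < d ∧ d ≤ r ^ 3 ∧
    ∃ m : Fin 3 → ℤ, ∀ j, |(d : ℚ) * θ j - m j| < 1 / r := by
  classical
  have hr' : (0 : ℚ) < r := Nat.cast_pos.mpr hr
  obtain ⟨φ, hφ⟩ : ∃ φ : ℕ → Fin 3 → ℕ, φ = fun (i : ℕ) j => ⌊(r : ℚ) * Int.fract ((i : ℚ) * θ j)⌋₊ :=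
    ⟨_, rfl⟩
  have hmap : ∀ i ∈ Finset.range (r ^ 3 + 1), φ i ∈ Fintype.piFinset
      (fun _ : Fin 3 => Finset.range r) := by
    intro i _
    rw [Fintype.mem_piFinset]
    intro j
    rw [Finset.mem_range, hφ]
    show ⌊(r : ℚ) * Int.fract ((i : ℚ) * θ j)⌋₊ < r
    rw [Nat.floor_lt (mul_nonneg hr'.le (Int.fract_nonneg _))]
    have := Int.fract_lt_one ((i : ℚ) * θ j)
    nlinarith
  have hcard : (Fintype.piFinset (fun _ : Fin 3 => Finset.range r)).card <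
      (Finset.range (r ^ 3 + 1)).card := by
    rw [Fintype.card_piFinset_const, Finset.card_range, Finset.card_range]
    simp
  obtain ⟨i, hi, i', hi', hne, heq⟩ := Finset.exists_ne_map_eq_of_card_lt_of_maps_to hcard hmap
  have key : ∀ i i' : ℕ, i < i' → i' ∈ Finset.range (r ^ 3 + 1) → φ i = φ i' →
      ∃ d : ℕ, 0 < d ∧ d ≤ r ^ 3 ∧ ∃ m : Fin 3 → ℤ, ∀ j, |(d : ℚ) * θ j - m j| < 1 / r := by
    intro i i' hlt hi' heq
    rw [Finset.mem_range] at hi'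
    refine ⟨i' - i, by omega, by omega, fun j => ⌊(i' : ℚ) * θ j⌋ - ⌊(i : ℚ) * θ j⌋,
      fun j => ?_⟩
    have h1 := congrFun heq j
    rw [hφ] at h1
    have h2 : ⌊(r : ℚ) * Int.fract ((i : ℚ) * θ j)⌋₊ = ⌊(r : ℚ) * Int.fract ((i' : ℚ) * θ j)⌋₊ :=
      h1
    have e1 := Nat.floor_le (mul_nonneg hr'.le (Int.fract_nonneg ((i : ℚ) * θ j)))
    have e2 := Nat.lt_floor_add_one ((r : ℚ) * Int.fract ((i : ℚ) * θ j))
    have e3 := Nat.floor_le (mul_nonneg hr'.le (Int.fract_nonneg ((i' : ℚ) * θ j)))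
    have e4 := Nat.lt_floor_add_one ((r : ℚ) * Int.fract ((i' : ℚ) * θ j))
    rw [h2] at e1 e2
    have f1 := Int.floor_add_fract ((i : ℚ) * θ j)
    have f2 := Int.floor_add_fract ((i' : ℚ) * θ j)
    have e5 : (((i' - i : ℕ) : ℕ) : ℚ) * θ j -
        ((⌊(i' : ℚ) * θ j⌋ - ⌊(i : ℚ) * θ j⌋ : ℤ) : ℚ) =
        Int.fract ((i' : ℚ) * θ j) - Int.fract ((i : ℚ) * θ j) := by
      rw [Nat.cast_sub hlt.le]
      push_cast
      linarith
    rw [e5, abs_lt]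
    constructor
    · have h3 : -(1 : ℚ) < r * (Int.fract ((i' : ℚ) * θ j) - Int.fract ((i : ℚ) * θ j)) := by
        linarith
      rw [← neg_div, div_lt_iff₀ hr']
      linarith
    · have h3 : r * (Int.fract ((i' : ℚ) * θ j) - Int.fract ((i : ℚ) * θ j)) < (1 : ℚ) := by
        linarith
      rw [lt_div_iff₀ hr']
      linarith
  rcases lt_or_gt_of_ne hne with hlt | hlt
  · exact key i i' hlt hi' heq
  · exact key i' i hlt hi heq.symm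

theorem lat3 (hx : Crv k x) : ∃ e₀ : ℕ, 0 < e₀ ∧ ∀ (θ : Fin 3 → ℚ) (z : Ω), DE x θ z →
    z ∈ KF k x → ∀ j, ∃ m : ℤ, (e₀ : ℚ) * θ j = m := by
  obtain ⟨σ, hσ, τ, hdim⟩ := hil hx
  obtain ⟨r, hr⟩ : ∃ r : ℕ, r = 3 * σ + 1 := ⟨_, rfl⟩
  refine ⟨(r ^ 3).factorial, Nat.factorial_pos _, fun θ z h hz j => ?_⟩
  obtain ⟨d, hd, hdr, m, hm⟩ := lat3_pig r (by omega) θ
  have h1 : DE x ((fun j => (d : ℚ) * θ j) - fun j => (m j : ℚ))
      (z ^ d / ∏ j, x j ^ m j) := DE_div hx.ne (DE_pow h d) (DE_mon hx.ne m)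
  have h2 : z ^ d / ∏ j, x j ^ m j ∈ KF k x := div_mem (pow_mem hz d) (mon_KF m)
  have h3 : ((fun j => (d : ℚ) * θ j) - fun j => (m j : ℚ)) = 0 := by
    by_contra hne
    have h4 := lat3_one hx σ τ hdim _ _ h1 h2 hne
    have hr' : (0 : ℚ) < r := by rw [hr]; positivity
    have h5 : qn ((fun j => (d : ℚ) * θ j) - fun j => (m j : ℚ)) < 3 / r := by
      unfold qn
      have h6 : ∀ j, |((fun j => (d : ℚ) * θ j) - fun j => (m j : ℚ)) j| < 1 / r := hm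
      rw [Fin.sum_univ_three]
      have a0 := h6 0
      have a1 := h6 1
      have a2 := h6 2
      have e : (3 : ℚ) / r = 1 / r + 1 / r + 1 / r := by ring
      rw [e]
      linarith
    have h7 : (σ : ℚ) * (3 / r) < 1 := by
      rw [mul_div_assoc', div_lt_one hr', hr]
      push_cast
      linarith
    have hσ' : (0 : ℚ) < σ := Nat.cast_pos.mpr hσ
    have h8 := mul_lt_mul_of_pos_left h5 hσ'
    linarith
  have h4 := congrFun h3 j
  have h5 : (d : ℚ) * θ j = m j := by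
    have : (d : ℚ) * θ j - m j = 0 := h4
    linarith
  obtain ⟨e, he⟩ := Nat.dvd_factorial hd hdr
  refine ⟨e * m j, ?_⟩
  rw [he]
  push_cast
  rw [← h5]
  ring

end BMG
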