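import Pool.Agent.Lib.MP_a325a5_ag.G.GDef
import Pool.Agent.Lib.MP_a325a5_ag.S.Mann

/-! Lemma 2.9.  k is an algebraic closure of ℚ: k ≃ AlgebraicClosure ℚ (IsAlgClosure.equiv).  v_1..v_r a basis over k of the span of the a_i in Ω,
a_i = ∑_l c_il v_l; G_i = ∑_l c_il Y^l in k[Y].  L' = a number field in k containing all c_il.  The η_i are in k (roots of unity).  For every I:
∑_{i in I} η_i a_i = 0 iff ∑_{i in I} η_i G_i = 0.  Apply BMF.mann (S/Mann.lean) for L' and n. -/

open NumberField BMF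

namespace BMG

private theorem mannG_root {k Ω : Type} [Field k] [IsAlgClosed k] [Field Ω] [Algebra k Ω] {η : Ω}
    {m : ℕ} (hm : 0 < m) (h : η ^ m = 1) : ∃ ξ : k, algebraMap k Ω ξ = η := by
  have hint : IsIntegral k η := by
    refine ⟨Polynomial.X ^ m - Polynomial.C 1, Polynomial.monic_X_pow_sub_C 1 hm.ne', ?_⟩
    simp [h]
  have h1 := IsAlgClosed.degree_eq_one_of_irreducible k (minpoly.irreducible hint)
  exact minpoly.mem_range_of_degree_eq_one k η h1

private theorem mannG_mon {K : Type} [Field K] {r : ℕ} (b : Fin r → K) :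
    ∑ l : Fin r, Polynomial.monomial (l : ℕ) (b l) = 0 ↔ ∀ l, b l = 0 := by
  constructor
  · intro h l
    have h1 := congrArg (fun p => Polynomial.coeff p (l : ℕ)) h
    simp only [Polynomial.finset_sum_coeff, Polynomial.coeff_monomial, Polynomial.coeff_zero,
      Fin.val_inj] at h1
    rwa [Finset.sum_ite_eq' Finset.univ l b, if_pos (Finset.mem_univ l)] at h1
  · intro h
    simp [h]

theorem mannG {k Ω : Type} [Field k] [CharZero k] [IsAlgClosed k] [Algebra.IsAlgebraic ℚ k]
    [Field Ω] [Algebra k Ω] {n : ℕ} (a : Fin (n + 1) → Ω) :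
    ∃ N : ℕ, 0 < N ∧ ∀ η : Fin (n + 1) → Ω, η 0 = 1 → (∀ i, ∃ m : ℕ, 0 < m ∧ η i ^ m = 1) →
      NVS (fun i => η i * a i) → ∀ i, η i ^ N = 1 := by
  classical
  haveI hA : Algebra.IsAlgebraic ℚ (AlgebraicClosure ℚ) := AlgebraicClosure.isAlgebraic ℚ
  haveI : IsAlgClosure ℚ (AlgebraicClosure ℚ) := ⟨inferInstance, hA⟩
  haveI : IsAlgClosure ℚ k := ⟨inferInstance, inferInstance⟩
  let e : k ≃ₐ[ℚ] AlgebraicClosure ℚ := IsAlgClosure.equiv ℚ k (AlgebraicClosure ℚ)
  let V : Submodule k Ω := Submodule.span k (Set.range a)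
  haveI : FiniteDimensional k V := FiniteDimensional.span_of_finite k (Set.finite_range a)
  let A : Fin (n + 1) → V := fun i => ⟨a i, Submodule.subset_span ⟨i, rfl⟩⟩
  let φ : V ≃ₗ[k] (Fin (Module.finrank k V) → k) := (Module.finBasis k V).equivFun
  let S : Set (AlgebraicClosure ℚ) := Set.range fun q : Fin (n + 1) × Fin (Module.finrank k V) =>
    e (φ (A q.1) q.2)
  let L' : IntermediateField ℚ (AlgebraicClosure ℚ) := IntermediateField.adjoin ℚ S
  haveI : Finite S := Set.finite_range _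
  haveI : FiniteDimensional ℚ L' := IntermediateField.finiteDimensional_adjoin
    fun x _ => Algebra.IsIntegral.isIntegral x
  haveI : NumberField L' := ⟨⟩
  have hmem : ∀ i l, e (φ (A i) l) ∈ L' := fun i l =>
    IntermediateField.subset_adjoin ℚ S ⟨(i, l), rfl⟩
  obtain ⟨N, hN, hmann⟩ := mann L' n
  refine ⟨N, hN, fun η h0 hroot hnvs => ?_⟩
  have hξ : ∀ i, ∃ ξ : k, algebraMap k Ω ξ = η i := fun i => by
    obtain ⟨m, hm, h⟩ := hroot i
    exact mannG_root hm h
  choose ξ hξ using hξ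
  let G : Fin (n + 1) → Polynomial L' := fun i =>
    ∑ l : Fin (Module.finrank k V), Polynomial.monomial (l : ℕ) (⟨e (φ (A i) l), hmem i l⟩ : L')
  have key1 : ∀ I : Finset (Fin (n + 1)), (∑ i ∈ I, η i * a i = 0) ↔
      ∀ l, ∑ i ∈ I, ξ i * φ (A i) l = 0 := by
    intro I
    have h1 : (∑ i ∈ I, η i * a i) = ((∑ i ∈ I, ξ i • A i : V) : Ω) := by
      rw [Submodule.coe_sum]
      refine Finset.sum_congr rfl fun i _ => ?_
      rw [Submodule.coe_smul, Algebra.smul_def, hξ]
    rw [h1, Submodule.coe_eq_zero, ← φ.map_eq_zero_iff, funext_iff]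
    refine forall_congr' fun l => ?_
    rw [map_sum, Finset.sum_apply, Pi.zero_apply]
    simp only [map_smul, Pi.smul_apply, smul_eq_mul]
  have key2 : ∀ I : Finset (Fin (n + 1)),
      (∑ i ∈ I, Polynomial.C (e (ξ i)) * (G i).map (algebraMap L' (AlgebraicClosure ℚ)) = 0) ↔
      ∀ l, ∑ i ∈ I, ξ i * φ (A i) l = 0 := by
    intro I
    have h1 : ∑ i ∈ I, Polynomial.C (e (ξ i)) * (G i).map (algebraMap L' (AlgebraicClosure ℚ)) =
        ∑ l : Fin (Module.finrank k V), Polynomial.monomial (l : ℕ)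
          (e (∑ i ∈ I, ξ i * φ (A i) l)) := by
      have h2 : ∀ i, (G i).map (algebraMap L' (AlgebraicClosure ℚ)) =
          ∑ l : Fin (Module.finrank k V), Polynomial.monomial (l : ℕ) (e (φ (A i) l)) := by
        intro i
        show (∑ l : Fin (Module.finrank k V), Polynomial.monomial (l : ℕ)
          (⟨e (φ (A i) l), hmem i l⟩ : L')).map (algebraMap L' (AlgebraicClosure ℚ)) = _
        rw [Polynomial.map_sum]
        refine Finset.sum_congr rfl fun l _ => ?_
        rw [Polynomial.map_monomial]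
        rfl
      simp only [h2, Finset.mul_sum, Polynomial.C_mul_monomial]
      rw [Finset.sum_comm]
      refine Finset.sum_congr rfl fun l _ => ?_
      rw [map_sum, map_sum]
      refine Finset.sum_congr rfl fun i _ => ?_
      rw [map_mul e]
    rw [h1, mannG_mon]
    refine forall_congr' fun l => ?_
    exact e.toRingEquiv.map_eq_zero_iff
  have hres := hmann G (fun i => e (ξ i)) ?_ ?_ ?_ ?_
  · intro i
    have h1 := hres i
    rw [← map_pow] at h1
    have h2 : ξ i ^ N = 1 := e.injective (h1.trans (map_one e).symm)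
    rw [← hξ i, ← map_pow, h2, map_one]
  · have h1 : ξ 0 = 1 := (algebraMap k Ω).injective (by rw [hξ, h0, map_one])
    show e (ξ 0) = 1
    rw [h1, map_one]
  · intro i
    obtain ⟨m, hm, h⟩ := hroot i
    refine ⟨m, hm, ?_⟩
    have h1 : ξ i ^ m = 1 := (algebraMap k Ω).injective (by rw [map_pow, hξ, h, map_one])
    show e (ξ i) ^ m = 1
    rw [← map_pow, h1, map_one]
  · rw [key2, ← key1]
    exact hnvs.1
  · intro I hI1 hI2
    rw [Ne, key2, ← key1]
    exact hnvs.2 I hI1 hI2

end BMG
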