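import Pool.Agent.Lib.MP_a325a5_ag.G.FFk
import Pool.Agent.Lib.MP_a325a5_ag.G.CrvM

/-! Proposition 2.10 over a number field: ffk for k = algebraicClosure L Ω and the images of the f i (crvM, isAlgClosedM, isAlgQ). -/

open NumberField BMF

namespace BMG

theorem ff {L Ω : Type} [Field L] [NumberField L] [Field Ω] [IsAlgClosed Ω] [Algebra L Ω]
    {x : Fin 3 → Ω} (hx : Crv L x) {n : ℕ} (f : Fin (n + 1) → Polynomial L)
    (hf : ∀ i, f i ≠ 0) :
    ∃ N₀ C₀ : ℕ, 0 < N₀ ∧ ∀ z : Fin (n + 1) → Ω, z 0 = 1 → (∀ i, ∃ θ, DE x θ (z i)) →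
      NVS (fun i => Polynomial.aeval (x 0) (f i) * z i) →
      ∀ i, ∃ κ : Fin 3 → ℤ, (∀ j, |κ j| ≤ C₀) ∧ z i ^ N₀ = ∏ j, x j ^ κ j := by
  have h1 : CharZero (algebraicClosure L Ω) :=
    charZero_of_injective_algebraMap (algebraMap L (algebraicClosure L Ω)).injective
  have h2 : IsAlgClosed (algebraicClosure L Ω) := isAlgClosedM
  have h3 : Algebra.IsAlgebraic ℚ (algebraicClosure L Ω) := isAlgQ
  obtain ⟨N₀, C₀, hN, h⟩ := ffk (k := algebraicClosure L Ω) (crvM hx)
    (fun i => (f i).map (algebraMap L (algebraicClosure L Ω))) (fun i => by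
      rw [Ne, Polynomial.map_eq_zero_iff (algebraMap L (algebraicClosure L Ω)).injective]
      exact hf i)
  refine ⟨N₀, C₀, hN, fun z z0 hz hv => h z z0 hz ?_⟩
  have e : (fun i => Polynomial.aeval (x 0) ((f i).map (algebraMap L (algebraicClosure L Ω))) * z i) =
      fun i => Polynomial.aeval (x 0) (f i) * z i := by
    funext i
    rw [Polynomial.aeval_map_algebraMap]
  rw [e]
  exact hv

end BMG
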