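import Pool.Agent.Lib.MP_a325a5_ag.G.GDef
import Pool.Agent.Lib.MP_a325a5_ag.G.BmB

/-! The polynomial of Lemma 5.1.  KF L x is finite over L(x j) for every j (all elements of Ω are algebraic over L(x 0), and x 0 is algebraic over L(x j)
because x j is transcendental over L and algebraic over L(x 0)); n₀ = maximum of the degrees.  y = ∏ x^b in KF has degree ≤ n₀ over L(x j): there is
H ≠ 0 in L[X][Y], degree in Y at most n₀, H(x_j, y) = 0.  Swap the variables: G ≠ 0 in L[Y][X] with coefficients of degree ≤ n₀ and G(y, x_j) = 0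
(inner variable Y for y).  y is transcendental over L (Crv.tr), so the content of G does not vanish at y: take the primitive part. -/

open NumberField

namespace BMG

open Polynomial in
private theorem gpol_ex {k Ω : Type} [Field k] [Field Ω] [Algebra k Ω] (u y : Ω)
    (Q : Polynomial (IntermediateField.adjoin k {u})) (hQ0 : Q ≠ 0) (hQ : aeval y Q = 0) :
    ∃ P : Polynomial (Polynomial k), P ≠ 0 ∧ P.natDegree ≤ Q.natDegree ∧
      Polynomial.aevalAeval u y P = 0 := by
  classical
  have key : ∀ c : IntermediateField.adjoin k {u}, ∃ r s : k[X], aeval u s ≠ 0 ∧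
      (c : Ω) * aeval u s = aeval u r := by
    intro c
    obtain ⟨r, s, h⟩ := (IntermediateField.mem_adjoin_simple_iff k _).mp c.2
    by_cases hs : aeval u s = 0
    · refine ⟨0, 1, by simp, ?_⟩
      rw [h, hs, div_zero]
      simp
    · exact ⟨r, s, hs, by rw [h]; field_simp⟩
  choose r s hs hrs using key
  set n := Q.natDegree with hn
  set I := Finset.range (n + 1) with hI
  let S : k[X] := ∏ i ∈ I, s (Q.coeff i)
  have hS : aeval u S ≠ 0 := by
    rw [map_prod]
    exact Finset.prod_ne_zero_iff.mpr fun i _ => hs _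
  let q : ℕ → k[X] := fun i => r (Q.coeff i) * ∏ l ∈ I.erase i, s (Q.coeff l)
  have hq : ∀ i ∈ I, aeval u (q i) = (Q.coeff i : Ω) * aeval u S := by
    intro i hi
    have h1 : aeval u (q i) = aeval u (r (Q.coeff i)) *
        ∏ l ∈ I.erase i, aeval u (s (Q.coeff l)) := by
      simp only [q, map_mul, map_prod]
    rw [h1, ← hrs, map_prod, ← Finset.mul_prod_erase I _ hi]
    ring
  refine ⟨∑ i ∈ I, C (q i) * X ^ i, ?_, ?_, ?_⟩
  · intro h0
    have h1 : (∑ i ∈ I, C (q i) * X ^ i : k[X][X]).coeff n = q n := by
      rw [finsetSum_coeff]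
      rw [Finset.sum_eq_single n]
      · rw [coeff_C_mul, coeff_X_pow_self, mul_one]
      · intro b _ hb
        rw [coeff_C_mul, coeff_X_pow, if_neg (Ne.symm hb), mul_zero]
      · intro h
        exact absurd (Finset.mem_range.mpr (Nat.lt_succ_self n)) h
    rw [h0, coeff_zero] at h1
    have h2 := hq n (Finset.mem_range.mpr (Nat.lt_succ_self n))
    rw [← h1, map_zero] at h2
    have h3 : (Q.coeff n : Ω) ≠ 0 := by
      intro h4
      apply hQ0
      rw [← leadingCoeff_eq_zero]
      exact Subtype.ext h4
    exact (mul_ne_zero h3 hS) h2.symm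
  · refine natDegree_sum_le_of_forall_le _ _ fun i hi => ?_
    refine (natDegree_C_mul_X_pow_le _ _).trans ?_
    exact Nat.lt_succ_iff.mp (Finset.mem_range.mp hi)
  · rw [map_sum]
    have h1 : ∀ i ∈ I, aevalAeval u y (C (q i) * X ^ i : k[X][X]) =
        aeval u S * ((Q.coeff i : Ω) * y ^ i) := by
      intro i hi
      rw [map_mul, map_pow, aevalAeval_C, aevalAeval_Y, hq i hi]
      ring
    rw [Finset.sum_congr rfl h1, ← Finset.mul_sum]
    have h2 : ∑ i ∈ I, (Q.coeff i : Ω) * y ^ i = aeval y Q := by
      rw [aeval_eq_sum_range]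
      rfl
    rw [h2, hQ, mul_zero]

open Polynomial in
private theorem gpol_tr {L Ω : Type} [Field L] [CharZero L] [Field Ω] [Algebra L Ω]
    {x : Fin 3 → Ω} (hx : Crv L x) (j : Fin 3) : Transcendental L (x j) := by
  have h := hx.tr (Pi.single j 1) (by simp)
  have h1 : ∏ i, x i ^ (Pi.single j 1 : Fin 3 → ℤ) i = x j := by
    rw [Finset.prod_eq_single j]
    · simp
    · intro i _ hi
      rw [Pi.single_eq_of_ne hi, zpow_zero]
    · intro h
      exact absurd (Finset.mem_univ _) h
  rwa [h1] at h

open Polynomial in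
private theorem gpol_x0 {L Ω : Type} [Field L] [CharZero L] [Field Ω] [Algebra L Ω]
    {x : Fin 3 → Ω} (hx : Crv L x) (j : Fin 3) :
    IsAlgebraic (IntermediateField.adjoin L {x j}) (x 0) := by
  obtain ⟨Q, hQ0, hQ⟩ := hx.alg (x j)
  obtain ⟨P, hP0, -, hP⟩ := gpol_ex (x 0) (x j) Q hQ0 hQ
  have hj := gpol_tr hx j
  have hinj : ∀ p : L[X], aeval (x j) p = 0 → p = 0 := by
    intro p hp
    by_contra h0
    exact hj ⟨p, h0, hp⟩
  set P' := Bivariate.swap P with hP'
  have h0 : P' ≠ 0 := by
    intro h
    apply hP0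
    rw [hP'] at h
    exact (map_eq_zero_iff _ (AlgEquiv.injective _)).mp h
  have h1 : aevalAeval (x j) (x 0) P' = 0 := by
    rw [hP', Bivariate.aevalAeval_swap, hP]
  let g : L[X] →+* IntermediateField.adjoin L {x j} :=
    (aeval (⟨x j, IntermediateField.mem_adjoin_simple_self L (x j)⟩ :
      IntermediateField.adjoin L {x j})).toRingHom
  have hg : ∀ p : L[X], ((g p : IntermediateField.adjoin L {x j}) : Ω) = aeval (x j) p := by
    intro p
    have := Polynomial.aeval_algebraMap_apply Ω
      (⟨x j, IntermediateField.mem_adjoin_simple_self L (x j)⟩ :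
        IntermediateField.adjoin L {x j}) p
    exact this.symm
  refine ⟨P'.map g, ?_, ?_⟩
  · intro h
    apply h0
    ext1 i
    have h2 : (P'.map g).coeff i = 0 := by rw [h, coeff_zero]
    rw [coeff_map] at h2
    rw [coeff_zero]
    apply hinj
    rw [← hg, h2]
    rfl
  · rw [aeval_def, eval₂_map]
    rw [← h1]
    have : (algebraMap (IntermediateField.adjoin L {x j}) Ω).comp g =
        (aeval (x j) : L[X] →ₐ[L] Ω).toRingHom := by
      refine RingHom.ext fun p => ?_
      exact hg p
    rw [this]
    have h3 : (aevalAeval (x j) (x 0) P' : Ω) =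
        eval₂ (aeval (x j) : L[X] →ₐ[L] Ω).toRingHom (x 0) P' := by
      clear_value P'
      clear hP' h0 h1
      induction P' using Polynomial.induction_on' with
      | add p q hp hq => rw [map_add, eval₂_add, hp, hq]
      | monomial n a =>
        rw [eval₂_monomial, ← C_mul_X_pow_eq_monomial, map_mul, map_pow, aevalAeval_C,
          aevalAeval_Y]
        rfl
    rw [h3]

open Polynomial in
private theorem gpol_alg {L Ω : Type} [Field L] [CharZero L] [Field Ω] [Algebra L Ω]
    {x : Fin 3 → Ω} (hx : Crv L x) (j : Fin 3) (y : Ω) :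
    IsAlgebraic (IntermediateField.adjoin L {x j}) y := by
  set F := IntermediateField.adjoin L {x j} with hF
  let M : IntermediateField F Ω := IntermediateField.adjoin F {x 0}
  have hM : Algebra.IsAlgebraic F M :=
    IntermediateField.isAlgebraic_adjoin_simple (gpol_x0 hx j).isIntegral
  obtain ⟨Q, hQ0, hQ⟩ := hx.alg y
  have hle : IntermediateField.adjoin L {x 0} ≤ M.restrictScalars L := by
    rw [IntermediateField.adjoin_le_iff]
    rintro z rfl
    exact IntermediateField.mem_adjoin_simple_self F (x 0)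
  let i := IntermediateField.inclusion hle
  have h2 : IsAlgebraic M y := by
    refine ⟨Q.map i.toRingHom, ?_, ?_⟩
    · exact (Polynomial.map_ne_zero_iff (RingHom.injective _)).mpr hQ0
    · rw [aeval_def, eval₂_map]
      exact hQ
  exact h2.restrictScalars F

open Polynomial in
theorem gpol {L Ω : Type} [Field L] [CharZero L] [Field Ω] [Algebra L Ω] {x : Fin 3 → Ω}
    (hx : Crv L x) : ∃ n₀ : ℕ, 1 ≤ n₀ ∧ ∀ (b : Fin 3 → ℤ), b ≠ 0 → ∀ j,
    ∃ G : Polynomial (Polynomial L), G.IsPrimitive ∧ (∀ i, (G.coeff i).natDegree ≤ n₀) ∧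
      Polynomial.aevalAeval (∏ l, x l ^ b l) (x j) G = 0 := by
  classical
  have hfd : ∀ j, FiniteDimensional (IntermediateField.adjoin L {x j})
      (IntermediateField.adjoin (IntermediateField.adjoin L {x j}) (Set.range x)) := by
    intro j
    refine IntermediateField.finiteDimensional_adjoin ?_
    rintro _ ⟨l, rfl⟩
    exact (gpol_alg hx j (x l)).isIntegral
  let n : Fin 3 → ℕ := fun j => Module.finrank (IntermediateField.adjoin L {x j})
    (IntermediateField.adjoin (IntermediateField.adjoin L {x j}) (Set.range x))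
  refine ⟨∑ j, n j + 1, Nat.le_add_left _ _, fun b hb j => ?_⟩
  set y := ∏ l, x l ^ b l with hy
  have hyE : y ∈ IntermediateField.adjoin (IntermediateField.adjoin L {x j}) (Set.range x) :=
    prod_mem fun l _ => zpow_mem
      (IntermediateField.subset_adjoin (IntermediateField.adjoin L {x j}) (Set.range x)
        (Set.mem_range_self l)) _
  have := hfd j
  set Q := minpoly (IntermediateField.adjoin L {x j})
    (⟨y, hyE⟩ : IntermediateField.adjoin (IntermediateField.adjoin L {x j}) (Set.range x)) with hQ
  have hint : IsIntegral (IntermediateField.adjoin L {x j})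
    (⟨y, hyE⟩ : IntermediateField.adjoin (IntermediateField.adjoin L {x j}) (Set.range x)) :=
    IsIntegral.of_finite _ _
  have hQ0 : Q ≠ 0 := minpoly.ne_zero hint
  have hQd : Q.natDegree ≤ n j := minpoly.natDegree_le _
  have hQy : aeval y Q = 0 := by
    have h := Polynomial.aeval_algebraMap_apply Ω
      (⟨y, hyE⟩ : IntermediateField.adjoin (IntermediateField.adjoin L {x j}) (Set.range x)) Q
    rw [hQ, minpoly.aeval, map_zero] at h
    exact h
  obtain ⟨H, hH0, hHd, hH⟩ := gpol_ex (x j) y Q hQ0 hQy
  have hy : Transcendental L y := hx.tr b hb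
  have hinj : ∀ p : L[X], aeval y p = 0 → p = 0 := by
    intro p hp
    by_contra h0
    exact hy ⟨p, h0, hp⟩
  set G0 := Bivariate.swap H with hG0
  have h0 : G0 ≠ 0 := by
    intro h
    apply hH0
    rw [hG0] at h
    exact (map_eq_zero_iff _ (AlgEquiv.injective _)).mp h
  have h1 : aevalAeval y (x j) G0 = 0 := by
    rw [hG0, Bivariate.aevalAeval_swap, hH]
  have hsw : ∀ (P : L[X][X]) (i l : ℕ), ((Bivariate.swap P).coeff i).coeff l =
      (P.coeff l).coeff i := by
    intro P i l
    induction P using Polynomial.induction_on' with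
    | add p q hp hq => rw [map_add, coeff_add, coeff_add, hp, hq, coeff_add, coeff_add]
    | monomial n a =>
      rw [Bivariate.swap_monomial, coeff_mul_C, coeff_map, coeff_C_mul, coeff_X_pow,
        coeff_monomial]
      by_cases hnl : l = n
      · subst hnl
        simp
      · rw [if_neg hnl, if_neg (Ne.symm hnl), mul_zero, coeff_zero]
  have hdeg : ∀ i, (G0.coeff i).natDegree ≤ n j := by
    intro i
    rw [natDegree_le_iff_coeff_eq_zero]
    intro l hl
    rw [hG0, hsw, coeff_eq_zero_of_natDegree_lt (lt_of_le_of_lt (hHd.trans hQd) hl), coeff_zero]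
  letI : NormalizedGCDMonoid L[X] := UniqueFactorizationMonoid.toNormalizedGCDMonoid L[X]
  have hc : G0 = C G0.content * G0.primPart := G0.eq_C_content_mul_primPart
  have hc0 : G0.content ≠ 0 := content_eq_zero_iff.not.mpr h0
  have hroot : aevalAeval y (x j) G0.primPart = 0 := by
    rw [hc, map_mul, aevalAeval_C] at h1
    rcases mul_eq_zero.mp h1 with h | h
    · exact absurd (hinj _ h) hc0
    · exact h
  refine ⟨G0.primPart, isPrimitive_primPart G0, fun i => ?_, hroot⟩
  have h2 : G0.coeff i = G0.content * G0.primPart.coeff i := by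
    conv_lhs => rw [hc]
    rw [coeff_C_mul]
  have h3 : (G0.primPart.coeff i).natDegree ≤ (G0.coeff i).natDegree := by
    by_cases hz : G0.primPart.coeff i = 0
    · rw [hz, natDegree_zero]
      exact Nat.zero_le _
    · rw [h2, natDegree_mul hc0 hz]
      exact Nat.le_add_left _ _
  have h4 : n j ≤ ∑ j, n j := Finset.single_le_sum (fun _ _ => Nat.zero_le _) (Finset.mem_univ j)
  exact (h3.trans (hdeg i)).trans (h4.trans (Nat.le_succ _))

end BMG
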