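import Pool.Agent.Lib.MP_a325a5_ag.G.GDef

/-! Lemma 3.1 (Chevalley; Atiyah-Macdonald 5.21).  Start: by OnC the map x_j -> c_j extends to an L-homomorphism of the algebra generated by the x_j.
Zorn: a maximal pair (R, π), R a subalgebra of Ω containing the x_j, π : R → E an L-homomorphism with π x_j = c_j.  (loc) if π y ≠ 0, y in R, then π
extends to R[1/y].  (val) y ≠ 0: with mm = ker π (maximal by loc) one of mm R[y], mm R[1/y] is proper (otherwise two relations 1 = ∑ a_i y^i,
1 = ∑ b_i y^(-i) with a_i, b_i in mm of least degree contradict each other); say the first; a maximal ideal nn over it; R[y]/nn is a field which is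
finitely generated as an algebra over the field R/mm, so algebraic over it (Zariski's lemma), and embeds in the algebraically closed E over R/mm.
Mathlib: exists_factor_valuationRing / LocalSubring.exists_le_valuationSubring may shorten this (then one still needs that the
residue field embeds in E over R/mm: use the Zorn argument instead if this is unclear). -/

open NumberField

namespace BMG

/-- over a ring with enough units the value of a further element can be prescribed, or the
element is not finite -/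
private theorem pla_B {A Ω E : Type} [CommRing A] [Field Ω] [Field E] [IsAlgClosed E]
    (f : A →+* Ω) (g : A →+* E) (hloc : ∀ a, g a ≠ 0 → IsUnit a) (y : Ω) :
    (∃ e : E, ∀ p : Polynomial A, p.eval₂ f y = 0 → p.eval₂ g e = 0) ∨
      (∃ p : Polynomial A, p.eval₂ f y = 0 ∧ p.map g = 1) := by
  classical
  by_cases hI : ∃ p : Polynomial A, p.eval₂ f y = 0 ∧ p.map g ≠ 0
  · -- minimal degree
    have hex : ∃ n : ℕ, ∃ p : Polynomial A, p.eval₂ f y = 0 ∧ p.map g ≠ 0 ∧
        (p.map g).natDegree = n := by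
      obtain ⟨p, h1, h2⟩ := hI
      exact ⟨_, p, h1, h2, rfl⟩
    obtain ⟨p, h1, h2, h3⟩ := Nat.find_spec hex
    have hmin : ∀ q : Polynomial A, q.eval₂ f y = 0 → q.map g ≠ 0 →
        (p.map g).natDegree ≤ (q.map g).natDegree := by
      intro q hq hq0
      rw [h3]
      exact Nat.find_min' hex ⟨q, hq, hq0, rfl⟩
    -- make it monic
    obtain ⟨a, ha⟩ : ∃ a : A, g a = (p.map g).leadingCoeff :=
      ⟨p.coeff (p.map g).natDegree, by rw [Polynomial.leadingCoeff, Polynomial.coeff_map]⟩
    have ha0 : g a ≠ 0 := by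
      rw [ha]
      exact Polynomial.leadingCoeff_ne_zero.2 h2
    obtain ⟨u, rfl⟩ := hloc a ha0
    obtain ⟨p1, hp1⟩ : ∃ p1 : Polynomial A, p1 = Polynomial.C (↑u⁻¹ : A) * p := ⟨_, rfl⟩
    have hb : g (↑u⁻¹ : A) * g (u : A) = 1 := by
      rw [← map_mul, Units.inv_mul, map_one]
    have hp1map : p1.map g = Polynomial.C (g (↑u⁻¹ : A)) * p.map g := by
      rw [hp1, Polynomial.map_mul, Polynomial.map_C]
    have hmon : (p1.map g).Monic := by
      rw [Polynomial.Monic, hp1map, Polynomial.leadingCoeff_mul, Polynomial.leadingCoeff_C, ← ha, hb]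
    have hev : p1.eval₂ f y = 0 := by
      rw [hp1, Polynomial.eval₂_mul, h1, mul_zero]
    have hb0 : g (↑u⁻¹ : A) ≠ 0 := left_ne_zero_of_mul_eq_one hb
    have hdeg : (p1.map g).natDegree = (p.map g).natDegree := by
      rw [hp1map, Polynomial.natDegree_C_mul hb0]
    have hdvd : ∀ (n : ℕ) (q : Polynomial A), (q.map g).natDegree < n → q.eval₂ f y = 0 →
        p1.map g ∣ q.map g := by
      intro n
      induction n with
      | zero => intro q hq; omega
      | succ n ih =>
        intro q hqn hq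
        by_cases hq0 : q.map g = 0
        · rw [hq0]; exact dvd_zero _
        have hle : (p1.map g).natDegree ≤ (q.map g).natDegree := by
          rw [hdeg]; exact hmin q hq hq0
        obtain ⟨q1, hq1⟩ : ∃ q1 : Polynomial A, q1 = q - p1 * (Polynomial.C
          (q.coeff (q.map g).natDegree) *
            Polynomial.X ^ ((q.map g).natDegree - (p1.map g).natDegree)) := ⟨_, rfl⟩
        have hq1m : q1.map g = q.map g - p1.map g * (Polynomial.C ((q.map g).leadingCoeff) *
            Polynomial.X ^ ((q.map g).natDegree - (p1.map g).natDegree)) := by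
          rw [hq1, Polynomial.map_sub, Polynomial.map_mul, Polynomial.map_mul, Polynomial.map_C,
            Polynomial.map_pow, Polynomial.map_X, Polynomial.leadingCoeff, Polynomial.coeff_map]
        have hq1e : q1.eval₂ f y = 0 := by
          rw [hq1, Polynomial.eval₂_sub, Polynomial.eval₂_mul, hev, zero_mul, hq, sub_zero]
        have hlt := Polynomial.div_wf_lemma (p := q.map g) (q := p1.map g)
          ⟨by
            rw [Polynomial.degree_eq_natDegree hmon.ne_zero, Polynomial.degree_eq_natDegree hq0]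
            exact_mod_cast hle, hq0⟩ hmon
        rw [← hq1m] at hlt
        have hd : p1.map g ∣ q1.map g := by
          by_cases h0 : q1.map g = 0
          · rw [h0]; exact dvd_zero _
          · refine ih q1 ?_ hq1e
            have := Polynomial.natDegree_lt_natDegree h0 hlt
            omega
        rw [hq1m] at hd
        exact (dvd_sub_left (dvd_mul_right _ _)).1 hd
    by_cases hdg : (p1.map g).natDegree = 0
    · right
      exact ⟨p1, hev, hmon.natDegree_eq_zero.1 hdg⟩
    · left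
      obtain ⟨e, he⟩ := IsAlgClosed.exists_root (p1.map g) (by
        intro h
        exact hdg (Polynomial.natDegree_eq_of_degree_eq_some h))
      refine ⟨e, fun q hq => ?_⟩
      obtain ⟨t, ht⟩ := hdvd _ q (Nat.lt_succ_self _) hq
      rw [Polynomial.eval₂_eq_eval_map, ht, Polynomial.eval_mul, he.eq_zero, zero_mul]
  · left
    refine ⟨0, fun p hp => ?_⟩
    have h0 : p.map g = 0 := by
      by_contra h
      exact hI ⟨p, hp, h⟩
    rw [Polynomial.eval₂_eq_eval_map, h0, Polynomial.eval_zero]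

/-- the graphs of the partial homomorphisms -/
private def PlaS (L : Type) {Ω E : Type} [Field L] [Field Ω] [Field E] [Algebra L Ω] [Algebra L E]
    (x : Fin 3 → Ω) (c : Fin 3 → E) : Set (Subalgebra L (Ω × E)) :=
  {G | (∀ j, (x j, c j) ∈ G) ∧ ∀ e : E, ((0 : Ω), e) ∈ G → e = 0}

section pla

variable {L Ω E : Type} [Field L] [Field Ω] [Field E] [Algebra L Ω] [Algebra L E]
  {x : Fin 3 → Ω} {c : Fin 3 → E}

private theorem pla_start (h : OnC L x c) : ∃ G, G ∈ PlaS L x c := by
  refine ⟨(MvPolynomial.aeval (R := L) fun j => ((x j, c j) : Ω × E)).range, fun j =>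
    ⟨MvPolynomial.X j, by simp⟩, ?_⟩
  rintro e ⟨p, hp⟩
  have h1 : MvPolynomial.aeval x p = 0 := by
    have := congrArg (AlgHom.fst L Ω E) hp
    change ((AlgHom.fst L Ω E).comp (MvPolynomial.aeval (R := L) fun j => ((x j, c j) : Ω × E))) p
      = 0 at this
    rw [MvPolynomial.comp_aeval] at this
    exact this
  have h2 : MvPolynomial.aeval c p = e := by
    have := congrArg (AlgHom.snd L Ω E) hp
    change ((AlgHom.snd L Ω E).comp (MvPolynomial.aeval (R := L) fun j => ((x j, c j) : Ω × E))) p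
      = e at this
    rw [MvPolynomial.comp_aeval] at this
    exact this
  rw [← h2]
  exact h p h1

private theorem pla_zorn (h : OnC L x c) : ∃ G, Maximal (· ∈ PlaS L x c) G := by
  obtain ⟨G0, hG0⟩ := pla_start h
  obtain ⟨G, -, hG⟩ := zorn_le_nonempty₀ (PlaS L x c) (by
    intro C hC hchain y hy
    have : Nonempty C := ⟨⟨y, hy⟩⟩
    have hdir : Directed (· ≤ ·) (fun G : C => (G : Subalgebra L (Ω × E))) :=
      hchain.directed
    have hcoe := Subalgebra.coe_iSup_of_directed hdir
    have hmem : ∀ w : Ω × E, w ∈ (⨆ G : C, (G : Subalgebra L (Ω × E))) ↔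
        ∃ G : C, w ∈ (G : Subalgebra L (Ω × E)) := by
      intro w
      rw [← SetLike.mem_coe, hcoe, Set.mem_iUnion]
      rfl
    refine ⟨⨆ G : C, (G : Subalgebra L (Ω × E)), ⟨fun j => ?_, fun e he => ?_⟩, fun z hz => ?_⟩
    · exact (hmem _).2 ⟨⟨y, hy⟩, (hC hy).1 j⟩
    · obtain ⟨G, hG⟩ := (hmem _).1 he
      exact (hC G.2).2 e hG
    · exact le_iSup (fun G : C => (G : Subalgebra L (Ω × E))) ⟨z, hz⟩) G0 hG0
  exact ⟨G, hG⟩

variable {G : Subalgebra L (Ω × E)}

private theorem pla_unit (hG : Maximal (· ∈ PlaS L x c) G) (w : G) (hw : (w : Ω × E).2 ≠ 0) :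
    IsUnit w := by
  obtain ⟨⟨y, e⟩, hye⟩ := w
  change e ≠ 0 at hw
  have hy : y ≠ 0 := by
    rintro rfl
    exact hw (hG.1.2 e hye)
  obtain ⟨G', hG'⟩ : ∃ G' : Subalgebra L (Ω × E), ∀ z, z ∈ G' ↔ ∃ n : ℕ, z * (y, e) ^ n ∈ G := by
    refine ⟨{ carrier := {z | ∃ n : ℕ, z * (y, e) ^ n ∈ G}
              mul_mem' := ?_
              add_mem' := ?_
              algebraMap_mem' := ?_ }, fun z => Iff.rfl⟩
    · rintro a b ⟨n, hn⟩ ⟨m, hm⟩
      refine ⟨n + m, ?_⟩
      have : a * b * (y, e) ^ (n + m) = (a * (y, e) ^ n) * (b * (y, e) ^ m) := by ring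
      rw [this]
      exact G.mul_mem hn hm
    · rintro a b ⟨n, hn⟩ ⟨m, hm⟩
      refine ⟨n + m, ?_⟩
      have : (a + b) * (y, e) ^ (n + m) =
        (a * (y, e) ^ n) * (y, e) ^ m + (b * (y, e) ^ m) * (y, e) ^ n := by ring
      rw [this]
      exact G.add_mem (G.mul_mem hn (G.pow_mem hye _)) (G.mul_mem hm (G.pow_mem hye _))
    · intro r
      exact ⟨0, by rw [pow_zero, mul_one]; exact G.algebraMap_mem r⟩
  have hle : G ≤ G' := fun z hz => (hG' z).2 ⟨0, by rw [pow_zero, mul_one]; exact hz⟩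
  have hS : G' ∈ PlaS L x c := by
    refine ⟨fun j => hle (hG.1.1 j), fun e' he' => ?_⟩
    obtain ⟨n, hn⟩ := (hG' _).1 he'
    have h1 : ((0 : Ω), e') * (y, e) ^ n = (0, e' * e ^ n) := by
      rw [Prod.pow_mk, Prod.mk_mul_mk, zero_mul]
    rw [h1] at hn
    have h2 := hG.1.2 _ hn
    exact (mul_eq_zero.1 h2).resolve_right (pow_ne_zero _ hw)
  have hle' : G' ≤ G := hG.2 hS hle
  have hinv : (y⁻¹, e⁻¹) ∈ G := by
    apply hle'
    rw [hG']
    refine ⟨1, ?_⟩
    rw [pow_one, Prod.mk_mul_mk, inv_mul_cancel₀ hy, inv_mul_cancel₀ hw]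
    exact G.one_mem
  refine IsUnit.of_mul_eq_one ⟨(y⁻¹, e⁻¹), hinv⟩ ?_
  apply Subtype.ext
  change (y, e) * (y⁻¹, e⁻¹) = 1
  rw [Prod.mk_mul_mk, mul_inv_cancel₀ hy, mul_inv_cancel₀ hw]
  rfl

/-- the two projections -/
private def plaf (G : Subalgebra L (Ω × E)) : G →ₐ[L] Ω := (AlgHom.fst L Ω E).comp G.val

private def plag (G : Subalgebra L (Ω × E)) : G →ₐ[L] E := (AlgHom.snd L Ω E).comp G.val

private theorem pla_ext (hG : Maximal (· ∈ PlaS L x c) G) (y : Ω) (e : E)
    (he : ∀ p : Polynomial G, p.eval₂ (plaf G : G →+* Ω) y = 0 →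
      p.eval₂ (plag G : G →+* E) e = 0) : (y, e) ∈ G := by
  have h1 : ∀ p : Polynomial G, Polynomial.aeval ((y, e) : Ω × E) p =
      (p.eval₂ (plaf G : G →+* Ω) y, p.eval₂ (plag G : G →+* E) e) := by
    intro p
    rw [Polynomial.aeval_def]
    apply Prod.ext
    · have := Polynomial.hom_eval₂ p (algebraMap G (Ω × E)) (RingHom.fst Ω E) (y, e)
      exact this
    · have := Polynomial.hom_eval₂ p (algebraMap G (Ω × E)) (RingHom.snd Ω E) (y, e)
      exact this
  obtain ⟨G', hG'⟩ : ∃ G' : Subalgebra L (Ω × E), ∀ z, z ∈ G' ↔ ∃ p : Polynomial G,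
      Polynomial.aeval ((y, e) : Ω × E) p = z :=
    ⟨((Polynomial.aeval (R := G) ((y, e) : Ω × E)).restrictScalars L).range, fun z => Iff.rfl⟩
  have hle : G ≤ G' := fun z hz => (hG' z).2 ⟨Polynomial.C ⟨z, hz⟩, by
    rw [Polynomial.aeval_C]; rfl⟩
  have hS : G' ∈ PlaS L x c := by
    refine ⟨fun j => hle (hG.1.1 j), fun e' he' => ?_⟩
    obtain ⟨p, hp⟩ := (hG' _).1 he'
    rw [h1] at hp
    have h2 := congrArg Prod.fst hp
    have h3 := congrArg Prod.snd hp
    change p.eval₂ (plag G : G →+* E) e = e' at h3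
    rw [← h3]
    exact he p h2
  have hle' : G' ≤ G := hG.2 hS hle
  exact hle' ((hG' _).2 ⟨Polynomial.X, Polynomial.aeval_X _⟩)

private theorem pla_inj (hG : Maximal (· ∈ PlaS L x c) G) : Function.Injective (plaf G) := by
  rw [injective_iff_map_eq_zero]
  rintro ⟨⟨a, b⟩, hab⟩ h
  change a = 0 at h
  subst h
  have := hG.1.2 b hab
  subst this
  rfl

private theorem pla_local (hG : Maximal (· ∈ PlaS L x c) G) : IsLocalRing G := by
  apply IsLocalRing.of_isUnit_or_isUnit_one_sub_self
  intro a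
  by_cases ha : (a : Ω × E).2 = 0
  · right
    apply pla_unit hG
    change (1 : E) - (a : Ω × E).2 ≠ 0
    rw [ha, sub_zero]
    exact one_ne_zero
  · left
    exact pla_unit hG a ha

private theorem pla_val [IsAlgClosed E] (hG : Maximal (· ∈ PlaS L x c) G) (y : Ω) :
    y ∈ (plaf G).range ∨ y⁻¹ ∈ (plaf G).range := by
  have := pla_local hG
  obtain ⟨B, hB, hBl⟩ := IsLocalRing.exists_factor_valuationRing (plaf G : G →+* Ω)
  have key : ∀ z ∈ B, z ∈ (plaf G).range := by
    intro z hz
    rcases pla_B (plaf G : G →+* Ω) (plag G : G →+* E) (fun a ha => pla_unit hG a ha) z with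
      ⟨e, he⟩ | ⟨p, hp, hp1⟩
    · exact ⟨⟨(z, e), pla_ext hG z e he⟩, rfl⟩
    · exfalso
      obtain ⟨f', hf'⟩ : ∃ f' : G →+* B, ∀ a, (f' a : Ω) = plaf G a ∧ (IsUnit (f' a) → IsUnit a) :=
        ⟨(plaf G : G →+* Ω).codRestrict B.toSubring hB, fun a => ⟨rfl, fun h =>
          hBl.map_nonunit a h⟩⟩
      have e1 : p.eval₂ f' ⟨z, hz⟩ = 0 := by
        apply Subtype.ext
        have h2 := Polynomial.hom_eval₂ p f' B.subtype ⟨z, hz⟩
        have h3 : B.subtype.comp f' = (plaf G : G →+* Ω) := by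
          ext a
          exact (hf' a).1
        rw [h3] at h2
        change B.subtype (Polynomial.eval₂ f' ⟨z, hz⟩ p) = 0
        rw [h2]
        exact hp
      have e2 : p.map ((IsLocalRing.residue B).comp f') = 1 := by
        have h4 : (p - 1).map ((IsLocalRing.residue B).comp f') = 0 := by
          ext n
          rw [Polynomial.coeff_map, Polynomial.coeff_zero, RingHom.comp_apply,
            IsLocalRing.residue_eq_zero_iff, IsLocalRing.mem_maximalIdeal, mem_nonunits_iff]
          intro hu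
          have h5 := (hf' _).2 hu
          have h6 := h5.map (plag G)
          have h7 : plag G ((p - 1).coeff n) = 0 := by
            have h8 : ((p - 1).map (plag G : G →+* E)).coeff n = 0 := by
              rw [Polynomial.map_sub, hp1, Polynomial.map_one, sub_self, Polynomial.coeff_zero]
            rw [Polynomial.coeff_map] at h8
            exact h8
          rw [h7] at h6
          exact not_isUnit_zero h6
        rw [Polynomial.map_sub, Polynomial.map_one, sub_eq_zero] at h4
        exact h4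
      have e3 := congrArg (IsLocalRing.residue B) e1
      rw [Polynomial.hom_eval₂, Polynomial.eval₂_eq_eval_map, e2, Polynomial.eval_one,
        map_zero] at e3
      exact one_ne_zero e3
  rcases B.mem_or_inv_mem y with h | h
  · exact Or.inl (key _ h)
  · exact Or.inr (key _ h)

end pla

theorem place {L Ω E : Type} [Field L] [Field Ω] [Field E] [IsAlgClosed E] [Algebra L Ω]
    [Algebra L E] (x : Fin 3 → Ω) (hx : ∀ j, x j ≠ 0) (c : Fin 3 → E) (hc : ∀ j, c j ≠ 0)
    (h : OnC L x c) : ∃ (R : Subalgebra L Ω) (π : R →ₐ[L] E), IsPlc L x c R π := by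
  obtain ⟨G, hG⟩ := pla_zorn h
  obtain ⟨e, he⟩ : ∃ e : G ≃ₐ[L] (plaf G).range, ∀ w, ((e w : (plaf G).range) : Ω) = plaf G w :=
    ⟨AlgEquiv.ofInjective (plaf G) (pla_inj hG), fun w => rfl⟩
  have hpi : ∀ (y : Ω) (hy : y ∈ (plaf G).range), ∃ w : G, plaf G w = y ∧
      ((plag G).comp (e.symm : (plaf G).range →ₐ[L] G)) ⟨y, hy⟩ = plag G w := by
    intro y hy
    refine ⟨e.symm ⟨y, hy⟩, ?_, rfl⟩
    rw [← he, AlgEquiv.apply_symm_apply]
  refine ⟨(plaf G).range, (plag G).comp (e.symm : (plaf G).range →ₐ[L] G), ?_, pla_val hG, ?_⟩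
  · intro j
    have hj : x j ∈ (plaf G).range := ⟨⟨(x j, c j), hG.1.1 j⟩, rfl⟩
    refine ⟨hj, ?_⟩
    obtain ⟨w, hw1, hw2⟩ := hpi (x j) hj
    rw [hw2]
    have h1 : w = ⟨(x j, c j), hG.1.1 j⟩ := pla_inj hG (by rw [hw1]; rfl)
    rw [h1]
    rfl
  · intro y hy hne
    obtain ⟨w, hw1, hw2⟩ := hpi y hy
    rw [hw2] at hne
    obtain ⟨u, hu⟩ := pla_unit hG w hne
    refine ⟨(↑u⁻¹ : G), ?_⟩
    have h1 : plaf G (↑u⁻¹ : G) * plaf G (u : G) = 1 := by
      rw [← map_mul, Units.inv_mul, map_one]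
    rw [hu, hw1] at h1
    exact eq_inv_of_mul_eq_one_left h1

end BMG
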