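import Pool.Agent.Lib.MP_a325a5_ag.G.DimG
import Pool.Agent.Lib.MP_a325a5_ag.G.Hil
import Pool.Agent.Lib.MP_a325a5_ag.G.Pla
import Pool.Agent.Lib.MP_a325a5_ag.G.Lift
import Pool.Agent.Lib.MP_a325a5_ag.G.OnCL

/-! Lemma 4.1: the degree of a point with one multiplicative relation. -/

open NumberField

namespace BMG

/-- every element of the algebra generated by the `c j` is a combination of bounded monomials -/
private theorem minG_bd {L F : Type} [Field L] [CharZero L] [Field F] [Algebra L F] (c : Fin 3 → F)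
    (hc : ∀ j, c j ≠ 0) (y : F) (hy : y ∈ Algebra.adjoin L (Set.range c)) :
    ∃ K : ℕ, y ∈ Bm L c K := by
  induction hy using Algebra.adjoin_induction with
  | mem y hy =>
    obtain ⟨j, rfl⟩ := hy
    refine ⟨1, ?_⟩
    have h : c j = ∏ i, c i ^ (Pi.single j 1 : Fin 3 → ℤ) i := by
      rw [Finset.prod_eq_single j]
      · rw [Pi.single_eq_same, zpow_one]
      · intro i _ hi
        rw [Pi.single_eq_of_ne hi, zpow_zero]
      · intro h
        exact absurd (Finset.mem_univ j) h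
    rw [h]
    refine Submodule.subset_span ⟨_, ?_, rfl⟩
    unfold nm
    rw [Finset.sum_eq_single j]
    · rw [Pi.single_eq_same]
      decide
    · intro i _ hi
      rw [Pi.single_eq_of_ne hi]
      rfl
    · intro h
      exact absurd (Finset.mem_univ j) h
  | algebraMap r => exact ⟨0, Bm_alg r 0⟩
  | add y z _ _ hy hz =>
    obtain ⟨K, hK⟩ := hy
    obtain ⟨K', hK'⟩ := hz
    exact ⟨K + K', Submodule.add_mem _ (Bm_mono (Nat.le_add_right _ _) hK)
      (Bm_mono (Nat.le_add_left _ _) hK')⟩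
  | mul y z _ _ hy hz =>
    obtain ⟨K, hK⟩ := hy
    obtain ⟨K', hK'⟩ := hz
    exact ⟨K + K', Bm_mul hc hK hK'⟩

theorem minG {L Ω : Type} [Field L] [CharZero L] [Field Ω] [Algebra L Ω] {x : Fin 3 → Ω}
    (hx : Crv L x) : ∃ σ : ℕ, 1 ≤ σ ∧ ∀ (F : Type) [Field F] [Algebra L F]
    [FiniteDimensional L F] (c : Fin 3 → F), (∀ j, c j ≠ 0) → OnC L x c →
    ∀ a : Fin 3 → ℤ, a ≠ 0 → ∏ j, c j ^ a j = 1 → Module.finrank L (KF L c) ≤ σ * nm a := by
  obtain ⟨σ, hσ, τ, hdim⟩ := hil hx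
  refine ⟨σ, hσ, ?_⟩
  intro F _ _ _ c hc hon a ha hrel
  let E := AlgebraicClosure F
  let ι : F →ₐ[L] E := IsScalarTower.toAlgHom L F E
  have hιc : ∀ j, ι (c j) ≠ 0 := fun j => (map_ne_zero ι).mpr (hc j)
  obtain ⟨R, π, hR⟩ := place x hx.ne (fun j => ι (c j)) hιc (onC_map hon ι)
  have hBR : ∀ K, ∀ g ∈ Bm L x K, g ∈ R := by
    intro K g hg
    have h : Bm L x K ≤ Subalgebra.toSubmodule R := by
      refine Submodule.span_le.mpr ?_
      rintro g ⟨m, _, rfl⟩
      exact (plc_mon hR hιc m).1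
    exact h hg
  obtain ⟨hfR, hfπ⟩ := plc_mon hR hιc a
  have hfR' : ∏ j, x j ^ a j - 1 ∈ R := sub_mem hfR (one_mem R)
  have hf : ∏ j, x j ^ a j - 1 ≠ 0 := by
    intro h
    apply hx.tr a ha
    rw [sub_eq_zero.mp h]
    exact isAlgebraic_one
  have hf0 : π ⟨∏ j, x j ^ a j - 1, hfR'⟩ = 0 := by
    have h1 : (⟨∏ j, x j ^ a j - 1, hfR'⟩ : R) = ⟨∏ j, x j ^ a j, hfR⟩ - 1 := rfl
    rw [h1, map_sub, map_one, hfπ]
    have h2 : ∏ j, ι (c j) ^ a j = ι (∏ j, c j ^ a j) := by
      rw [map_prod]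
      exact Finset.prod_congr rfl fun j _ => (map_zpow₀ ι _ _).symm
    rw [h2, hrel, map_one, sub_self]
  have hnm : 1 ≤ nm a := by
    by_contra h
    apply ha
    have h0 : nm a = 0 := by omega
    unfold nm at h0
    rw [Finset.sum_eq_zero_iff] at h0
    funext j
    exact Int.natAbs_eq_zero.mp (h0 j (Finset.mem_univ j))
  have hmul : ∀ K, ∀ g ∈ Bm L x K, (∏ j, x j ^ a j - 1) * g ∈ Bm L x (K + nm a) := by
    intro K g hg
    rw [sub_mul, one_mul, add_comm]
    exact Submodule.sub_mem _ (Bm_mul hx.ne (Bm_mon a le_rfl) hg)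
      (Bm_mono (Nat.le_add_left _ _) hg)
  let W : Submodule L E := (Subalgebra.toSubmodule (KF L c).toSubalgebra).map ι.toLinearMap
  have hKF : ∀ y ∈ KF L c, y ∈ Algebra.adjoin L (Set.range c) := by
    intro y hy
    have h := IntermediateField.adjoin_toSubalgebra_of_isAlgebraic (F := L) (E := F)
      (S := Set.range c) (fun x _ => Algebra.IsAlgebraic.isAlgebraic x)
    rw [← h]
    exact hy
  obtain ⟨K₀, hK₀⟩ : ∃ K₀ : ℕ, ∀ y ∈ KF L c, y ∈ Bm L c K₀ := by
    obtain ⟨s, hs⟩ := (IsNoetherian.noetherian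
      (Subalgebra.toSubmodule (KF L c).toSubalgebra) : Submodule.FG _)
    have h1 : ∀ y ∈ s, ∃ K : ℕ, y ∈ Bm L c K := by
      intro y hy
      apply minG_bd c hc
      apply hKF
      have : y ∈ Subalgebra.toSubmodule (KF L c).toSubalgebra := by
        rw [← hs]
        exact Submodule.subset_span hy
      exact this
    choose! Ks hKs using h1
    refine ⟨∑ y ∈ s, Ks y, fun y hy => ?_⟩
    have h2 : Submodule.span L (s : Set F) ≤ Bm L c (∑ y ∈ s, Ks y) := by
      refine Submodule.span_le.mpr fun y hy => ?_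
      exact Bm_mono (Finset.single_le_sum (fun _ _ => Nat.zero_le _) hy) (hKs y hy)
    apply h2
    rw [hs]
    exact hy
  have hW : ∀ K ≥ K₀, ∀ y ∈ W, ∃ g, ∃ h : g ∈ R, g ∈ Bm L x K ∧ π ⟨g, h⟩ = y := by
    intro K hK y hy
    obtain ⟨z, hz, rfl⟩ := Submodule.mem_map.mp hy
    have h1 : z ∈ Bm L c K := Bm_mono hK (hK₀ z hz)
    have h2 : ∀ z ∈ Bm L c K, ∃ g, ∃ h : g ∈ R, g ∈ Bm L x K ∧ π ⟨g, h⟩ = ι z := by
      intro z hz
      induction hz using Submodule.span_induction with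
      | mem z hz =>
        obtain ⟨m, hm, rfl⟩ := hz
        obtain ⟨h, h'⟩ := plc_mon hR hιc m
        refine ⟨_, h, Bm_mon m hm, ?_⟩
        rw [h', map_prod]
        exact Finset.prod_congr rfl fun j _ => (map_zpow₀ ι _ _).symm
      | zero =>
        refine ⟨0, zero_mem R, Submodule.zero_mem _, ?_⟩
        have : (⟨0, zero_mem R⟩ : R) = 0 := rfl
        rw [this, map_zero, map_zero]
      | add v w _ _ hv hw =>
        obtain ⟨g, h, hg, e⟩ := hv
        obtain ⟨g', h', hg', e'⟩ := hw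
        refine ⟨g + g', add_mem h h', Submodule.add_mem _ hg hg', ?_⟩
        have : (⟨g + g', add_mem h h'⟩ : R) = ⟨g, h⟩ + ⟨g', h'⟩ := rfl
        rw [this, map_add, e, e', map_add]
      | smul r v _ hv =>
        obtain ⟨g, h, hg, e⟩ := hv
        refine ⟨r • g, Subalgebra.smul_mem R h r, Submodule.smul_mem _ _ hg, ?_⟩
        have : (⟨r • g, Subalgebra.smul_mem R h r⟩ : R) = r • ⟨g, h⟩ := rfl
        rw [this, map_smul, e, map_smul]
    exact h2 z h1
  have h := (dimG R π (fun K => Bm L x K) σ τ hBR (fun K => (hdim K).1) (fun K => (hdim K).2)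
    _ hfR' hf hf0 (nm a) hnm hmul W K₀ hW).2
  have h3 : Module.finrank L W = Module.finrank L (KF L c) := by
    exact (LinearEquiv.finrank_eq (Submodule.equivMapOfInjective ι.toLinearMap
      (fun a b h => ι.injective h) (Subalgebra.toSubmodule (KF L c).toSubalgebra))).symm
  rw [h3] at h
  exact_mod_cast h

end BMG
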