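import Pool.Agent.Lib.MP_a325a5_ag.G.H52
import Pool.Agent.Lib.MP_a325a5_ag.G.MinG
import Pool.Agent.Lib.MP_a325a5_ag.G.FinDG
import Pool.Agent.Lib.MP_a325a5_ag.F.G2
import Pool.Agent.Lib.MP_a325a5_ag.F.Q4
import Pool.Agent.Lib.MP_a325a5_ag.F.N2
import Pool.Agent.Lib.MP_a325a5_ag.F.P1
import Pool.Agent.Lib.MP_a325a5_ag.F.DegB
import Pool.Agent.Lib.MP_a325a5_ag.F.FinT

/-! Lemma 5.4: as t1 and fin_T1 in F/T1.lean, F/FinT.lean (read them first).  h52: heights bounded; pigeon1 (F/Q4.lean): mu_M, V, one relation of size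
≤ C (MV)^(1/2); minG: [K : L] = finrank L (KF L c) ≤ σ nm a; D1main; M ≤ C φ(M)^(1+η).  fin_T1G: the field L(c) (exists_field), degree of c 0 at most D₀,
then fin_TD. -/

open NumberField BMF

namespace BMG

private theorem T1G_mrk {K : Type} [Field K] (P : Fin 3 → Kˣ) (a b : Fin 3 → ℤ)
    (h : LinearIndependent ℤ ![a, b]) (ha : ∏ i, P i ^ a i = 1) (hb : ∏ i, P i ^ b i = 1) :
    mrk P ≤ 1 := by
  let f : (Fin 3 → ℤ) →ₗ[ℤ] Additive Kˣ :=
    Fintype.linearCombination ℤ (fun i => Additive.ofMul (P i))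
  have hf : ∀ c, f c = Additive.ofMul (∏ i, P i ^ c i) := by
    intro c
    rw [ofMul_prod]
    rfl
  have hr : LinearMap.range f = Submodule.span ℤ (Set.range fun i => Additive.ofMul (P i)) :=
    Fintype.range_linearCombination ℤ _
  have hk : 2 ≤ Module.finrank ℤ (LinearMap.ker f) := by
    have ha' : a ∈ LinearMap.ker f := by
      rw [LinearMap.mem_ker, hf, ha]; rfl
    have hb' : b ∈ LinearMap.ker f := by
      rw [LinearMap.mem_ker, hf, hb]; rfl
    have hli : LinearIndependent ℤ (![⟨a, ha'⟩, ⟨b, hb'⟩] : Fin 2 → LinearMap.ker f) := by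
      apply LinearIndependent.of_comp (LinearMap.ker f).subtype
      have : (LinearMap.ker f).subtype ∘ (![⟨a, ha'⟩, ⟨b, hb'⟩] : Fin 2 → LinearMap.ker f) =
          ![a, b] := by
        funext i
        fin_cases i <;> rfl
      rw [this]
      exact h
    have := hli.fintype_card_le_finrank
    rwa [Fintype.card_fin] at this
  have h3 := Submodule.finrank_quotient_add_finrank (LinearMap.ker f)
  rw [Module.finrank_fin_fun, (LinearMap.quotKerEquivRange f).finrank_eq, hr] at h3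
  unfold mrk
  omega

theorem t1G {L Ω : Type} [Field L] [NumberField L] [Field Ω] [Algebra L Ω] {x : Fin 3 → Ω}
    (hx : Crv L x) : ∃ D₀ : ℕ, ∀ (K : Type) [Field K] [NumberField K] [Algebra L K]
      (c : Fin 3 → K), KF L c = ⊤ → (∀ j, c j ≠ 0) → OnC L x c →
      ∀ a b : Fin 3 → ℤ, LinearIndependent ℤ ![a, b] → ∏ j, c j ^ a j = 1 →
      ∏ j, c j ^ b j = 1 → Module.finrank L K ≤ D₀ := by
  obtain ⟨B, hB0, hB⟩ := h52 hx
  obtain ⟨σ, hσ, hmin⟩ := minG hx
  obtain ⟨D₀, hD₀⟩ := degree_bound1 L B σ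
  refine ⟨D₀, ?_⟩
  intro K _ _ _ c htop hne hon a b hab h1 h2
  have hFD : FiniteDimensional L K := Module.Finite.of_restrictScalars_finite ℚ L K
  let P : Fin 3 → Kˣ := fun j => Units.mk0 _ (hne j)
  have hPprod : ∀ e : Fin 3 → ℤ, ((∏ j, P j ^ e j : Kˣ) : K) = ∏ j, c j ^ e j := by
    intro e
    rw [Units.coe_prod]
    refine Finset.prod_congr rfl fun j _ => ?_
    rw [Units.val_zpow_eq_zpow_val]
    rfl
  have hP1 : ∀ e : Fin 3 → ℤ, ∏ j, P j ^ e j = 1 ↔ ∏ j, c j ^ e j = 1 := by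
    intro e
    rw [← hPprod e, Units.val_eq_one]
  have ha0 : a ≠ 0 := hab.ne_zero 0
  have hcount : Module.finrank L K ≤ Module.finrank ℚ K := by
    rw [← Module.finrank_mul_finrank ℚ L K]
    exact Nat.le_mul_of_pos_left _ Module.finrank_pos
  refine hcount.trans (hD₀ K P ?_ (T1G_mrk P a b hab ((hP1 a).2 h1) ((hP1 b).2 h2)) ?_)
  · intro j
    exact hB K c hne hon a ha0 h1 j
  · intro e he hrel
    rw [hP1] at hrel
    have h3 := hmin K c hne hon e he hrel
    rw [htop, IntermediateField.finrank_top'] at h3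
    have h4 : (Module.finrank L K : ℝ) ≤ ((σ * nm e : ℕ) : ℝ) := Nat.cast_le.mpr h3
    refine h4.trans (le_of_eq ?_)
    unfold nm
    push_cast
    congr 1
    refine Finset.sum_congr rfl fun j _ => ?_
    rw [Nat.cast_natAbs]
    push_cast
    rfl

theorem fin_T1G (L : Type) [Field L] [NumberField L] [Algebra L (AlgebraicClosure ℚ)]
    {Ω : Type} [Field Ω] [Algebra L Ω] {x : Fin 3 → Ω} (hx : Crv L x) :
    {c : Fin 3 → AlgebraicClosure ℚ | (∀ j, c j ≠ 0) ∧ OnC L x c ∧
      ∃ a b : Fin 3 → ℤ, LinearIndependent ℤ ![a, b] ∧ ∏ j, c j ^ a j = 1 ∧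
      ∏ j, c j ^ b j = 1}.Finite := by
  obtain ⟨D₀, hD⟩ := t1G hx
  refine (fin_TD L hx D₀).subset ?_
  rintro c ⟨hc0, hon, a, b, hab, ha, hb⟩
  refine ⟨hc0, hon, ⟨a, hab.ne_zero 0, ha⟩, ?_⟩
  obtain ⟨K, iF, iN, iA, i, hS, htop⟩ := exists_field L (Set.range c) (Set.finite_range c)
  have hinj : Function.Injective i := i.toRingHom.injective
  choose c' hc' using fun j => hS (Set.mem_range_self j)
  have hpre : i ⁻¹' (Set.range c) = Set.range c' := by
    ext y
    simp only [Set.mem_preimage, Set.mem_range]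
    constructor
    · rintro ⟨j, hj⟩
      exact ⟨j, hinj ((hc' j).trans hj)⟩
    · rintro ⟨j, rfl⟩
      exact ⟨j, (hc' j).symm⟩
  rw [hpre] at htop
  have hon' : OnC L x c' := by
    intro p hp
    have h1 := hon p hp
    have h2 : c = fun j => i (c' j) := funext fun j => (hc' j).symm
    rw [h2, ← MvPolynomial.comp_aeval, AlgHom.comp_apply] at h1
    exact (map_eq_zero_iff i hinj).1 h1
  have hc0' : ∀ j, c' j ≠ 0 := by
    intro j h
    apply hc0 j
    rw [← hc' j, h, map_zero]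
  have hrel : ∀ e : Fin 3 → ℤ, ∏ j, c j ^ e j = 1 → ∏ j, c' j ^ e j = 1 := by
    intro e he
    apply hinj
    rw [map_prod, map_one, ← he]
    refine Finset.prod_congr rfl fun j _ => ?_
    rw [map_zpow₀, hc' j]
  have hdeg := hD K c' htop hc0' hon' a b hab (hrel a ha) (hrel b hb)
  have hFD : FiniteDimensional L K := Module.Finite.of_restrictScalars_finite ℚ L K
  rw [← hc' 0, minpoly.algHom_eq i hinj]
  have hint : IsIntegral L (c' 0) := by
    have h1 : IsIntegral ℚ (c' 0) := Algebra.IsIntegral.isIntegral (c' 0)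
    exact h1.tower_top
  have h0 := IntermediateField.adjoin.finrank hint
  rw [← h0]
  refine le_trans ?_ hdeg
  rw [← Module.finrank_mul_finrank L (IntermediateField.adjoin L {c' 0}) K]
  exact Nat.le_mul_of_pos_right _ Module.finrank_pos

end BMG
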