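import Pool.Agent.Lib.MP_a325a5_ag.G.EndG
import Pool.Agent.Lib.MP_a325a5_ag.G.T1G
import Pool.Agent.Lib.MP_a325a5_ag.G.FinDG
import Pool.Agent.Lib.MP_a325a5_ag.G.HbdG
import Pool.Agent.Lib.MP_a325a5_ag.S.ThmL

/-! Theorem S_C over a number field: as thmS_L in S/ThmL.lean (read it first).  T = T_1 (fin_T1G) and T_(D_1), T_(D_2) (fin_TD).  Divide by z 0 (NVS and the
rank are unchanged), the field L(c, z) (exists_field), hbdG, ptG_of, endG. -/

open NumberField BMF Pool.Agent.Lib.MP_a325a5_ag.UL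

namespace BMG

private theorem thmG_pull {L : Type} [Field L] [NumberField L] [Algebra L (AlgebraicClosure ℚ)]
    {n : ℕ} (c : Fin 3 → (AlgebraicClosure ℚ)ˣ) (z : Fin (n + 1) → (AlgebraicClosure ℚ)ˣ) :
    ∃ (K : Type) (_ : Field K) (_ : NumberField K) (_ : Algebra L K)
      (i : K →ₐ[L] AlgebraicClosure ℚ) (c' : Fin 3 → Kˣ) (z' : Fin (n + 1) → Kˣ),
        (∀ l, i (c' l : K) = c l) ∧ (∀ l, i (z' l : K) = z l) ∧
        IntermediateField.adjoin L
          (Set.range (fun l => (c' l : K)) ∪ Set.range fun l => (z' l : K)) = ⊤ := by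
  classical
  obtain ⟨K, iF, iN, iA, i, hS, htop⟩ := exists_field L
    (Set.range (fun l => (c l : AlgebraicClosure ℚ)) ∪
      Set.range fun l => (z l : AlgebraicClosure ℚ))
    ((Set.finite_range _).union (Set.finite_range _))
  have hc : ∀ l, ∃ x : K, i x = (c l : AlgebraicClosure ℚ) := fun l => hS (Or.inl ⟨l, rfl⟩)
  have hz : ∀ l, ∃ x : K, i x = (z l : AlgebraicClosure ℚ) := fun l => hS (Or.inr ⟨l, rfl⟩)
  choose w hw using hc
  choose x hx using hz
  have hw0 : ∀ l, w l ≠ 0 := by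
    intro l h0
    have := hw l
    rw [h0, map_zero] at this
    exact (c l).ne_zero this.symm
  have hx0 : ∀ l, x l ≠ 0 := by
    intro l h0
    have := hx l
    rw [h0, map_zero] at this
    exact (z l).ne_zero this.symm
  refine ⟨K, iF, iN, iA, i, fun l => Units.mk0 (w l) (hw0 l), fun l => Units.mk0 (x l) (hx0 l),
    hw, hx, ?_⟩
  have hpre : i ⁻¹' (Set.range (fun l => (c l : AlgebraicClosure ℚ)) ∪
      Set.range fun l => (z l : AlgebraicClosure ℚ)) = Set.range w ∪ Set.range x := by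
    ext y
    simp only [Set.mem_preimage, Set.mem_union, Set.mem_range]
    constructor
    · rintro (⟨l, h⟩ | ⟨l, h⟩)
      · exact Or.inl ⟨l, i.injective ((hw l).trans h)⟩
      · exact Or.inr ⟨l, i.injective ((hx l).trans h)⟩
    · rintro (⟨l, rfl⟩ | ⟨l, rfl⟩)
      · exact Or.inl ⟨l, (hw l).symm⟩
      · exact Or.inr ⟨l, (hx l).symm⟩
  rw [hpre] at htop
  exact htop

private theorem thmG_nvs {L K F : Type} [Field L] [Field K] [Field F] [Algebra L K] [Algebra L F]
    (i : K →ₐ[L] F) {n : ℕ} (f : Fin (n + 1) → Polynomial L) (t : K) (z : Fin (n + 1) → K)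
    (h : NVS fun l => Polynomial.aeval (i t) (f l) * i (z l)) :
    NVS fun l => Polynomial.aeval t (f l) * z l := by
  have key : ∀ I : Finset (Fin (n + 1)), i (∑ l ∈ I, Polynomial.aeval t (f l) * z l) =
      ∑ l ∈ I, Polynomial.aeval (i t) (f l) * i (z l) := by
    intro I
    rw [map_sum]
    refine Finset.sum_congr rfl fun l _ => ?_
    rw [map_mul, Polynomial.aeval_algHom_apply]
  refine ⟨i.injective ?_, fun I hI hI' h0 => h.2 I hI hI' ?_⟩
  · change i (∑ l, Polynomial.aeval t (f l) * z l) = i 0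
    rw [key, map_zero]
    exact h.1
  · rw [← key, h0, map_zero]

private theorem thmG_mr {K F : Type} [Field K] [Field F] (i : K →+* F) {ι : Type} [Fintype ι]
    (x : ι → Kˣ) (y : ι → Fˣ) (h : ∀ l, i (x l : K) = y l) : mr x = mr y := by
  refine mr_congr _ _ fun a => ?_
  have e : ∏ k, y k ^ a k = Units.map (i : K →* F) (∏ k, x k ^ a k) := by
    rw [map_prod]
    refine Finset.prod_congr rfl fun k _ => ?_
    rw [map_zpow]
    refine congrArg (fun u : Fˣ => u ^ a k) (Units.ext ?_)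
    rw [← h k]
    rfl
  rw [e]
  constructor
  · intro h
    exact Units.map_injective (f := (i : K →* F)) i.injective (h.trans (map_one _).symm)
  · intro h
    rw [h, map_one]

private theorem thmG_onc {L Ω K F : Type} [Field L] [Field Ω] [Field K] [Field F] [Algebra L Ω]
    [Algebra L K] [Algebra L F] (i : K →ₐ[L] F) {x : Fin 3 → Ω} (c : Fin 3 → K)
    (h : OnC L x fun j => i (c j)) : OnC L x c := by
  intro p hp
  apply i.injective
  rw [map_zero, ← h p hp]
  exact (MvPolynomial.comp_aeval_apply (φ := i) (f := c) p).symm ▸ rfl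

theorem thmG_L {L Ω : Type} [Field L] [NumberField L] [Algebra L (AlgebraicClosure ℚ)]
    [Field Ω] [IsAlgClosed Ω] [Algebra L Ω] {x : Fin 3 → Ω} (hx : Crv L x) (τ : L →+* ℂ)
    (hNA : NAc L x τ) {n : ℕ} (hn : 1 ≤ n) (f : Fin (n + 1) → Polynomial L)
    (hf : ∀ i, f i ≠ 0) :
    ∃ (T : Set (Fin 3 → AlgebraicClosure ℚ)) (N₀ C : ℕ), T.Finite ∧ 0 < N₀ ∧
      ∀ (c : Fin 3 → (AlgebraicClosure ℚ)ˣ) (z : Fin (n + 1) → (AlgebraicClosure ℚ)ˣ),
        OnC L x (fun j => (c j : AlgebraicClosure ℚ)) →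
        NVS (fun i => Polynomial.aeval (c 0 : AlgebraicClosure ℚ) (f i) *
          (z i : AlgebraicClosure ℚ)) →
        mr (Sum.elim c z) ≤ 2 → (fun j => (c j : AlgebraicClosure ℚ)) ∈ T ∨
        ∀ i, ∃ κ : Fin 3 → ℤ, (∀ j, |κ j| ≤ C) ∧ (z i / z 0) ^ N₀ = ∏ j, c j ^ κ j := by
  classical
  obtain ⟨B, D₁, hB⟩ := hbdG hx τ hNA n f
  obtain ⟨C₁, N₀, hN₀, hC⟩ := endG hx hn f hf B
  have h1 := fin_T1G L hx
  have h2 := fin_TD L hx D₁
  have h3 := fin_TD L hx C₁
  refine ⟨_, N₀, C₁, (h1.union h2).union h3, hN₀, ?_⟩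
  intro c z hc hs hm
  by_cases hT : (fun j => (c j : AlgebraicClosure ℚ)) ∈
      ({c : Fin 3 → AlgebraicClosure ℚ | (∀ j, c j ≠ 0) ∧ OnC L x c ∧
        ∃ a b : Fin 3 → ℤ, LinearIndependent ℤ ![a, b] ∧ ∏ j, c j ^ a j = 1 ∧
        ∏ j, c j ^ b j = 1} ∪
      {c : Fin 3 → AlgebraicClosure ℚ | (∀ j, c j ≠ 0) ∧ OnC L x c ∧
        (∃ a : Fin 3 → ℤ, a ≠ 0 ∧ ∏ j, c j ^ a j = 1) ∧
        (minpoly L (c 0)).natDegree ≤ D₁}) ∪
      {c : Fin 3 → AlgebraicClosure ℚ | (∀ j, c j ≠ 0) ∧ OnC L x c ∧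
        (∃ a : Fin 3 → ℤ, a ≠ 0 ∧ ∏ j, c j ^ a j = 1) ∧
        (minpoly L (c 0)).natDegree ≤ C₁}
  · exact Or.inl hT
  right
  simp only [Set.mem_union, not_or] at hT
  obtain ⟨⟨n1, n2⟩, n3⟩ := hT
  -- pull back to a number field
  obtain ⟨K, iF, iN, iA, i, c', z', hic, hiz, htop⟩ :=
    thmG_pull (L := L) c (fun l => z l * (z 0)⁻¹)
  have hcn : ∀ j, (c j : AlgebraicClosure ℚ) ≠ 0 := fun j => (c j).ne_zero
  have hz0 : z' 0 = 1 := by
    apply Units.ext
    apply i.injective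
    change i (z' 0 : K) = i ((1 : Kˣ) : K)
    rw [hiz 0, mul_inv_cancel, Units.val_one, Units.val_one, map_one]
  have hon : OnC L x (fun j => (c' j : K)) := by
    refine thmG_onc i (fun j => (c' j : K)) ?_
    have e : (fun j => i (c' j : K)) = fun j => (c j : AlgebraicClosure ℚ) := funext hic
    rw [e]
    exact hc
  have hs' : NVS fun l => Polynomial.aeval (c' 0 : K) (f l) * (z' l : K) := by
    refine thmG_nvs i f (c' 0 : K) (fun l => (z' l : K)) ?_
    have e : ∀ l, Polynomial.aeval (i (c' 0 : K)) (f l) * i (z' l : K) =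
        (Polynomial.aeval (c 0 : AlgebraicClosure ℚ) (f l) * (z l : AlgebraicClosure ℚ)) *
          ((z 0)⁻¹ : (AlgebraicClosure ℚ)ˣ) := by
      intro l
      rw [hic 0, hiz l]
      push_cast
      ring
    refine ⟨?_, fun I hI hI' h0 => hs.2 I hI hI' ?_⟩
    · simp only [e]
      rw [← Finset.sum_mul, hs.1, zero_mul]
    · simp only [e] at h0
      rw [← Finset.sum_mul] at h0
      exact (mul_eq_zero.mp h0).resolve_right (Units.ne_zero _)
  have hm' : mr (Sum.elim c' z') ≤ 2 := by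
    have e1 : mr (Sum.elim c' z') = mr (Sum.elim c fun l => z l * (z 0)⁻¹) := by
      refine thmG_mr (i : K →+* AlgebraicClosure ℚ) _ _ ?_
      rintro (j | l)
      · simp only [Sum.elim_inl]
        exact hic j
      · simp only [Sum.elim_inr]
        exact hiz l
    rw [e1]
    refine le_trans ?_ hm
    unfold mr
    refine Submodule.finrank_mono ?_
    rw [Submodule.span_le]
    rintro _ ⟨j | l, rfl⟩
    · exact Submodule.subset_span ⟨Sum.inl j, rfl⟩
    · have h5 : Additive.ofMul (z l) ∈ Submodule.span ℤ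
          (Set.range fun i => Additive.ofMul (Sum.elim c z i)) :=
        Submodule.subset_span ⟨Sum.inr l, rfl⟩
      have h6 : Additive.ofMul (z 0) ∈ Submodule.span ℤ
          (Set.range fun i => Additive.ofMul (Sum.elim c z i)) :=
        Submodule.subset_span ⟨Sum.inr 0, rfl⟩
      have h7 := Submodule.sub_mem _ h5 h6
      simpa [sub_eq_add_neg] using h7
  obtain ⟨⟨a, ha0, ha⟩, hht, hor⟩ := hB K c' z' hon hs' hm'
  have himg : ∀ a : Fin 3 → ℤ, i ((∏ j, c' j ^ a j : Kˣ) : K) =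
      ∏ j, (c j : AlgebraicClosure ℚ) ^ a j := by
    intro a
    simp only [Units.coe_prod, Units.val_zpow_eq_zpow_val, map_prod, map_zpow₀, hic]
  have hrelQ : ∀ a : Fin 3 → ℤ, ∏ j, c' j ^ a j = 1 →
      ∏ j, (c j : AlgebraicClosure ℚ) ^ a j = 1 := by
    intro a ha
    rw [← himg, ha, Units.val_one, map_one]
  have hno2 : ∀ a b : Fin 3 → ℤ, ∏ j, c' j ^ a j = 1 → ∏ j, c' j ^ b j = 1 →
      ¬ LinearIndependent ℤ ![a, b] := by
    intro a b ha hb hab
    exact n1 ⟨hcn, hc, a, b, hab, hrelQ a ha, hrelQ b hb⟩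
  have hbd : ∀ l, ht (z' l : K) ≤ B := by
    rcases hor with h | h | ⟨a, b, hab, ha, hb⟩
    · intro l
      have := h l
      rw [hz0] at this
      simpa using this
    · refine absurd ⟨hcn, hc, ⟨a, ha0, hrelQ a ha⟩, ?_⟩ n2
      show (minpoly L (c 0 : AlgebraicClosure ℚ)).natDegree ≤ D₁
      rw [← hic 0, minpoly.algHom_eq i i.injective]
      exact h
    · exact absurd hab (hno2 a b ha hb)
  have hpt : PtG L x f (fun j => (c' j : K)) fun l => (z' l : K) :=
    ptG_of f c' z' hon hz0 hs' hm' ⟨a, ha0, ha⟩ hno2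
  rcases hC K (fun j => (c' j : K)) (fun l => (z' l : K)) hpt htop hht hbd with h | h
  · refine absurd ⟨hcn, hc, ⟨a, ha0, hrelQ a ha⟩, ?_⟩ n3
    show (minpoly L (c 0 : AlgebraicClosure ℚ)).natDegree ≤ C₁
    rw [← hic 0, minpoly.algHom_eq i i.injective]
    exact (minpoly.natDegree_le _).trans h
  · intro l
    obtain ⟨κ, hκ, he⟩ := h l
    refine ⟨κ, hκ, ?_⟩
    apply Units.ext
    have e2 := congrArg i he
    rw [map_pow, hiz l] at e2
    rw [div_eq_mul_inv, Units.val_pow_eq_pow_val, e2, map_prod, Units.coe_prod]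
    refine Finset.prod_congr rfl fun j _ => ?_
    rw [map_zpow₀, hic, Units.val_zpow_eq_zpow_val]

end BMG
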